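import Pool.Agent.Work.MP_c1bd5a_ag.Sig

/-!
# Bair (S-M) : Baire category

If all `Loc d g` had empty interior, each would be a countable union of compact (so closed) sets with empty interior
(subsets), i.e. of nowhere dense sets, and the union over `d` would be meagre (`isMeagre_iUnion`, `IsClosed.isNowhereDense_iff`,
`IsNowhereDense.isMeagre`).
-/

set_option autoImplicit false

namespace MP_c1bd5a_ag

open MvPolynomial

theorem exists_interior {g : ℕ} (h : ¬ IsMeagre (⋃ d, Loc d g)) :
    ∃ d, (interior (Loc d g)).Nonempty := by
  by_contra hcon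
  push Not at hcon
  apply h
  refine isMeagre_iUnion fun d => ?_
  obtain ⟨K, hK, hKu⟩ := isSigmaCompact_loc d g
  rw [← hKu]
  refine isMeagre_iUnion fun j => ?_
  apply IsNowhereDense.isMeagre
  rw [(hK j).isClosed.isNowhereDense_iff]
  have h1 : interior (K j) ⊆ interior (Loc d g) := by
    apply interior_mono
    rw [← hKu]
    exact Set.subset_iUnion K j
  rw [hcon d] at h1
  exact Set.subset_empty_iff.1 h1

end MP_c1bd5a_ag
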