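import Pool.Agent.Work.MP_c1bd5a_ag.Darb

/-!
# Bas (M) : symplectic vectors in the lattice of an abelian variety

`Λ` is a ℤ-lattice in `ℂ^g` (real dimension `2 g`): it is free of rank `2 g` with a ℤ-basis `b` which is an ℝ-basis of `ℂ^g`
(`IsZLattice ℝ Λ` from `h.span`, `ZLattice.module_free`, `ZLattice.rank`, `Module.Free.chooseBasis` / `Module.finBasis`, `Basis.ofZLatticeBasis`).
Let `M i j : ℤ` with `E (b i) (b j) = M i j` (choice), `V = Fin (2 g) → ℚ` (or the index type of `b`), `B x y = ∑ x i * y j * M i j`: alternating (`M i i = 0`, `M j i = - M i j`; or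
`B x x` cast to `ℝ` is `E v v`, `v = ∑ x i • b i`), nondegenerate: if `B x y = 0` for all `y` then `v = ∑ x i • b i` satisfies `E v (b j) = 0` for all `j`, so `E v w = 0` for
all `w`, so `E (I • v) v = - E v (I • v) = 0` and `v = 0`, `x = 0`.
`darboux` gives `g' = g` and rational vectors `e i`, `f i`; multiply them all by a common denominator `k ≥ 1` of their coordinates: the vectors
`∑ (k e i) j • b j` are in `Λ`, and `E (f i) (e j) = k ^ 2` or `0`: `N = k ^ 2`.
-/

set_option autoImplicit false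

namespace MP_c1bd5a_ag

open MvPolynomial

private theorem common_den {κ : Type*} [Fintype κ] (q : κ → ℚ) :
    ∃ k : ℕ, 0 < k ∧ ∀ i, ∃ n : ℤ, (k : ℚ) * q i = n := by
  refine ⟨∏ i, (q i).den, Finset.prod_pos fun i _ => (q i).den_pos, fun i => ?_⟩
  obtain ⟨c, hc⟩ := Finset.dvd_prod_of_mem (fun i => (q i).den) (Finset.mem_univ i)
  refine ⟨c * (q i).num, ?_⟩
  rw [hc]
  push_cast
  have h1 : q i * ((q i).den : ℚ) = (q i).num := Rat.mul_den_eq_num (q i)
  linear_combination (c : ℚ) * h1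

theorem exists_sympl {g : ℕ} {Λ : Submodule ℤ (Fin g → ℂ)} (h : IsAbelian Λ) :
    ∃ (E : (Fin g → ℂ) →ₗ[ℝ] (Fin g → ℂ) →ₗ[ℝ] ℝ) (N : ℕ) (e f : Fin g → Fin g → ℂ),
      IsRiemann E ∧ Sympl Λ E N e f ∧ ∀ v ∈ Λ, ∀ w ∈ Λ, ∃ n : ℤ, E v w = n := by
  classical
  obtain ⟨E, halt, hinv, hpos, hint⟩ := h.riemann
  haveI : DiscreteTopology Λ := h.discrete
  haveI : IsZLattice ℝ Λ := ⟨h.span⟩
  have hskew : ∀ v w, E v w = -E w v := by
    intro v w
    have h1 := halt (v + w)
    have h2 : E (v + w) (v + w) = E v v + E v w + (E w v + E w w) := by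
      rw [map_add E v w, LinearMap.add_apply, map_add (E v), map_add (E w)]
    rw [h2, halt v, halt w] at h1
    linarith
  let b0 := Module.Free.chooseBasis ℤ Λ
  let b := b0.ofZLatticeBasis ℝ Λ
  have hb : ∀ i, b i ∈ Λ := by
    intro i
    have h1 : b i = (b0 i : Fin g → ℂ) := b0.ofZLatticeBasis_apply ℝ Λ i
    rw [h1]
    exact (b0 i).2
  choose M hM using fun i j => hint (b i) (hb i) (b j) (hb j)
  let vv : (Module.Free.ChooseBasisIndex ℤ Λ → ℚ) → (Fin g → ℂ) := fun x => ∑ i, (x i : ℝ) • b i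
  let B : (Module.Free.ChooseBasisIndex ℤ Λ → ℚ) →ₗ[ℚ]
      (Module.Free.ChooseBasisIndex ℤ Λ → ℚ) →ₗ[ℚ] ℚ :=
    Matrix.toLinearMap₂' ℚ (Matrix.of fun i j => (M i j : ℚ))
  have hBE : ∀ x y, ((B x y : ℚ) : ℝ) = E (vv x) (vv y) := by
    intro x y
    have h1 : B x y = ∑ i, ∑ j, x i * (y j * (M i j : ℚ)) := by
      simp only [B, Matrix.toLinearMap₂'_apply, Matrix.of_apply, smul_eq_mul]
    rw [h1]
    simp only [vv, map_sum, map_smul, LinearMap.sum_apply, LinearMap.smul_apply, smul_eq_mul, hM]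
    push_cast
    rw [Finset.sum_comm]
    refine Finset.sum_congr rfl fun j _ => ?_
    rw [Finset.mul_sum]
    refine Finset.sum_congr rfl fun i _ => ?_
    ring
  have hvv0 : ∀ x, vv x = 0 → x = 0 := by
    intro x hx
    have h1 := Fintype.linearIndependent_iff.1 b.linearIndependent (fun i => (x i : ℝ)) hx
    funext i
    have h2 := h1 i
    exact_mod_cast h2
  have hvvs : ∀ j, vv (Pi.single j 1) = b j := by
    intro j
    simp only [vv]
    rw [Finset.sum_eq_single j]
    · simp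
    · intro i _ hij
      rw [Pi.single_eq_of_ne hij]
      simp
    · intro hj
      exact absurd (Finset.mem_univ j) hj
  have hBalt : ∀ v, B v v = 0 := by
    intro v
    have h1 := hBE v v
    rw [halt] at h1
    exact_mod_cast h1
  have hBnd : ∀ v, (∀ w, B v w = 0) → v = 0 := by
    intro v hv
    apply hvv0
    have h1 : E (vv v) = 0 := by
      apply b.ext
      intro j
      have h2 := hBE v (Pi.single j 1)
      rw [hv, hvvs] at h2
      rw [← h2]
      simp
    by_contra hne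
    have h2 := hpos _ hne
    rw [hskew, h1] at h2
    simp at h2
  have hcard : Module.finrank ℚ (Module.Free.ChooseBasisIndex ℤ Λ → ℚ) = 2 * g := by
    rw [Module.finrank_pi, ← Module.finrank_eq_card_basis b, Module.finrank_pi_fintype]
    simp [Complex.finrank_real_complex]
    ring
  obtain ⟨g', e, f, hg, hfe, hee, hff⟩ := darboux (2 * g) _ B hcard hBalt hBnd
  obtain rfl : g' = g := by omega
  obtain ⟨k, hk, hk'⟩ := common_den (Sum.elim
    (fun p : Fin g' × Module.Free.ChooseBasisIndex ℤ Λ => e p.1 p.2)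
    (fun p : Fin g' × Module.Free.ChooseBasisIndex ℤ Λ => f p.1 p.2))
  have hmem : ∀ x : Module.Free.ChooseBasisIndex ℤ Λ → ℚ, (∀ j, ∃ n : ℤ, (k : ℚ) * x j = n) →
      vv ((k : ℚ) • x) ∈ Λ := by
    intro x hx
    simp only [vv]
    refine Submodule.sum_mem _ fun j _ => ?_
    obtain ⟨n, hn⟩ := hx j
    have h1 : ((((k : ℚ) • x) j : ℚ) : ℝ) • b j = n • b j := by
      rw [Pi.smul_apply, smul_eq_mul, hn, Rat.cast_intCast, Int.cast_smul_eq_zsmul]
    rw [h1]
    exact Λ.smul_mem n (hb j)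
  have hBk : ∀ x y, E (vv ((k : ℚ) • x)) (vv ((k : ℚ) • y)) = (k : ℝ) ^ 2 * ((B x y : ℚ) : ℝ) := by
    intro x y
    rw [← hBE]
    have h1 : B ((k : ℚ) • x) ((k : ℚ) • y) = (k : ℚ) * ((k : ℚ) * B x y) := by
      rw [map_smul B, LinearMap.smul_apply, map_smul (B x), smul_eq_mul, smul_eq_mul]
    rw [h1]
    push_cast
    ring
  refine ⟨E, k ^ 2, fun i => vv ((k : ℚ) • e i), fun i => vv ((k : ℚ) • f i),
    ⟨halt, hinv, hpos⟩, ⟨by positivity, ?_, ?_, ?_, ?_, ?_⟩, hint⟩
  · exact fun i => hmem _ fun j => hk' (Sum.inl (i, j))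
  · exact fun i => hmem _ fun j => hk' (Sum.inr (i, j))
  · intro i j
    rw [hBk, hee]
    simp
  · intro i j
    rw [hBk, hff]
    simp
  · intro i j
    rw [hBk, hfe]
    split_ifs <;> simp

end MP_c1bd5a_ag
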