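import Pool.Agent.Work.MP_c1bd5a_ag.Defs

/-!
# CmAb (M) : the lattice `cmLat g` has a Riemann form

`m = g + 1`, `ζ = exp(π I / m)`, `cmv g k i = ζ^(k (i + 1))`, `i + 1 = 1, ..., g`.
(1) Sine transform: for integers `1 ≤ p, q ≤ g`: `∑_{i=1}^{g} sin(π i p / m) sin(π i q / m) = m / 2` if `p = q`, else `0` (product to sum, geometric sums of
`2 m`-th roots of unity; the sum over `i = 0, ..., m - 1` is the same since the terms `i = 0` vanish).
(2) Choose integers `c_1, ..., c_g` such that `t_i := ∑_{q=1}^{g} c_q sin(π i q / m) > 0` for `i = 1, ..., g`: by (1) the real numbers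
`c'_q = (2 / m) ∑_i sin(π i q / m)` give `t_i = 1`; approximate the `c'_q` by rational numbers and clear denominators.
(3) `E v w = (2 / m) ∑_i t_i Im (v i * conj (w i))`; it is a Riemann form because `t_i > 0`.  On the generators:
`E (cmv k) (cmv l) = (2 / m) ∑_i t_i sin(π i (k - l) / m)`; with `p = k - l`: this is `c_p` for `1 ≤ p ≤ g` by (1), `0` for `m ∣ p`, and in general an integer:
`sin(π i p / m)` is odd in `p` and has period `2 m` in `p`.  By bilinearity `E` is integral on `cmLat g` (`Submodule.span_induction` twice).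
(4) discrete: let `v ∈ cmLat g`; the integers `E v (cmv l)` (`0 ≤ l < 2 m`) are bounded by `C ‖v‖`, so they vanish if `‖v‖` is small; the `cmv l` span `ℂ^g` over `ℝ` (see (5)),
so then `E v w = 0` for all `w`, so `v = 0`.  So `0` is isolated.
(5) span: the real span of the vectors `cmv k` contains `∑_k cos(π k j / m) cmv k` and `∑_k sin(π k j / m) cmv k` (sums over `0 ≤ k < 2 m`), for `1 ≤ j ≤ g`; by orthogonality of the
characters of `ℤ / 2 m` these are `m • δ_j` and `m I • δ_j` (the characters `k ↦ ζ^(k i)`, `ζ^(-k i)`, `1 ≤ i ≤ g` are all different).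
-/

set_option autoImplicit false

namespace MP_c1bd5a_ag

open MvPolynomial

/-! ### real sums -/

private theorem cos_sum (x : ℝ) (m : ℕ) :
    2 * Real.sin (x / 2) * ∑ i ∈ Finset.range m, Real.cos (i * x) =
      Real.sin (m * x - x / 2) + Real.sin (x / 2) := by
  induction m with
  | zero => simp [Real.sin_neg]
  | succ m ih =>
    rw [Finset.sum_range_succ, mul_add, ih]
    have h1 : ((m + 1 : ℕ) : ℝ) * x - x / 2 = m * x + x / 2 := by push_cast; ring
    rw [h1, Real.sin_add, Real.sin_sub]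
    ring

private theorem cos_sum' {x : ℝ} {m : ℕ} (hx : Real.sin (x / 2) ≠ 0) (hm : Real.sin (m * x) = 0) :
    ∑ i ∈ Finset.range m, Real.cos (i * x) = (1 - Real.cos (m * x)) / 2 := by
  have h := cos_sum x m
  rw [Real.sin_sub, hm] at h
  have h2 : 2 * Real.sin (x / 2) * (∑ i ∈ Finset.range m, Real.cos (i * x)) =
      2 * Real.sin (x / 2) * ((1 - Real.cos (m * x)) / 2) := by
    rw [h]; ring
  exact mul_left_cancel₀ (mul_ne_zero two_ne_zero hx) h2

private theorem sin_int_mul {m : ℕ} (hm : 0 < m) (r : ℤ) :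
    Real.sin (m * (Real.pi * r / m)) = 0 := by
  have : (m : ℝ) * (Real.pi * r / m) = r * Real.pi := by
    have : (m : ℝ) ≠ 0 := by positivity
    field_simp
  rw [this]
  exact Real.sin_int_mul_pi r

private theorem half_ne {m : ℕ} (hm : 0 < m) {r : ℤ} (h0 : r ≠ 0) (h1 : -(2 * m : ℤ) < r)
    (h2 : r < 2 * m) : Real.sin (Real.pi * r / m / 2) ≠ 0 := by
  have hm' : (0 : ℝ) < m := by exact_mod_cast hm
  have hpi := Real.pi_pos
  have h1' : -(2 * m : ℝ) < r := by exact_mod_cast h1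
  have h2' : (r : ℝ) < 2 * m := by exact_mod_cast h2
  intro h
  have e : Real.pi * r / m / 2 = Real.pi * (r / (2 * m)) := by ring
  have h3 : -1 < (r : ℝ) / (2 * m) := by rw [lt_div_iff₀ (by positivity)]; linarith
  have h4 : (r : ℝ) / (2 * m) < 1 := by rw [div_lt_one (by positivity)]; linarith
  have h5 : Real.pi * r / m / 2 = 0 := by
    rw [← Real.sin_eq_zero_iff_of_lt_of_lt (x := Real.pi * r / m / 2)]
    · exact h
    · rw [e]; nlinarith
    · rw [e]; nlinarith
  rw [e] at h5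
  have h6 : (r : ℝ) / (2 * m) = 0 := by
    rcases mul_eq_zero.1 h5 with h7 | h7
    · exact absurd h7 hpi.ne'
    · exact h7
  rw [div_eq_zero_iff] at h6
  rcases h6 with h7 | h7
  · exact h0 (by exact_mod_cast h7)
  · have : (0 : ℝ) < 2 * m := by positivity
    linarith

/-- orthogonality of the sine transform -/
private theorem orth {g : ℕ} {p q : ℕ} (hp : p ∈ Finset.Icc 1 g) (hq : q ∈ Finset.Icc 1 g) :
    ∑ i : Fin g, Real.sin (Real.pi * ((i : ℕ) + 1 : ℕ) * p / (g + 1 : ℕ)) *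
      Real.sin (Real.pi * ((i : ℕ) + 1 : ℕ) * q / (g + 1 : ℕ)) =
      if p = q then ((g + 1 : ℕ) : ℝ) / 2 else 0 := by
  rw [Finset.mem_Icc] at hp hq
  have hm : 0 < g + 1 := Nat.succ_pos g
  have h1 : ∑ i : Fin g, Real.sin (Real.pi * ((i : ℕ) + 1 : ℕ) * p / (g + 1 : ℕ)) *
      Real.sin (Real.pi * ((i : ℕ) + 1 : ℕ) * q / (g + 1 : ℕ)) =
      ∑ i ∈ Finset.range (g + 1), Real.sin (Real.pi * i * p / (g + 1 : ℕ)) *
        Real.sin (Real.pi * i * q / (g + 1 : ℕ)) := by
    rw [Finset.sum_range_succ', ← Fin.sum_univ_eq_sum_range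
      (fun i => Real.sin (Real.pi * (i + 1 : ℕ) * p / (g + 1 : ℕ)) *
        Real.sin (Real.pi * (i + 1 : ℕ) * q / (g + 1 : ℕ)))]
    simp
  have h2 : ∀ i : ℕ, Real.sin (Real.pi * i * p / (g + 1 : ℕ)) *
      Real.sin (Real.pi * i * q / (g + 1 : ℕ)) =
      (Real.cos (i * (Real.pi * ((p : ℤ) - q : ℤ) / (g + 1 : ℕ))) -
        Real.cos (i * (Real.pi * ((p : ℤ) + q : ℤ) / (g + 1 : ℕ)))) / 2 := by
    intro i
    have e1 : (i : ℝ) * (Real.pi * ((p : ℤ) - q : ℤ) / (g + 1 : ℕ)) =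
        Real.pi * i * p / (g + 1 : ℕ) - Real.pi * i * q / (g + 1 : ℕ) := by
      push_cast; ring
    have e2 : (i : ℝ) * (Real.pi * ((p : ℤ) + q : ℤ) / (g + 1 : ℕ)) =
        Real.pi * i * p / (g + 1 : ℕ) + Real.pi * i * q / (g + 1 : ℕ) := by
      push_cast; ring
    rw [e1, e2, Real.cos_sub, Real.cos_add]
    ring
  have hplus := cos_sum' (m := g + 1) (x := Real.pi * ((p : ℤ) + q : ℤ) / (g + 1 : ℕ))
    (half_ne hm (by omega) (by push_cast; omega) (by push_cast; omega)) (sin_int_mul hm _)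
  rw [h1, Finset.sum_congr rfl fun i _ => h2 i, ← Finset.sum_div, Finset.sum_sub_distrib, hplus]
  have hcos : ∀ r : ℤ, Real.cos (((g + 1 : ℕ) : ℝ) * (Real.pi * r / (g + 1 : ℕ))) =
      Real.cos (r * Real.pi) := by
    intro r
    congr 1
    have : ((g + 1 : ℕ) : ℝ) ≠ 0 := by positivity
    field_simp
  by_cases hpq : p = q
  · subst hpq
    rw [if_pos rfl, hcos]
    have e3 : Real.cos (((p : ℤ) + p : ℤ) * Real.pi) = 1 := by
      have : (((p : ℤ) + p : ℤ) : ℝ) * Real.pi = (p : ℤ) * (2 * Real.pi) := by push_cast; ring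
      rw [this]
      exact Real.cos_int_mul_two_pi p
    rw [e3]
    simp
  · rw [if_neg hpq]
    have hminus := cos_sum' (m := g + 1) (x := Real.pi * ((p : ℤ) - q : ℤ) / (g + 1 : ℕ))
      (half_ne hm (by omega) (by push_cast; omega) (by push_cast; omega)) (sin_int_mul hm _)
    rw [hminus, hcos, hcos]
    have e4 : Real.cos (((p : ℤ) + q : ℤ) * Real.pi) = Real.cos (((p : ℤ) - q : ℤ) * Real.pi) := by
      have : (((p : ℤ) + q : ℤ) : ℝ) * Real.pi =
          ((p : ℤ) - q : ℤ) * Real.pi + (q : ℤ) * (2 * Real.pi) := by push_cast; ring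
      rw [this, Real.cos_add_int_mul_two_pi]
    rw [e4]
    ring

/-! ### the weights -/

private noncomputable def sn (g : ℕ) (i : Fin g) (p : ℤ) : ℝ :=
  Real.sin (Real.pi * ((i : ℕ) + 1 : ℕ) * p / (g + 1 : ℕ))

private noncomputable def cc (g q : ℕ) : ℤ := round (∑ i : Fin g, sn g i q)

private noncomputable def wt (g : ℕ) (i : Fin g) : ℝ :=
  2 / (g + 1 : ℕ) * ∑ q ∈ Finset.Icc 1 g, cc g q * sn g i q

private theorem wt_pos {g : ℕ} (i : Fin g) : 0 < wt g i := by
  have hm : (0 : ℝ) < (g + 1 : ℕ) := by positivity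
  -- the value of the sum with the exact coefficients
  have h1 : ∑ q ∈ Finset.Icc 1 g, (∑ j : Fin g, sn g j q) * sn g i q = ((g + 1 : ℕ) : ℝ) / 2 := by
    have h2 : ∀ j : Fin g, ∑ q ∈ Finset.Icc 1 g, sn g j q * sn g i q =
        if j = i then ((g + 1 : ℕ) : ℝ) / 2 else 0 := by
      intro j
      have h3 := orth (g := g) (p := j + 1) (q := i + 1)
        (Finset.mem_Icc.2 ⟨by omega, by omega⟩) (Finset.mem_Icc.2 ⟨by omega, by omega⟩)
      have h4 : ∑ q ∈ Finset.Icc 1 g, sn g j q * sn g i q =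
          ∑ k : Fin g, Real.sin (Real.pi * ((k : ℕ) + 1 : ℕ) * ((j : ℕ) + 1 : ℕ) / (g + 1 : ℕ)) *
            Real.sin (Real.pi * ((k : ℕ) + 1 : ℕ) * ((i : ℕ) + 1 : ℕ) / (g + 1 : ℕ)) := by
        have h5 : Finset.Icc 1 g = (Finset.range g).image (fun k => k + 1) := by
          ext x
          simp only [Finset.mem_Icc, Finset.mem_image, Finset.mem_range]
          constructor
          · rintro ⟨a, b⟩
            exact ⟨x - 1, by omega, by omega⟩
          · rintro ⟨a, b, rfl⟩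
            omega
        rw [h5, Finset.sum_image (by intro a _ b _ hab; simpa using hab),
          ← Fin.sum_univ_eq_sum_range (fun k => sn g j ((k + 1 : ℕ) : ℤ) * sn g i ((k + 1 : ℕ) : ℤ))]
        refine Finset.sum_congr rfl fun k _ => ?_
        rw [sn, sn]
        have e1 : Real.pi * (((j : ℕ) + 1 : ℕ) : ℝ) * ((((k : ℕ) + 1 : ℕ) : ℤ) : ℝ) =
            Real.pi * (((k : ℕ) + 1 : ℕ) : ℝ) * (((j : ℕ) + 1 : ℕ) : ℝ) := by push_cast; ring
        have e2 : Real.pi * (((i : ℕ) + 1 : ℕ) : ℝ) * ((((k : ℕ) + 1 : ℕ) : ℤ) : ℝ) =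
            Real.pi * (((k : ℕ) + 1 : ℕ) : ℝ) * (((i : ℕ) + 1 : ℕ) : ℝ) := by push_cast; ring
        rw [e1, e2]
      rw [h4, h3]
      by_cases hij : j = i
      · rw [if_pos hij, if_pos (by rw [hij])]
      · rw [if_neg hij, if_neg (fun h => hij (Fin.ext (by omega)))]
    simp_rw [Finset.sum_mul]
    rw [Finset.sum_comm]
    simp_rw [h2]
    simp
  have h6 : |∑ q ∈ Finset.Icc 1 g, (cc g q - ∑ j : Fin g, sn g j q) * sn g i q| ≤ g / 2 := by
    refine (Finset.abs_sum_le_sum_abs _ _).trans ?_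
    have h7 : ∀ q ∈ Finset.Icc 1 g, |((cc g q : ℤ) - ∑ j : Fin g, sn g j q) * sn g i q| ≤ 1 / 2 := by
      intro q _
      rw [abs_mul]
      have h8 : |(cc g q : ℝ) - ∑ j : Fin g, sn g j q| ≤ 1 / 2 := by
        rw [abs_sub_comm]
        exact abs_sub_round _
      have h9 : |sn g i q| ≤ 1 := Real.abs_sin_le_one _
      calc |(cc g q : ℝ) - ∑ j : Fin g, sn g j q| * |sn g i q| ≤ 1 / 2 * 1 :=
            mul_le_mul h8 h9 (abs_nonneg _) (by norm_num)
        _ = 1 / 2 := by norm_num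
    refine (Finset.sum_le_sum h7).trans ?_
    rw [Finset.sum_const, Nat.card_Icc]
    simp
    ring_nf
    exact le_refl _
  have h10 : ∑ q ∈ Finset.Icc 1 g, cc g q * sn g i q =
      ((g + 1 : ℕ) : ℝ) / 2 + ∑ q ∈ Finset.Icc 1 g, (cc g q - ∑ j : Fin g, sn g j q) * sn g i q := by
    rw [← h1, ← Finset.sum_add_distrib]
    refine Finset.sum_congr rfl fun q _ => ?_
    ring
  have h11 : 0 < ∑ q ∈ Finset.Icc 1 g, cc g q * sn g i q := by
    rw [h10]
    have := (abs_le.1 h6).1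
    push_cast
    linarith
  rw [wt]
  positivity

private theorem wt_sum {g p : ℕ} (hp : p ∈ Finset.Icc 1 g) :
    ∑ i : Fin g, wt g i * sn g i p = cc g p := by
  have hm : (0 : ℝ) < (g + 1 : ℕ) := by positivity
  simp_rw [wt, mul_assoc, Finset.sum_mul]
  rw [← Finset.mul_sum, Finset.sum_comm]
  have h1 : ∀ q ∈ Finset.Icc 1 g, ∑ i : Fin g, (cc g q : ℝ) * sn g i q * sn g i p =
      if q = p then cc g q * (((g + 1 : ℕ) : ℝ) / 2) else 0 := by
    intro q hq
    simp_rw [mul_assoc]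
    rw [← Finset.mul_sum]
    have := orth hq hp
    simp only [sn, Int.cast_natCast]
    rw [this]
    by_cases h : q = p
    · simp [h]
    · simp [h]
  rw [Finset.sum_congr rfl h1, Finset.sum_ite_eq' (Finset.Icc 1 g) p, if_pos hp]
  field_simp

private theorem sn_neg {g : ℕ} (i : Fin g) (p : ℤ) : sn g i (-p) = -sn g i p := by
  rw [sn, sn, ← Real.sin_neg]
  congr 1
  push_cast; ring

private theorem sn_per {g : ℕ} (i : Fin g) (p a : ℤ) : sn g i (p + 2 * (g + 1) * a) = sn g i p := by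
  rw [sn, sn]
  have : Real.pi * (((i : ℕ) + 1 : ℕ) : ℝ) * ((p + 2 * (g + 1) * a : ℤ) : ℝ) / ((g + 1 : ℕ) : ℝ) =
      Real.pi * (((i : ℕ) + 1 : ℕ) : ℝ) * p / ((g + 1 : ℕ) : ℝ) +
        ((((i : ℕ) + 1 : ℕ) * a : ℤ) : ℝ) * (2 * Real.pi) := by
    have : ((g + 1 : ℕ) : ℝ) ≠ 0 := by positivity
    field_simp
    push_cast
    ring
  rw [this, Real.sin_add_int_mul_two_pi]

private theorem sn_mid {g : ℕ} (i : Fin g) : sn g i (g + 1) = 0 := by
  rw [sn]
  have : Real.pi * (((i : ℕ) + 1 : ℕ) : ℝ) * ((g + 1 : ℤ) : ℝ) / ((g + 1 : ℕ) : ℝ) =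
      (((i : ℕ) + 1 : ℕ) : ℤ) * Real.pi := by
    have : ((g + 1 : ℕ) : ℝ) ≠ 0 := by positivity
    field_simp
    push_cast
    ring
  rw [this, Real.sin_int_mul_pi]

private theorem sn_zero {g : ℕ} (i : Fin g) : sn g i 0 = 0 := by
  simp [sn]

private theorem wt_int (g : ℕ) (p : ℤ) : ∃ n : ℤ, ∑ i : Fin g, wt g i * sn g i p = n := by
  have hm : (0 : ℤ) < 2 * (g + 1) := by positivity
  obtain ⟨r, hr0, hr1, hr⟩ : ∃ r : ℤ, 0 ≤ r ∧ r < 2 * (g + 1) ∧
      ∀ i : Fin g, sn g i p = sn g i r := by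
    refine ⟨p % (2 * (g + 1)), Int.emod_nonneg _ hm.ne', Int.emod_lt_of_pos _ hm, fun i => ?_⟩
    rw [← sn_per i (p % (2 * (g + 1))) (p / (2 * (g + 1))), Int.emod_add_mul_ediv]
  simp_rw [hr]
  rcases lt_trichotomy r ((g : ℤ) + 1) with h | h | h
  · rcases eq_or_lt_of_le hr0 with h0 | h0
    · exact ⟨0, by rw [← h0]; simp [sn_zero]⟩
    · refine ⟨cc g r.toNat, ?_⟩
      have : ((r.toNat : ℕ) : ℤ) = r := Int.toNat_of_nonneg hr0
      rw [← wt_sum (p := r.toNat) (Finset.mem_Icc.2 ⟨by omega, by omega⟩), this]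
  · exact ⟨0, by rw [h]; simp [sn_mid]⟩
  · refine ⟨-cc g (2 * (g + 1) - r).toNat, ?_⟩
    have e : ((((2 * (g + 1) - r).toNat : ℕ)) : ℤ) = 2 * (g + 1) - r :=
      Int.toNat_of_nonneg (by omega)
    push_cast
    rw [← wt_sum (p := (2 * (g + 1) - r).toNat) (Finset.mem_Icc.2 ⟨by omega, by omega⟩), e,
      ← Finset.sum_neg_distrib]
    refine Finset.sum_congr rfl fun i _ => ?_
    have : sn g i r = -sn g i (2 * (g + 1) - r) := by
      rw [← sn_neg, ← sn_per i (-(2 * (g + 1) - r)) 1]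
      congr 1
      ring
    rw [this]
    ring

/-! ### the form -/

private noncomputable def ef (g : ℕ) : (Fin g → ℂ) →ₗ[ℝ] (Fin g → ℂ) →ₗ[ℝ] ℝ :=
  LinearMap.mk₂ ℝ (fun v w => ∑ i, wt g i * ((v i).im * (w i).re - (v i).re * (w i).im))
    (fun v v' w => by
      rw [← Finset.sum_add_distrib]
      refine Finset.sum_congr rfl fun i _ => ?_
      simp only [Pi.add_apply, Complex.add_im, Complex.add_re]
      ring)
    (fun r v w => by
      rw [smul_eq_mul, Finset.mul_sum]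
      refine Finset.sum_congr rfl fun i _ => ?_
      simp only [Pi.smul_apply, Complex.smul_im, Complex.smul_re, smul_eq_mul]
      ring)
    (fun v w w' => by
      rw [← Finset.sum_add_distrib]
      refine Finset.sum_congr rfl fun i _ => ?_
      simp only [Pi.add_apply, Complex.add_im, Complex.add_re]
      ring)
    (fun r v w => by
      rw [smul_eq_mul, Finset.mul_sum]
      refine Finset.sum_congr rfl fun i _ => ?_
      simp only [Pi.smul_apply, Complex.smul_im, Complex.smul_re, smul_eq_mul]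
      ring)

private theorem ef_apply (g : ℕ) (v w : Fin g → ℂ) :
    ef g v w = ∑ i, wt g i * ((v i).im * (w i).re - (v i).re * (w i).im) := rfl

private theorem cmv_eq (g : ℕ) (k : ℤ) (i : Fin g) :
    cmv g k i = Complex.exp ((Real.pi * ((i : ℕ) + 1 : ℕ) * k / (g + 1 : ℕ) : ℝ) * Complex.I) := by
  rw [cmv]
  congr 1
  have : ((g : ℂ) + 1) ≠ 0 := by
    have : ((g + 1 : ℕ) : ℂ) ≠ 0 := Nat.cast_ne_zero.2 (Nat.succ_ne_zero g)
    simpa using this
  push_cast
  field_simp

private theorem cmv_re (g : ℕ) (k : ℤ) (i : Fin g) :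
    (cmv g k i).re = Real.cos (Real.pi * ((i : ℕ) + 1 : ℕ) * k / (g + 1 : ℕ)) := by
  rw [cmv_eq, Complex.exp_ofReal_mul_I_re]

private theorem cmv_im (g : ℕ) (k : ℤ) (i : Fin g) :
    (cmv g k i).im = Real.sin (Real.pi * ((i : ℕ) + 1 : ℕ) * k / (g + 1 : ℕ)) := by
  rw [cmv_eq, Complex.exp_ofReal_mul_I_im]

private theorem ef_gen (g : ℕ) (k l : ℤ) : ∃ n : ℤ, ef g (cmv g k) (cmv g l) = n := by
  obtain ⟨n, hn⟩ := wt_int g (k - l)
  refine ⟨n, ?_⟩
  rw [← hn, ef_apply]
  refine Finset.sum_congr rfl fun i _ => ?_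
  rw [cmv_re, cmv_im, cmv_re, cmv_im, sn]
  have : Real.pi * (((i : ℕ) + 1 : ℕ) : ℝ) * ((k - l : ℤ) : ℝ) / ((g + 1 : ℕ) : ℝ) =
      Real.pi * (((i : ℕ) + 1 : ℕ) : ℝ) * k / ((g + 1 : ℕ) : ℝ) -
        Real.pi * (((i : ℕ) + 1 : ℕ) : ℝ) * l / ((g + 1 : ℕ) : ℝ) := by
    push_cast; ring
  rw [this, Real.sin_sub]

private theorem ef_int (g : ℕ) : ∀ v ∈ cmLat g, ∀ w ∈ cmLat g, ∃ n : ℤ, ef g v w = n := by
  intro v hv w hw
  induction hv using Submodule.span_induction with
  | mem x hx =>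
    obtain ⟨k, rfl⟩ := hx
    induction hw using Submodule.span_induction with
    | mem y hy =>
      obtain ⟨l, rfl⟩ := hy
      exact ef_gen g k l
    | zero => exact ⟨0, by simp⟩
    | add y z _ _ h1 h2 =>
      obtain ⟨n1, h1⟩ := h1
      obtain ⟨n2, h2⟩ := h2
      exact ⟨n1 + n2, by rw [map_add, h1, h2]; push_cast; ring⟩
    | smul a y _ h1 =>
      obtain ⟨n1, h1⟩ := h1
      exact ⟨a * n1, by rw [map_zsmul, h1, zsmul_eq_mul]; push_cast; ring⟩
  | zero => exact ⟨0, by simp⟩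
  | add y z _ _ h1 h2 =>
    obtain ⟨n1, h1⟩ := h1
    obtain ⟨n2, h2⟩ := h2
    exact ⟨n1 + n2, by rw [map_add, LinearMap.add_apply, h1, h2]; push_cast; ring⟩
  | smul a y _ h1 =>
    obtain ⟨n1, h1⟩ := h1
    exact ⟨a * n1, by rw [map_zsmul, LinearMap.smul_apply, h1, zsmul_eq_mul]; push_cast; ring⟩

/-! ### the span -/

private theorem root_sum {g : ℕ} {r : ℤ} (h0 : r ≠ 0) (h1 : -(2 * (g + 1) : ℤ) < r)
    (h2 : r < 2 * (g + 1)) : ∑ k ∈ Finset.range (2 * (g + 1)),
      Complex.exp (((Real.pi * r * k / (g + 1 : ℕ) : ℝ) : ℂ) * Complex.I) = 0 := by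
  have hm : 0 < g + 1 := Nat.succ_pos g
  set ω : ℂ := Complex.exp (((Real.pi * r / (g + 1 : ℕ) : ℝ) : ℂ) * Complex.I) with hω
  have hk : ∀ k : ℕ, Complex.exp (((Real.pi * r * k / (g + 1 : ℕ) : ℝ) : ℂ) * Complex.I) =
      ω ^ k := by
    intro k
    rw [hω, ← Complex.exp_nat_mul]
    congr 1
    push_cast; ring
  rw [Finset.sum_congr rfl fun k _ => hk k]
  have h1ω : ω ≠ 1 := by
    intro h
    rw [hω, Complex.exp_eq_one_iff] at h
    obtain ⟨n, hn⟩ := h
    have hn' := congrArg Complex.im hn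
    simp only [Complex.mul_im, Complex.I_re, Complex.I_im, Complex.ofReal_re, Complex.ofReal_im,
      mul_zero, mul_one, Complex.mul_re, Complex.intCast_re, Complex.intCast_im, zero_mul,
      sub_zero, add_zero, Complex.re_ofNat, Complex.im_ofNat] at hn'
    have hpi := Real.pi_pos
    have hm' : ((g + 1 : ℕ) : ℝ) ≠ 0 := by positivity
    have h3 : (r : ℝ) = n * (2 * (g + 1 : ℕ)) := by
      field_simp at hn'
      have := mul_left_cancel₀ hpi.ne' (show Real.pi * r = Real.pi * (n * (2 * (g + 1 : ℕ))) by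
        rw [hn']; ring)
      exact this
    have h4 : r = n * (2 * (g + 1)) := by
      have : (r : ℝ) = ((n * (2 * (g + 1)) : ℤ) : ℝ) := by rw [h3]; push_cast; ring
      exact_mod_cast this
    rcases lt_trichotomy n 0 with h | h | h
    · nlinarith
    · rw [h] at h4; simp at h4; exact h0 h4
    · nlinarith
  have h2ω : ω ^ (2 * (g + 1)) = 1 := by
    rw [hω, ← Complex.exp_nat_mul, Complex.exp_eq_one_iff]
    refine ⟨r, ?_⟩
    have : ((g : ℂ) + 1) ≠ 0 := by
      have : ((g + 1 : ℕ) : ℂ) ≠ 0 := Nat.cast_ne_zero.2 (Nat.succ_ne_zero g)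
      simpa using this
    push_cast
    field_simp
  have h3 := geom_sum_mul ω (2 * (g + 1))
  rw [h2ω, sub_self] at h3
  rcases mul_eq_zero.1 h3 with h | h
  · exact h
  · exact absurd (sub_eq_zero.1 h) h1ω

private theorem root_sum_zero (g : ℕ) : ∑ k ∈ Finset.range (2 * (g + 1)),
      Complex.exp (((Real.pi * (0 : ℤ) * k / (g + 1 : ℕ) : ℝ) : ℂ) * Complex.I) =
        2 * (g + 1) := by
  simp

private theorem span_aux1 (g : ℕ) (j : Fin g) :
    (((g + 1 : ℕ) : ℝ) • (Pi.single j (1 : ℂ) : Fin g → ℂ)) =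
      ∑ k ∈ Finset.range (2 * (g + 1)),
        Real.cos (Real.pi * ((j : ℕ) + 1 : ℕ) * k / (g + 1 : ℕ)) • cmv g k := by
  ext i
  rw [Finset.sum_apply]
  have h1 : ∀ k : ℕ, (Real.cos (Real.pi * ((j : ℕ) + 1 : ℕ) * k / (g + 1 : ℕ)) • cmv g k) i =
      (Complex.exp (((Real.pi * ((i : ℤ) + j + 2 : ℤ) * k / (g + 1 : ℕ) : ℝ) : ℂ) * Complex.I) +
        Complex.exp (((Real.pi * ((i : ℤ) - j : ℤ) * k / (g + 1 : ℕ) : ℝ) : ℂ) * Complex.I)) / 2 := by
    intro k
    rw [Pi.smul_apply, cmv_eq, Complex.real_smul, Complex.ofReal_cos, Complex.cos, div_mul_eq_mul_div,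
      add_mul, ← Complex.exp_add, ← Complex.exp_add]
    congr 3
    · push_cast; ring
    · push_cast; ring
  rw [Finset.sum_congr rfl fun k _ => h1 k, ← Finset.sum_div, Finset.sum_add_distrib,
    root_sum (by omega) (by omega) (by omega), zero_add]
  by_cases hij : i = j
  · subst hij
    rw [sub_self, root_sum_zero]
    simp
  · rw [root_sum (fun h => hij (Fin.ext (by omega))) (by omega) (by omega)]
    simp [Pi.single_eq_of_ne hij]

private theorem span_aux2 (g : ℕ) (j : Fin g) :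
    (((g + 1 : ℕ) : ℝ) • (Pi.single j Complex.I : Fin g → ℂ)) =
      ∑ k ∈ Finset.range (2 * (g + 1)),
        Real.sin (Real.pi * ((j : ℕ) + 1 : ℕ) * k / (g + 1 : ℕ)) • cmv g k := by
  ext i
  rw [Finset.sum_apply]
  have h1 : ∀ k : ℕ, (Real.sin (Real.pi * ((j : ℕ) + 1 : ℕ) * k / (g + 1 : ℕ)) • cmv g k) i =
      (Complex.exp (((Real.pi * ((i : ℤ) - j : ℤ) * k / (g + 1 : ℕ) : ℝ) : ℂ) * Complex.I) -
        Complex.exp (((Real.pi * ((i : ℤ) + j + 2 : ℤ) * k / (g + 1 : ℕ) : ℝ) : ℂ) * Complex.I)) *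
          (Complex.I / 2) := by
    intro k
    rw [Pi.smul_apply, cmv_eq, Complex.real_smul, Complex.ofReal_sin, Complex.sin]
    rw [show ∀ a b c : ℂ, (a - b) * Complex.I / 2 * c = (a * c - b * c) * (Complex.I / 2) by
      intro a b c; ring, ← Complex.exp_add, ← Complex.exp_add]
    congr 3
    · push_cast; ring
    · push_cast; ring
  rw [Finset.sum_congr rfl fun k _ => h1 k, ← Finset.sum_mul, Finset.sum_sub_distrib,
    root_sum (r := (i : ℤ) + j + 2) (by omega) (by omega) (by omega), sub_zero]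
  by_cases hij : i = j
  · subst hij
    rw [sub_self, root_sum_zero]
    simp
    ring
  · rw [root_sum (fun h => hij (Fin.ext (by omega))) (by omega) (by omega)]
    simp [Pi.single_eq_of_ne hij]

private theorem span_gen (g : ℕ) :
    Submodule.span ℝ (Set.range fun k : ℕ => cmv g k) = ⊤ := by
  rw [eq_top_iff]
  intro v _
  have hm : ((g + 1 : ℕ) : ℝ) ≠ 0 := by positivity
  have hk : ∀ k : ℕ, cmv g k ∈ Submodule.span ℝ (Set.range fun k : ℕ => cmv g k) := fun k =>
    Submodule.subset_span ⟨k, rfl⟩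
  have h1 : ∀ j : Fin g, (Pi.single j (1 : ℂ) : Fin g → ℂ) ∈
      Submodule.span ℝ (Set.range fun k : ℕ => cmv g k) := by
    intro j
    have := span_aux1 g j
    rw [← Submodule.smul_mem_iff _ hm, this]
    exact Submodule.sum_mem _ fun k _ => Submodule.smul_mem _ _ (hk k)
  have h2 : ∀ j : Fin g, (Pi.single j Complex.I : Fin g → ℂ) ∈
      Submodule.span ℝ (Set.range fun k : ℕ => cmv g k) := by
    intro j
    have := span_aux2 g j
    rw [← Submodule.smul_mem_iff _ hm, this]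
    exact Submodule.sum_mem _ fun k _ => Submodule.smul_mem _ _ (hk k)
  have h3 : v = ∑ j, ((v j).re • (Pi.single j (1 : ℂ) : Fin g → ℂ) +
      (v j).im • (Pi.single j Complex.I : Fin g → ℂ)) := by
    ext i
    rw [Finset.sum_apply, Finset.sum_eq_single i]
    · simp
    · intro j _ hj
      simp [Pi.single_eq_of_ne (Ne.symm hj)]
    · simp
  rw [h3]
  exact Submodule.sum_mem _ fun j _ => Submodule.add_mem _ (Submodule.smul_mem _ _ (h1 j))
    (Submodule.smul_mem _ _ (h2 j))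

private theorem ef_pos (g : ℕ) (v : Fin g → ℂ) (hv : v ≠ 0) : 0 < ef g (Complex.I • v) v := by
  rw [ef_apply]
  have h1 : ∀ i, wt g i * (((Complex.I • v) i).im * (v i).re - ((Complex.I • v) i).re * (v i).im) =
      wt g i * ((v i).re ^ 2 + (v i).im ^ 2) := by
    intro i
    simp only [Pi.smul_apply, smul_eq_mul, Complex.mul_im, Complex.mul_re, Complex.I_re,
      Complex.I_im]
    ring
  rw [Finset.sum_congr rfl fun i _ => h1 i]
  obtain ⟨i, hi⟩ := Function.ne_iff.1 hv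
  refine Finset.sum_pos' (fun j _ => mul_nonneg (wt_pos j).le (by positivity))
    ⟨i, Finset.mem_univ _, mul_pos (wt_pos i) ?_⟩
  by_contra hcon
  apply hi
  have h2 : (v i).re = 0 := by nlinarith [sq_nonneg (v i).re, sq_nonneg (v i).im]
  have h3 : (v i).im = 0 := by nlinarith [sq_nonneg (v i).re, sq_nonneg (v i).im]
  exact Complex.ext h2 h3

private theorem continuous_ef (g : ℕ) (w : Fin g → ℂ) : Continuous fun v => ef g v w := by
  simp only [ef_apply]
  refine continuous_finsetSum _ fun i _ => continuous_const.mul ?_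
  exact ((Complex.continuous_im.comp (continuous_apply i)).mul continuous_const).sub
    ((Complex.continuous_re.comp (continuous_apply i)).mul continuous_const)

private theorem discrete_cm (g : ℕ) : DiscreteTopology (cmLat g) := by
  have hgen : ∀ k : ℕ, cmv g k ∈ cmLat g := fun k => Submodule.subset_span ⟨k, rfl⟩
  let f : cmLat g → (Fin (2 * (g + 1)) → ℤ) := fun v l => ⌊ef g v.1 (cmv g (l : ℕ))⌋
  have hf : ∀ (v : cmLat g) (l : ℕ), ((⌊ef g v.1 (cmv g l)⌋ : ℤ) : ℝ) = ef g v.1 (cmv g l) := by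
    intro v l
    obtain ⟨n, hn⟩ := ef_int g v.1 v.2 _ (hgen l)
    rw [hn]
    simp
  have hcont : Continuous f := by
    refine continuous_pi fun l => ?_
    rw [Int.isClosedEmbedding_coe_real.isInducing.continuous_iff]
    have : (Int.cast ∘ fun v : cmLat g => ⌊ef g v.1 (cmv g (l : ℕ))⌋ : cmLat g → ℝ) =
        fun v => ef g v.1 (cmv g (l : ℕ)) := funext fun v => hf v l
    rw [this]
    exact (continuous_ef g _).comp continuous_subtype_val
  have hper : ∀ k : ℕ, ∃ l : Fin (2 * (g + 1)), cmv g k = cmv g (l : ℕ) := by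
    intro k
    obtain ⟨a, b, ha, hab⟩ : ∃ a b : ℕ, a < 2 * (g + 1) ∧ k = a + 2 * (g + 1) * b :=
      ⟨k % (2 * (g + 1)), k / (2 * (g + 1)), Nat.mod_lt _ (by positivity),
        (Nat.mod_add_div k _).symm⟩
    subst hab
    refine ⟨⟨a, ha⟩, ?_⟩
    ext i
    rw [cmv_eq, cmv_eq]
    have hm : ((g + 1 : ℕ) : ℝ) ≠ 0 := by positivity
    rw [Complex.exp_eq_exp_iff_exists_int]
    refine ⟨(((i : ℕ) + 1) * b : ℕ), ?_⟩
    have e2 : Real.pi * (((i : ℕ) + 1 : ℕ) : ℝ) * (((a + 2 * (g + 1) * b : ℕ) : ℤ) : ℝ) /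
        ((g + 1 : ℕ) : ℝ) =
        Real.pi * (((i : ℕ) + 1 : ℕ) : ℝ) * ((a : ℤ) : ℝ) / ((g + 1 : ℕ) : ℝ) +
          ((((i : ℕ) + 1) * b : ℕ) : ℝ) * (2 * Real.pi) := by
      field_simp
      push_cast
      ring
    rw [e2]
    push_cast
    ring
  have hinj : Function.Injective f := by
    intro v w hvw
    have h1 : ∀ k : ℕ, ef g v.1 (cmv g k) = ef g w.1 (cmv g k) := by
      intro k
      obtain ⟨l, hl⟩ := hper k
      rw [hl, ← hf v l, ← hf w l]
      exact congrArg _ (congrFun hvw l)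
    have h2 : ∀ x, ef g v.1 x = ef g w.1 x := by
      intro x
      have hx : x ∈ Submodule.span ℝ (Set.range fun k : ℕ => cmv g k) := by
        rw [span_gen]; trivial
      induction hx using Submodule.span_induction with
      | mem y hy => obtain ⟨k, rfl⟩ := hy; exact h1 k
      | zero => simp
      | add y z _ _ h3 h4 => rw [map_add, map_add, h3, h4]
      | smul a y _ h3 => rw [map_smul, map_smul, h3]
    apply Subtype.ext
    by_contra hne
    have hne' : v.1 - w.1 ≠ 0 := sub_ne_zero.2 hne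
    have h5 := ef_pos g (v.1 - w.1) hne'
    have h6 : ∀ x, ef g (v.1 - w.1) x = 0 := by
      intro x
      rw [map_sub, LinearMap.sub_apply, h2 x, sub_self]
    have h7 : ∀ x y, ef g x y = -ef g y x := by
      intro x y
      rw [ef_apply, ef_apply, ← Finset.sum_neg_distrib]
      refine Finset.sum_congr rfl fun i _ => ?_
      ring
    rw [h7, h6] at h5
    simp at h5
  exact DiscreteTopology.of_continuous_injective hcont hinj

theorem isAbelian_cmLat (g : ℕ) : IsAbelian (cmLat g) := by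
  refine ⟨discrete_cm g, ?_, ef g, ?_, ?_, ef_pos g, ef_int g⟩
  · rw [eq_top_iff, ← span_gen g]
    refine Submodule.span_mono ?_
    rintro _ ⟨k, rfl⟩
    exact Submodule.subset_span ⟨k, rfl⟩
  · intro v
    rw [ef_apply]
    refine Finset.sum_eq_zero fun i _ => ?_
    ring
  · intro v w
    rw [ef_apply, ef_apply]
    refine Finset.sum_congr rfl fun i _ => ?_
    simp only [Pi.smul_apply, smul_eq_mul, Complex.mul_im, Complex.mul_re, Complex.I_re,
      Complex.I_im]
    ring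

end MP_c1bd5a_ag
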