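import Pool.Agent.Work.MP_c1bd5a_ag.Defs

/-!
# CmD : definitions for the periods of the Fermat curve (FIXED)

`n = 2 g + 2` in the applications.  `sq n x` is the principal square root of `1 - x ^ n`, `Sl n` the domain where it is
holomorphic (the plane without the rays beyond the `n`-th roots of unity), `hh n i x` the integral of `t ^ i / sq n t` over the
segment from `0` to `x`, `II n i` the integral from `0` to `1`, `lam g` the lattice which contains the period vectors.
-/

set_option autoImplicit false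

namespace MP_c1bd5a_ag

open MvPolynomial

/-- the principal square root of `1 - x ^ n` -/
noncomputable def sq (n : ℕ) (x : ℂ) : ℂ := (1 - x ^ n) ^ (1 / 2 : ℂ)

/-- the plane without the rays beyond the `n`-th roots of unity -/
def Sl (n : ℕ) : Set ℂ := {x | 1 - x ^ n ∈ Complex.slitPlane}

/-- the integral of `t ^ i / sq n t` over the segment from `0` to `x` -/
noncomputable def hh (n i : ℕ) (x : ℂ) : ℂ :=
  x ^ (i + 1) * ∫ u in (0 : ℝ)..1, (u : ℂ) ^ i / sq n (u * x)

/-- the real integral from `0` to `1` -/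
noncomputable def II (n i : ℕ) : ℝ := ∫ t in (0 : ℝ)..1, t ^ i / √(1 - t ^ n)

/-- the multivalued primitive at the point `(x, w)`, `w ^ 2 = 1 - x ^ n` -/
noncomputable def ph (n i : ℕ) (x w : ℂ) : ℂ := w / sq n x * hh n i x

/-- the lattice of the period vectors -/
noncomputable def lam (g : ℕ) : AddSubgroup (Fin g → ℂ) where
  carrier := {v | ∃ l ∈ cmLat g, ∀ i : Fin g, v i = 2 * II (2 * g + 2) i * l i}
  add_mem' := by
    rintro v w ⟨l, hl, h⟩ ⟨l', hl', h'⟩
    exact ⟨l + l', add_mem hl hl', fun i => by rw [Pi.add_apply, Pi.add_apply, h, h']; ring⟩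
  zero_mem' := ⟨0, zero_mem _, fun i => by simp⟩
  neg_mem' := by
    rintro v ⟨l, hl, h⟩
    exact ⟨-l, neg_mem hl, fun i => by rw [Pi.neg_apply, Pi.neg_apply, h]; ring⟩

/-- near `x₀` there are a square root `σ` of `1 - x ^ n` and primitives `H i` of `x ^ i / σ` which agree with
`ph` modulo `lam g` -/
def LocPrim (g : ℕ) (x₀ : ℂ) : Prop :=
  ∃ ρ : ℝ, 0 < ρ ∧ ∃ (σ : ℂ → ℂ) (H : Fin g → ℂ → ℂ), ContinuousOn σ (Metric.ball x₀ ρ) ∧
    (∀ x ∈ Metric.ball x₀ ρ, σ x ^ 2 = 1 - x ^ (2 * g + 2) ∧ σ x ≠ 0) ∧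
    (∀ (i : Fin g), ∀ x ∈ Metric.ball x₀ ρ, HasDerivAt (H i) (x ^ (i : ℕ) / σ x) x) ∧
    ∀ x ∈ Metric.ball x₀ ρ, (fun i : Fin g => ph (2 * g + 2) i x (σ x) - H i x) ∈ lam g

end MP_c1bd5a_ag
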