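import Pool.Agent.Work.MP_c1bd5a_ag.CmD

/-!
# CmP1 (M) : the primitive on the slit plane; the real integrals

* `sq_sq`: `Complex.cpow_nat_inv_pow`-type (`(z ^ (1/2)) ^ 2 = z`).
* `isOpen_sl`: preimage of the open slit plane.  `sl_star`: if `x ∈ Sl n`, `0 ≤ u ≤ 1` then `u x ∈ Sl n`: `1 - u^n x^n` real and `≤ 0` would give `x^n` real,
  `x ^ n ≥ 1 / u ^ n ≥ 1` (`u ≠ 0`), so `1 - x ^ n ≤ 0`.
* `differentiableAt_sq`: composition of `1 - x ^ n` with the principal power on the slit plane (`DifferentiableAt.cpow`-type).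
* `hasDerivAt_hh`: `f t = t ^ i / sq n t` is holomorphic on the open star-shaped set `Sl n`, and `hh n i x = ∫_0^1 x f(u x) du`.  Differentiate under the integral sign
  (`hasDerivAt_integral_of_dominated_loc_of_deriv_le`, or the interval version; the set of the `u x`, `u ∈ [0, 1]`, `x` in a small closed ball in `Sl n`, is compact, so
  `f` and `deriv f` are bounded on it): the derivative of `x f(u x)` in `x` is `f(u x) + u x f'(u x)`, which is the derivative in `u` of `u f(u x)`; so the integral is `f x`.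
* `II_pos`: `0 ≤ t ^ i / √(1 - t ^ n) ≤ 1 / √(1 - t)` (`n ≥ 1`, `t ∈ (0, 1)`), integrable (`integrableOn` of `(1 - t) ^ (-1/2)`, `intervalIntegrable_rpow'`), and the integrand is positive.
-/

set_option autoImplicit false

namespace MP_c1bd5a_ag

open MvPolynomial

private theorem cm1_prim {S : Set ℂ} (hS : IsOpen S)
    (hstar : ∀ x ∈ S, ∀ u ∈ Set.Icc (0 : ℝ) 1, (u : ℂ) * x ∈ S) {f : ℂ → ℂ}
    (hf : DifferentiableOn ℂ f S) {x₀ : ℂ} (hx : x₀ ∈ S) :
    HasDerivAt (fun x : ℂ => ∫ u in (0 : ℝ)..1, x * f (u * x)) (f x₀) x₀ := by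
  have hfc : ContinuousOn f S := hf.continuousOn
  have hf' : ContinuousOn (deriv f) S := (hf.deriv hS).continuousOn
  have hder : ∀ y ∈ S, HasDerivAt f (deriv f y) y := fun y hy =>
    (hf.differentiableAt (hS.mem_nhds hy)).hasDerivAt
  obtain ⟨ρ, hρ, hb⟩ := Metric.isOpen_iff.1 hS x₀ hx
  have hcb : Metric.closedBall x₀ (ρ / 2) ⊆ S :=
    (Metric.closedBall_subset_ball (by linarith)).trans hb
  have hK : IsCompact (Set.Icc (0 : ℝ) 1 ×ˢ Metric.closedBall x₀ (ρ / 2)) :=
    isCompact_Icc.prod (isCompact_closedBall _ _)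
  have hmul : Continuous fun q : ℝ × ℂ => (q.1 : ℂ) * q.2 :=
    (Complex.continuous_ofReal.comp continuous_fst).mul continuous_snd
  have hmaps : Set.MapsTo (fun q : ℝ × ℂ => (q.1 : ℂ) * q.2)
      (Set.Icc (0 : ℝ) 1 ×ˢ Metric.closedBall x₀ (ρ / 2)) S := fun q hq =>
    hstar _ (hcb hq.2) _ hq.1
  have hF'c : ContinuousOn (fun q : ℝ × ℂ => f (q.1 * q.2) + q.2 * (deriv f (q.1 * q.2) * q.1))
      (Set.Icc (0 : ℝ) 1 ×ˢ Metric.closedBall x₀ (ρ / 2)) :=
    (hfc.comp hmul.continuousOn hmaps).add (continuous_snd.continuousOn.mul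
      ((hf'.comp hmul.continuousOn hmaps).mul
        (Complex.continuous_ofReal.comp continuous_fst).continuousOn))
  obtain ⟨C, hC⟩ := hK.exists_bound_of_continuousOn hF'c
  have hline : ∀ x ∈ Metric.closedBall x₀ (ρ / 2),
      ContinuousOn (fun u : ℝ => x * f (u * x)) (Set.uIcc (0 : ℝ) 1) := by
    intro x hxb
    rw [Set.uIcc_of_le zero_le_one]
    refine continuousOn_const.mul (hfc.comp (by fun_prop) fun u hu => hstar _ (hcb hxb) _ hu)
  have hx₀ : x₀ ∈ Metric.closedBall x₀ (ρ / 2) := Metric.mem_closedBall_self (by positivity)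
  have hF'₀ : ContinuousOn (fun u : ℝ => f (u * x₀) + x₀ * (deriv f (u * x₀) * u))
      (Set.uIcc (0 : ℝ) 1) := by
    rw [Set.uIcc_of_le zero_le_one]
    have h1 : ContinuousOn (fun u : ℝ => f (u * x₀)) (Set.Icc (0 : ℝ) 1) :=
      hfc.comp (by fun_prop) fun u hu => hstar _ hx _ hu
    have h2 : ContinuousOn (fun u : ℝ => deriv f (u * x₀)) (Set.Icc (0 : ℝ) 1) :=
      hf'.comp (by fun_prop) fun u hu => hstar _ hx _ hu
    exact h1.add (continuousOn_const.mul (h2.mul Complex.continuous_ofReal.continuousOn))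
  have hmain := intervalIntegral.hasDerivAt_integral_of_dominated_loc_of_deriv_le
    (μ := MeasureTheory.volume) (a := 0) (b := 1) (bound := fun _ => C) (x₀ := x₀)
    (F := fun (x : ℂ) (u : ℝ) => x * f (u * x))
    (F' := fun (x : ℂ) (u : ℝ) => f (u * x) + x * (deriv f (u * x) * u))
    (s := Metric.closedBall x₀ (ρ / 2)) (Metric.closedBall_mem_nhds _ (by positivity)) ?_ ?_ ?_ ?_
    intervalIntegrable_const ?_
  · have h1 : ∫ u in (0 : ℝ)..1, (f (u * x₀) + x₀ * (deriv f (u * x₀) * u)) = f x₀ := by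
      have h2 := intervalIntegral.integral_eq_sub_of_hasDerivAt
        (f := fun u : ℝ => (u : ℂ) * f (u * x₀))
        (f' := fun u : ℝ => f (u * x₀) + x₀ * (deriv f (u * x₀) * u)) (a := 0) (b := 1) ?_
        hF'₀.intervalIntegrable
      · rw [h2]
        simp
      · intro u hu
        rw [Set.uIcc_of_le zero_le_one] at hu
        have h3 : HasDerivAt (fun u : ℝ => (u : ℂ)) 1 u := Complex.ofRealCLM.hasDerivAt
        have h4 : HasDerivAt (fun u : ℝ => (u : ℂ) * x₀) x₀ u := by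
          simpa using h3.mul_const x₀
        have h5 := (hder _ (hstar _ hx _ hu)).scomp u h4
        have h6 := h3.mul h5
        have h7 : 1 * f (u * x₀) + (u : ℂ) * (x₀ • deriv f (u * x₀)) =
            f (u * x₀) + x₀ * (deriv f (u * x₀) * u) := by
          rw [smul_eq_mul]
          ring
        have h8 : HasDerivAt (fun u : ℝ => (u : ℂ) * f (u * x₀))
          (1 * f (u * x₀) + (u : ℂ) * (x₀ • deriv f (u * x₀))) u := h6
        rw [h7] at h8
        exact h8
    rw [← h1]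
    exact hmain.2
  · filter_upwards [Metric.closedBall_mem_nhds x₀ (half_pos hρ)] with x hxb
    exact ((hline x hxb).mono Set.uIoc_subset_uIcc).aestronglyMeasurable measurableSet_uIoc
  · exact (hline x₀ hx₀).intervalIntegrable
  · exact (hF'₀.mono Set.uIoc_subset_uIcc).aestronglyMeasurable measurableSet_uIoc
  · refine Filter.Eventually.of_forall fun u hu x hxb => ?_
    rw [Set.uIoc_of_le zero_le_one] at hu
    exact hC (u, x) ⟨⟨hu.1.le, hu.2⟩, hxb⟩
  · refine Filter.Eventually.of_forall fun u hu x hxb => ?_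
    rw [Set.uIoc_of_le zero_le_one] at hu
    have h4 : HasDerivAt (fun x : ℂ => (u : ℂ) * x) u x := by
      simpa using (hasDerivAt_id x).const_mul (u : ℂ)
    have h5 : HasDerivAt (fun x : ℂ => f (u * x)) (deriv f (u * x) * u) x :=
      (hder _ (hstar _ (hcb hxb) _ ⟨hu.1.le, hu.2⟩)).comp x h4
    have h6 := (hasDerivAt_id x).mul h5
    have h7 : HasDerivAt (fun x : ℂ => x * f (u * x))
      (1 * f (u * x) + x * (deriv f (u * x) * u)) x := h6
    rw [one_mul] at h7
    exact h7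

theorem sq_sq (n : ℕ) (x : ℂ) : sq n x ^ 2 = 1 - x ^ n := by
  unfold sq
  have h := Complex.cpow_nat_inv_pow (1 - x ^ n) (n := 2) two_ne_zero
  have e : (1 / 2 : ℂ) = ((2 : ℕ) : ℂ)⁻¹ := by norm_num
  rw [e]
  exact h

theorem isOpen_sl (n : ℕ) : IsOpen (Sl n) := by
  have h : Continuous fun x : ℂ => 1 - x ^ n := by fun_prop
  exact Complex.isOpen_slitPlane.preimage h

theorem sl_star {n : ℕ} {x : ℂ} (hx : x ∈ Sl n) {u : ℝ} (h0 : 0 ≤ u) (h1 : u ≤ 1) :
    (u : ℂ) * x ∈ Sl n := by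
  have h2 : 1 - ((u : ℂ) * x) ^ n ∈ Complex.slitPlane := by
    have h3 : 1 - x ^ n ∈ Complex.slitPlane := hx
    have h4 : (0 : ℝ) ≤ u ^ n := pow_nonneg h0 n
    have h5 : u ^ n ≤ 1 := pow_le_one₀ h0 h1
    have h6 := Complex.starConvex_one_slitPlane h3 (sub_nonneg.2 h5) h4 (by ring)
    have h7 : (1 - u ^ n : ℝ) • (1 : ℂ) + (u ^ n : ℝ) • (1 - x ^ n) = 1 - ((u : ℂ) * x) ^ n := by
      rw [Complex.real_smul, Complex.real_smul, mul_pow]
      push_cast
      ring
    rw [h7] at h6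
    exact h6
  exact h2

theorem differentiableAt_sq {n : ℕ} {x : ℂ} (hx : x ∈ Sl n) : DifferentiableAt ℂ (sq n) x := by
  have h1 : DifferentiableAt ℂ (fun x : ℂ => 1 - x ^ n) x := by fun_prop
  exact h1.cpow (differentiableAt_const _) hx

theorem hasDerivAt_hh {n : ℕ} (i : ℕ) {x : ℂ} (hx : x ∈ Sl n) :
    HasDerivAt (hh n i) (x ^ i / sq n x) x := by
  have hne : ∀ y ∈ Sl n, sq n y ≠ 0 := by
    intro y hy h0
    have h1 : (1 : ℂ) - y ^ n ≠ 0 := Complex.slitPlane_ne_zero hy
    rw [← sq_sq, h0] at h1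
    exact h1 (by norm_num)
  have hd : DifferentiableOn ℂ (fun t => t ^ i / sq n t) (Sl n) := fun y hy =>
    ((differentiableAt_pow i).div (differentiableAt_sq hy) (hne y hy)).differentiableWithinAt
  have h1 := cm1_prim (isOpen_sl n) (fun y hy u hu => sl_star hy hu.1 hu.2) hd hx
  have h2 : hh n i = fun x : ℂ => ∫ u in (0 : ℝ)..1, x * (((u : ℂ) * x) ^ i / sq n (u * x)) := by
    funext y
    unfold hh
    rw [← intervalIntegral.integral_const_mul]
    apply intervalIntegral.integral_congr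
    intro u _
    show y ^ (i + 1) * ((u : ℂ) ^ i / sq n (u * y)) = y * (((u : ℂ) * y) ^ i / sq n (u * y))
    rw [mul_pow, pow_succ]
    ring
  rw [h2]
  exact h1

theorem II_pos {n : ℕ} (hn : 1 ≤ n) (i : ℕ) : 0 < II n i := by
  have hint : IntervalIntegrable (fun t : ℝ => t ^ i / √(1 - t ^ n)) MeasureTheory.volume 0 1 := by
    have h1 : IntervalIntegrable (fun t : ℝ => (1 - t) ^ (-(1 / 2) : ℝ)) MeasureTheory.volume 0 1 := by
      have h := (intervalIntegral.intervalIntegrable_rpow' (r := -(1 / 2)) (by norm_num)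
        (a := 1) (b := 0)).comp_sub_left 1
      simpa using h
    apply h1.mono_fun'
    · have h2 : Measurable (fun t : ℝ => t ^ i / √(1 - t ^ n)) := by fun_prop
      exact h2.aestronglyMeasurable
    · rw [Set.uIoc_of_le zero_le_one]
      refine (MeasureTheory.ae_restrict_iff' measurableSet_Ioc).2 (Filter.Eventually.of_forall ?_)
      intro t ht
      show ‖t ^ i / √(1 - t ^ n)‖ ≤ (1 - t) ^ (-(1 / 2) : ℝ)
      rcases lt_or_eq_of_le ht.2 with h | h
      · have h3 : t ^ n ≤ t := pow_le_of_le_one ht.1.le ht.2 (by omega)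
        have h4 : t ^ i ≤ 1 := pow_le_one₀ ht.1.le ht.2
        have h5 : 0 ≤ t ^ i := pow_nonneg ht.1.le i
        rw [Real.rpow_neg (by linarith), ← Real.sqrt_eq_rpow, Real.norm_eq_abs,
          abs_of_nonneg (by positivity), ← one_div]
        exact div_le_div₀ zero_le_one h4 (Real.sqrt_pos.2 (by linarith))
          (Real.sqrt_le_sqrt (by linarith))
      · rw [h]
        simp
  unfold II
  apply intervalIntegral.intervalIntegral_pos_of_pos_on hint _ zero_lt_one
  intro t ht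
  have h3 : t ^ n < 1 := pow_lt_one₀ ht.1.le ht.2 (by omega)
  exact div_pos (pow_pos ht.1 i) (Real.sqrt_pos.2 (by linarith))

end MP_c1bd5a_ag
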