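import Pool.Agent.Work.MP_c1bd5a_ag.CmD

/-!
# CmP2 (M-L) : boundary values on the ray `r > 1`

`n ≥ 1`, `r > 1` real.
(1) `sq`: for `z` near `r` with `Im z ≤ 0` one has `Im (z ^ n) ≤ 0` (the argument of `z` is in `(-π/n, 0]`; or by the derivative: `z ^ n = r' ^ n (..)`), so `Im (1 - z ^ n) ≥ 0`, and the
principal square root is continuous on the closed upper half plane at negative real points (`Complex.continuousWithinAt_arg_of_re_neg_of_im_zero`); for `Im z > 0`, `Im (1 - z ^ n) < 0` and the limit is minus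
the value (`Complex.tendsto_arg_nhdsWithin_im_neg_of_re_neg_of_im_zero`).  `sq n r = I √(r ^ n - 1)`.
(2) `hh`: for `z = s ω`, `s = ‖z‖ > 0`, `‖ω‖ = 1`: substitution `t = s u` gives `hh n i z = ω ^ (i + 1) * ∫ t in 0..s, t ^ i / sq n (t ω)`.  Let `z → r`, `Im z ≤ 0`: `ω → 1` with `Im ω ≤ 0`, `s → r`.  For
`t ≠ 1` the integrand tends to `t ^ i / sq n t` (for `t < 1` by continuity of the principal square root near positive reals, for `t > 1` by (1)); it is bounded by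
`t ^ i / √|1 - t ^ n|`, since `|1 - t ^ n ω ^ n| ≥ |1 - t ^ n|` (`‖ω‖ = 1`), which is integrable on `[0, r + 1]` (`|1 - t ^ n| ≥ |1 - t|` for `t ≥ 0`, and `|1 - t| ^ (-1/2)` is
integrable: `intervalIntegral.intervalIntegrable_rpow'` on both sides of `1`).  Write the integral over `0..s` as an integral over `0..r + 1` with the indicator of `t ≤ s`.  Dominated convergence
(`MeasureTheory.tendsto_integral_filter_of_dominated_convergence`) gives `tendsto_hh_low`.
(3) From above (`Im z > 0`): for `t > 1` the limit of the integrand is `- t ^ i / sq n t`; so the limit is `∫ t in 0..1, t ^ i / sq n t - ∫ t in 1..r, t ^ i / sq n t = II - (hh n i r - II)`: on `(0, 1)` `sq n t = √(1 - t ^ n)`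
(`Complex.ofReal_cpow`, real), and `hh n i r = ∫ t in 0..r, t ^ i / sq n t` (case `ω = 1` of (2)).
-/

set_option autoImplicit false

namespace MP_c1bd5a_ag

open MvPolynomial Filter Topology

private theorem cm2_sq (n : ℕ) (x : ℂ) : sq n x ^ 2 = 1 - x ^ n := by
  unfold sq
  have h := Complex.cpow_nat_inv_pow (1 - x ^ n) (n := 2) two_ne_zero
  have e : (1 / 2 : ℂ) = ((2 : ℕ) : ℂ)⁻¹ := by norm_num
  rw [e]
  exact h

private theorem cm2_pow_ne {n : ℕ} (hn : 1 ≤ n) {t : ℝ} (h0 : 0 < t) (h1 : t ≠ 1) :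
    (1 : ℂ) - (t : ℂ) ^ n ≠ 0 := by
  intro h
  have h2 : ((1 - t ^ n : ℝ) : ℂ) = 0 := by
    push_cast
    exact h
  have h3 : 1 - t ^ n = 0 := by exact_mod_cast h2
  have h4 : t ^ n = 1 := by linarith
  exact h1 ((pow_eq_one_iff_of_nonneg h0.le (by omega)).1 h4)

private theorem cm2_sq_ne {n : ℕ} {x : ℂ} (h : 1 - x ^ n ≠ 0) : sq n x ≠ 0 := by
  intro h0
  apply h
  rw [← cm2_sq, h0]
  norm_num

private theorem cm2_norm (n : ℕ) (x : ℂ) : ‖sq n x‖ = √‖1 - x ^ n‖ := by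
  rw [← cm2_sq, norm_pow, Real.sqrt_sq (norm_nonneg _)]

/-- `Im (z ^ n) = Im z * q z` with `q > 0` near the positive reals -/
private theorem cm2_q (n : ℕ) : ∃ q : ℂ → ℝ, Continuous q ∧ (∀ z : ℂ, (z ^ n).im = z.im * q z) ∧
    ∀ r : ℝ, 0 < r → 0 ≤ q r ∧ (1 ≤ n → 0 < q r) := by
  induction n with
  | zero =>
    refine ⟨fun _ => 0, continuous_const, fun z => by simp, fun r _ => ⟨le_rfl, fun h => ?_⟩⟩
    omega
  | succ n ih =>
    obtain ⟨q, h1, h2, h3⟩ := ih
    refine ⟨fun z => (z ^ n).re + q z * z.re, by fun_prop, fun z => ?_, fun r hr => ?_⟩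
    · rw [pow_succ, Complex.mul_im, h2]
      ring
    · have h4 : (0 : ℝ) < (((r : ℂ) ^ n).re + q r * (r : ℂ).re) := by
        have e : (((r : ℂ) ^ n).re) = r ^ n := by
          rw [← Complex.ofReal_pow, Complex.ofReal_re]
        rw [e, Complex.ofReal_re]
        have h5 := (h3 r hr).1
        positivity
      exact ⟨h4.le, fun _ => h4⟩

private theorem cm2_exp {n : ℕ} {x : ℂ} (h : 1 - x ^ n ≠ 0) :
    sq n x = Complex.exp (Complex.log (1 - x ^ n) * (1 / 2)) := by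
  unfold sq
  rw [Complex.cpow_def_of_ne_zero h]

private theorem cm2_evne {n : ℕ} (hn : 1 ≤ n) {r : ℝ} (hr : 1 < r) :
    ∀ᶠ z in 𝓝 (r : ℂ), 1 - z ^ n ≠ 0 := by
  have hc : ContinuousAt (fun z : ℂ => 1 - z ^ n) (r : ℂ) := by fun_prop
  exact hc.eventually_ne (cm2_pow_ne hn (by linarith) (by linarith))

private theorem cm2_re {n : ℕ} (hn : 1 ≤ n) {r : ℝ} (hr : 1 < r) :
    (1 - (r : ℂ) ^ n).re < 0 ∧ (1 - (r : ℂ) ^ n).im = 0 := by
  have e : (1 : ℂ) - (r : ℂ) ^ n = ((1 - r ^ n : ℝ) : ℂ) := by push_cast; rfl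
  rw [e, Complex.ofReal_re, Complex.ofReal_im]
  have := one_lt_pow₀ hr (by omega : n ≠ 0)
  exact ⟨by linarith, rfl⟩

theorem sq_ray {n : ℕ} (hn : 1 ≤ n) {r : ℝ} (hr : 1 < r) : sq n (r : ℂ) = Complex.I * √(r ^ n - 1) := by
  have h1 := one_lt_pow₀ hr (by omega : n ≠ 0)
  have e : (1 : ℂ) - (r : ℂ) ^ n = ((1 - r ^ n : ℝ) : ℂ) := by push_cast; rfl
  unfold sq
  rw [e, Complex.ofReal_cpow_of_nonpos (by linarith)]
  have e2 : -((1 - r ^ n : ℝ) : ℂ) = ((r ^ n - 1 : ℝ) : ℂ) := by push_cast; ring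
  have e3 : (1 / 2 : ℂ) = ((1 / 2 : ℝ) : ℂ) := by push_cast; rfl
  have e4 : Complex.exp (Real.pi * Complex.I * (1 / 2)) = Complex.I := by
    have e5 : (Real.pi : ℂ) * Complex.I * (1 / 2) = (Real.pi : ℂ) / 2 * Complex.I := by ring
    rw [e5, Complex.exp_pi_div_two_mul_I]
  rw [e2, e4, e3, ← Complex.ofReal_cpow (by linarith), ← Real.sqrt_eq_rpow, mul_comm]

theorem tendsto_sq_low {n : ℕ} (hn : 1 ≤ n) {r : ℝ} (hr : 1 < r) :
    Tendsto (sq n) (𝓝[{z | z.im ≤ 0}] (r : ℂ)) (𝓝 (sq n r)) := by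
  obtain ⟨q, hqc, hq, hq0⟩ := cm2_q n
  obtain ⟨hre, him⟩ := cm2_re hn hr
  have hne := cm2_evne hn hr
  have hpos : ∀ᶠ z in 𝓝 (r : ℂ), 0 < q z :=
    hqc.continuousAt.eventually (lt_mem_nhds ((hq0 r (by linarith)).2 hn))
  have ht : Tendsto (fun z : ℂ => 1 - z ^ n) (𝓝[{z | z.im ≤ 0}] (r : ℂ))
      (𝓝[{w | 0 ≤ w.im}] (1 - (r : ℂ) ^ n)) := by
    rw [tendsto_nhdsWithin_iff]
    constructor
    · have hc : Continuous (fun z : ℂ => 1 - z ^ n) := by fun_prop
      exact (hc.tendsto _).mono_left nhdsWithin_le_nhds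
    · filter_upwards [self_mem_nhdsWithin, nhdsWithin_le_nhds hpos] with z hz hz2
      show 0 ≤ (1 - z ^ n).im
      rw [Complex.sub_im, Complex.one_im, hq]
      have h3 : z.im * q z ≤ 0 := mul_nonpos_of_nonpos_of_nonneg hz hz2.le
      linarith
  have h1 : Tendsto Complex.log (𝓝[{w | 0 ≤ w.im}] (1 - (r : ℂ) ^ n))
      (𝓝 (Complex.log (1 - (r : ℂ) ^ n))) :=
    Complex.continuousWithinAt_log_of_re_neg_of_im_zero hre him
  have h2 : Tendsto (fun z : ℂ => Complex.exp (Complex.log (1 - z ^ n) * (1 / 2)))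
      (𝓝[{z | z.im ≤ 0}] (r : ℂ)) (𝓝 (Complex.exp (Complex.log (1 - (r : ℂ) ^ n) * (1 / 2)))) :=
    (Complex.continuous_exp.tendsto _).comp ((h1.comp ht).mul_const _)
  rw [cm2_exp (cm2_pow_ne hn (by linarith) (by linarith) : (1 : ℂ) - (r : ℂ) ^ n ≠ 0)]
  refine h2.congr' ?_
  filter_upwards [nhdsWithin_le_nhds hne] with z hz
  rw [cm2_exp hz]

theorem tendsto_sq_up {n : ℕ} (hn : 1 ≤ n) {r : ℝ} (hr : 1 < r) :
    Tendsto (sq n) (𝓝[{z | 0 < z.im}] (r : ℂ)) (𝓝 (- sq n r)) := by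
  obtain ⟨q, hqc, hq, hq0⟩ := cm2_q n
  obtain ⟨hre, him⟩ := cm2_re hn hr
  have hne := cm2_evne hn hr
  have hpos : ∀ᶠ z in 𝓝 (r : ℂ), 0 < q z :=
    hqc.continuousAt.eventually (lt_mem_nhds ((hq0 r (by linarith)).2 hn))
  have ht : Tendsto (fun z : ℂ => 1 - z ^ n) (𝓝[{z | 0 < z.im}] (r : ℂ))
      (𝓝[{w | w.im < 0}] (1 - (r : ℂ) ^ n)) := by
    rw [tendsto_nhdsWithin_iff]
    constructor
    · have hc : Continuous (fun z : ℂ => 1 - z ^ n) := by fun_prop
      exact (hc.tendsto _).mono_left nhdsWithin_le_nhds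
    · filter_upwards [self_mem_nhdsWithin, nhdsWithin_le_nhds hpos] with z hz hz2
      show (1 - z ^ n).im < 0
      rw [Complex.sub_im, Complex.one_im, hq]
      have h3 : 0 < z.im * q z := mul_pos hz hz2
      linarith
  have h1 := Complex.tendsto_log_nhdsWithin_im_neg_of_re_neg_of_im_zero hre him
  have h2 : Tendsto (fun z : ℂ => Complex.exp (Complex.log (1 - z ^ n) * (1 / 2)))
      (𝓝[{z | 0 < z.im}] (r : ℂ))
      (𝓝 (Complex.exp ((Real.log ‖1 - (r : ℂ) ^ n‖ - Real.pi * Complex.I) * (1 / 2)))) :=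
    (Complex.continuous_exp.tendsto _).comp ((h1.comp ht).mul_const _)
  have harg : Complex.arg (1 - (r : ℂ) ^ n) = Real.pi := Complex.arg_eq_pi_iff.2 ⟨hre, him⟩
  have h3 : Complex.exp ((Real.log ‖1 - (r : ℂ) ^ n‖ - Real.pi * Complex.I) * (1 / 2)) =
      -sq n (r : ℂ) := by
    rw [cm2_exp (cm2_pow_ne hn (by linarith) (by linarith) : (1 : ℂ) - (r : ℂ) ^ n ≠ 0)]
    unfold Complex.log
    rw [harg]
    have e : ((Real.log ‖1 - (r : ℂ) ^ n‖ : ℂ) - Real.pi * Complex.I) * (1 / 2) =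
        ((Real.log ‖1 - (r : ℂ) ^ n‖ : ℂ) + Real.pi * Complex.I) * (1 / 2) -
          Real.pi * Complex.I := by ring
    rw [e, Complex.exp_sub_pi_mul_I]
  rw [h3] at h2
  refine h2.congr' ?_
  filter_upwards [nhdsWithin_le_nhds hne] with z hz
  rw [cm2_exp hz]

private theorem cm2_hh (n i : ℕ) (s : ℝ) (ω : ℂ) :
    hh n i (s * ω) = ω ^ (i + 1) * ∫ t in (0 : ℝ)..s, (t : ℂ) ^ i / sq n (t * ω) := by
  have h1 := intervalIntegral.smul_integral_comp_mul_left (a := 0) (b := 1)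
    (f := fun t : ℝ => (t : ℂ) ^ i / sq n (t * ω)) s
  rw [mul_zero, mul_one] at h1
  unfold hh
  rw [← h1]
  have h2 : ∀ u : ℝ, ((s * u : ℝ) : ℂ) ^ i / sq n (((s * u : ℝ) : ℂ) * ω) =
      (s : ℂ) ^ i * ((u : ℂ) ^ i / sq n (u * (s * ω))) := by
    intro u
    have e : (s : ℂ) * u * ω = u * (s * ω) := by ring
    push_cast
    rw [mul_pow, e]
    ring
  simp only [h2]
  rw [intervalIntegral.integral_const_mul, Complex.real_smul, mul_pow]
  ring

private theorem cm2_neg {x : ℝ} (hx : x < 0) : x ^ (-(1 / 2) : ℝ) = 0 := by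
  have e : (-(1 / 2) : ℝ) * Real.pi = -(Real.pi / 2) := by ring
  rw [Real.rpow_def_of_neg hx, e, Real.cos_neg, Real.cos_pi_div_two, mul_zero]

private theorem cm2_posp {x : ℝ} (hx : 0 < x) : x ^ (-(1 / 2) : ℝ) = 1 / √x := by
  rw [Real.rpow_neg hx.le, ← Real.sqrt_eq_rpow, one_div]

private theorem cm2_bint (c R : ℝ) : IntervalIntegrable
    (fun t : ℝ => c * ((1 - t) ^ (-(1 / 2) : ℝ) + (t - 1) ^ (-(1 / 2) : ℝ)))
    MeasureTheory.volume 0 R := by
  apply IntervalIntegrable.const_mul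
  apply IntervalIntegrable.add
  · have h := (intervalIntegral.intervalIntegrable_rpow' (r := -(1 / 2)) (by norm_num)
      (a := 1) (b := 1 - R)).comp_sub_left 1
    simpa using h
  · have h := (intervalIntegral.intervalIntegrable_rpow' (r := -(1 / 2)) (by norm_num)
      (a := -1) (b := R - 1)).comp_sub_right 1
    simpa using h

private theorem cm2_bound {n : ℕ} (hn : 1 ≤ n) (i : ℕ) {R t : ℝ} (h0 : 0 < t) (hR : t ≤ R)
    (h1 : t ≠ 1) {ω : ℂ} (hω : ‖ω‖ = 1) : ‖(t : ℂ) ^ i / sq n (t * ω)‖ ≤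
      R ^ i * ((1 - t) ^ (-(1 / 2) : ℝ) + (t - 1) ^ (-(1 / 2) : ℝ)) := by
  have hb : 1 / √|1 - t| = (1 - t) ^ (-(1 / 2) : ℝ) + (t - 1) ^ (-(1 / 2) : ℝ) := by
    rcases lt_or_gt_of_ne h1 with h | h
    · rw [cm2_neg (by linarith : t - 1 < 0), cm2_posp (by linarith : 0 < 1 - t), add_zero,
        abs_of_pos (by linarith)]
    · rw [cm2_neg (by linarith : 1 - t < 0), cm2_posp (by linarith : 0 < t - 1), zero_add,
        abs_of_neg (by linarith), neg_sub]
  have h2 : |1 - t| ≤ ‖1 - ((t : ℂ) * ω) ^ n‖ := by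
    have h3 := abs_norm_sub_norm_le (1 : ℂ) (((t : ℂ) * ω) ^ n)
    rw [norm_one, norm_pow, norm_mul, hω, mul_one, Complex.norm_real, Real.norm_eq_abs,
      abs_of_pos h0] at h3
    refine le_trans ?_ h3
    rcases lt_or_gt_of_ne h1 with h | h
    · have h4 : t ^ n ≤ t := pow_le_of_le_one h0.le h.le (by omega)
      rw [abs_of_pos (by linarith), abs_of_nonneg (by linarith)]
      linarith
    · have h4 : t ≤ t ^ n := le_self_pow₀ h.le (by omega)
      rw [abs_of_neg (by linarith), abs_of_nonpos (by linarith)]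
      linarith
  have h3 : 0 < |1 - t| := abs_pos.2 (sub_ne_zero.2 fun h => h1 h.symm)
  rw [norm_div, cm2_norm, norm_pow, Complex.norm_real, Real.norm_eq_abs, abs_of_pos h0, ← hb,
    div_eq_mul_one_div]
  exact mul_le_mul (pow_le_pow_left₀ h0.le hR i)
    (one_div_le_one_div_of_le (Real.sqrt_pos.2 h3) (Real.sqrt_le_sqrt h2)) (by positivity)
    (by have := h0.le.trans hR; positivity)

private theorem cm2_meas (n i : ℕ) (ω : ℂ) :
    Measurable (fun t : ℝ => (t : ℂ) ^ i / sq n (t * ω)) := by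
  unfold sq
  fun_prop

private theorem cm2_main {n : ℕ} (hn : 1 ≤ n) (i : ℕ) {r : ℝ} (hr : 1 < r) (A : Set ℂ)
    (hA : ∀ z ∈ A, ∀ c : ℝ, 0 < c → (c : ℂ) * z ∈ A) (ε : ℂ) (hε : ε ≠ 0)
    (hs : ∀ t : ℝ, 1 < t → Tendsto (sq n) (𝓝[A] (t : ℂ)) (𝓝 (ε * sq n t))) :
    Tendsto (hh n i) (𝓝[A] (r : ℂ))
      (𝓝 (∫ t in (0 : ℝ)..r, (t : ℂ) ^ i / ((if t < 1 then 1 else ε) * sq n t))) := by
  have hr0 : (r : ℂ) ≠ 0 := by
    rw [Complex.ofReal_ne_zero]
    linarith
  have hnr : ‖(r : ℂ)‖ = r := by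
    rw [Complex.norm_real, Real.norm_eq_abs, abs_of_pos (by linarith)]
  have hnrm : Tendsto (fun z : ℂ => ‖z‖) (𝓝[A] (r : ℂ)) (𝓝 r) := by
    have h1 : Tendsto (fun z : ℂ => ‖z‖) (𝓝 (r : ℂ)) (𝓝 ‖(r : ℂ)‖) :=
      continuous_norm.tendsto _
    rw [hnr] at h1
    exact h1.mono_left nhdsWithin_le_nhds
  have hdir : Tendsto (fun z : ℂ => z / ‖z‖) (𝓝[A] (r : ℂ)) (𝓝 1) := by
    have h1 : ContinuousAt (fun z : ℂ => z / (‖z‖ : ℂ)) (r : ℂ) := by
      apply ContinuousAt.div continuousAt_id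
      · exact (Complex.continuous_ofReal.comp continuous_norm).continuousAt
      · rw [hnr]
        exact hr0
    have h2 : (r : ℂ) / (‖(r : ℂ)‖ : ℂ) = 1 := by
      rw [hnr, div_self hr0]
    have h3 : Tendsto (fun z : ℂ => z / (‖z‖ : ℂ)) (𝓝 (r : ℂ)) (𝓝 ((r : ℂ) / (‖(r : ℂ)‖ : ℂ))) := h1
    rw [h2] at h3
    exact h3.mono_left nhdsWithin_le_nhds
  have hev : ∀ᶠ z in 𝓝[A] (r : ℂ), 0 < ‖z‖ ∧ ‖z‖ < r + 1 :=
    (hnrm.eventually (lt_mem_nhds (by linarith : (0 : ℝ) < r))).and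
      (hnrm.eventually (gt_mem_nhds (by linarith : r < r + 1)))
  have hid : ∀ z : ℂ, 0 < ‖z‖ → ‖z‖ < r + 1 → hh n i z = (z / ‖z‖) ^ (i + 1) *
      ∫ t in Set.Ioc 0 (r + 1), (Set.Iic ‖z‖).indicator
        (fun t : ℝ => (t : ℂ) ^ i / sq n (t * (z / ‖z‖))) t := by
    intro z hz hzr
    have hset : Set.Ioc 0 (r + 1) ∩ Set.Iic ‖z‖ = Set.Ioc 0 ‖z‖ := by
      rw [Set.Ioc_inter_Iic, min_eq_right hzr.le]
    have hz' : ((‖z‖ : ℝ) : ℂ) ≠ 0 := Complex.ofReal_ne_zero.2 hz.ne'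
    rw [MeasureTheory.setIntegral_indicator measurableSet_Iic, hset,
      ← intervalIntegral.integral_of_le hz.le, ← cm2_hh, mul_div_cancel₀ _ hz']
  have hset : Set.Ioc 0 (r + 1) ∩ Set.Iic r = Set.Ioc 0 r := by
    rw [Set.Ioc_inter_Iic, min_eq_right (by linarith)]
  have hlim : Tendsto (fun z : ℂ => ∫ t in Set.Ioc 0 (r + 1), (Set.Iic ‖z‖).indicator
        (fun t : ℝ => (t : ℂ) ^ i / sq n (t * (z / ‖z‖))) t) (𝓝[A] (r : ℂ))
      (𝓝 (∫ t in Set.Ioc 0 (r + 1), (Set.Iic r).indicator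
        (fun t : ℝ => (t : ℂ) ^ i / ((if t < 1 then 1 else ε) * sq n t)) t)) := by
    apply MeasureTheory.tendsto_integral_filter_of_dominated_convergence
      (fun t : ℝ => (r + 1) ^ i * ((1 - t) ^ (-(1 / 2) : ℝ) + (t - 1) ^ (-(1 / 2) : ℝ)))
    · refine Eventually.of_forall fun z => ?_
      exact ((cm2_meas n i _).indicator measurableSet_Iic).aestronglyMeasurable
    · filter_upwards [hev] with z hz
      rw [MeasureTheory.ae_restrict_iff' measurableSet_Ioc]
      have h1 : ∀ᵐ t : ℝ, t ≠ 1 := by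
        rw [MeasureTheory.ae_iff]
        simp
      filter_upwards [h1] with t ht1 ht
      refine le_trans (norm_indicator_le_norm_self _ _) ?_
      apply cm2_bound hn i ht.1 ht.2 ht1
      rw [norm_div, Complex.norm_real, norm_norm, div_self hz.1.ne']
    · exact (intervalIntegrable_iff_integrableOn_Ioc_of_le (by linarith)).1 (cm2_bint _ _)
    · rw [MeasureTheory.ae_restrict_iff' measurableSet_Ioc]
      have h1 : ∀ᵐ t : ℝ, t ≠ 1 := by
        rw [MeasureTheory.ae_iff]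
        simp
      have h2 : ∀ᵐ t : ℝ, t ≠ r := by
        rw [MeasureTheory.ae_iff]
        simp
      filter_upwards [h1, h2] with t ht1 htr ht
      rcases lt_or_gt_of_ne htr with h | h
      · -- below `r`
        have hsq : Tendsto (sq n) (𝓝[A] (t : ℂ)) (𝓝 ((if t < 1 then 1 else ε) * sq n t)) := by
          by_cases h3 : t < 1
          · rw [if_pos h3, one_mul]
            have h4 : ContinuousAt (sq n) (t : ℂ) := by
              have h5 : 1 - (t : ℂ) ^ n ∈ Complex.slitPlane := by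
                have e : (1 : ℂ) - (t : ℂ) ^ n = ((1 - t ^ n : ℝ) : ℂ) := by push_cast; rfl
                rw [e, Complex.ofReal_mem_slitPlane]
                have := pow_lt_one₀ ht.1.le h3 (by omega : n ≠ 0)
                linarith
              have h6 : ContinuousAt (fun z : ℂ => 1 - z ^ n) (t : ℂ) := by fun_prop
              exact ContinuousAt.comp (g := fun w : ℂ => w ^ (1 / 2 : ℂ))
                (f := fun z : ℂ => 1 - z ^ n) (continuousAt_cpow_const h5) h6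
            exact h4.tendsto.mono_left nhdsWithin_le_nhds
          · rw [if_neg h3]
            exact hs t (lt_of_le_of_ne (not_lt.1 h3) (Ne.symm ht1))
        have hmap : Tendsto (fun z : ℂ => (t : ℂ) * (z / ‖z‖)) (𝓝[A] (r : ℂ))
            (𝓝[A] (t : ℂ)) := by
          rw [tendsto_nhdsWithin_iff]
          constructor
          · have h5 := hdir.const_mul (t : ℂ)
            rw [mul_one] at h5
            exact h5
          · filter_upwards [hev, self_mem_nhdsWithin] with z hz hzA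
            have h5 := hA z hzA (t / ‖z‖) (div_pos ht.1 hz.1)
            have e : ((t / ‖z‖ : ℝ) : ℂ) * z = (t : ℂ) * (z / ‖z‖) := by
              push_cast
              ring
            rw [e] at h5
            exact h5
        have hne : (if t < 1 then (1 : ℂ) else ε) * sq n t ≠ 0 := by
          apply mul_ne_zero
          · split_ifs
            · exact one_ne_zero
            · exact hε
          · exact cm2_sq_ne (cm2_pow_ne hn ht.1 ht1)
        have hl := (tendsto_const_nhds (x := (t : ℂ) ^ i) (f := 𝓝[A] (r : ℂ))).div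
          (hsq.comp hmap) hne
        rw [Set.indicator_of_mem (show t ∈ Set.Iic r from h.le)]
        refine hl.congr' ?_
        filter_upwards [hnrm.eventually (lt_mem_nhds h)] with z hz
        rw [Set.indicator_of_mem (show t ∈ Set.Iic ‖z‖ from hz.le)]
        rfl
      · rw [Set.indicator_of_notMem (show t ∉ Set.Iic r from not_le.2 h)]
        refine tendsto_const_nhds.congr' ?_
        filter_upwards [hnrm.eventually (gt_mem_nhds h)] with z hz
        rw [Set.indicator_of_notMem (show t ∉ Set.Iic ‖z‖ from not_le.2 hz)]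
  rw [MeasureTheory.setIntegral_indicator measurableSet_Iic, hset,
    ← intervalIntegral.integral_of_le (by linarith)] at hlim
  have h2 := (hdir.pow (i + 1)).mul hlim
  rw [one_pow, one_mul] at h2
  refine h2.congr' ?_
  filter_upwards [hev] with z hz
  exact (hid z hz.1 hz.2).symm

private theorem cm2_hr (n i : ℕ) (r : ℝ) :
    hh n i (r : ℂ) = ∫ t in (0 : ℝ)..r, (t : ℂ) ^ i / sq n t := by
  have h := cm2_hh n i r 1
  simpa using h

private theorem cm2_int {n : ℕ} (hn : 1 ≤ n) (i : ℕ) {R : ℝ} (hR : 0 ≤ R) :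
    IntervalIntegrable (fun t : ℝ => (t : ℂ) ^ i / sq n t) MeasureTheory.volume 0 R := by
  apply (cm2_bint (R ^ i) R).mono_fun'
  · have h := cm2_meas n i 1
    simp only [mul_one] at h
    exact h.aestronglyMeasurable
  · have h1 : ∀ᵐ t : ℝ, t ≠ 1 := by
      rw [MeasureTheory.ae_iff]
      simp
    rw [Set.uIoc_of_le hR]
    refine (MeasureTheory.ae_restrict_iff' measurableSet_Ioc).2 ?_
    filter_upwards [h1] with t ht1 ht
    have h2 := cm2_bound hn i ht.1 ht.2 ht1 (ω := 1) norm_one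
    rw [mul_one] at h2
    exact h2

private theorem cm2_II (n i : ℕ) (hn : 1 ≤ n) :
    ∫ t in (0 : ℝ)..1, (t : ℂ) ^ i / sq n t = (II n i : ℂ) := by
  unfold II
  rw [← intervalIntegral.integral_ofReal]
  apply intervalIntegral.integral_congr
  intro t ht
  rw [Set.uIcc_of_le zero_le_one] at ht
  have h1 : t ^ n ≤ 1 := pow_le_one₀ ht.1 ht.2
  have e : (1 : ℂ) - (t : ℂ) ^ n = ((1 - t ^ n : ℝ) : ℂ) := by push_cast; rfl
  have e3 : (1 / 2 : ℂ) = ((1 / 2 : ℝ) : ℂ) := by push_cast; rfl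
  have _ := hn
  unfold sq
  beta_reduce
  rw [e, e3, ← Complex.ofReal_cpow (by linarith), ← Real.sqrt_eq_rpow]
  push_cast
  rfl

theorem tendsto_hh_low {n : ℕ} (hn : 1 ≤ n) (i : ℕ) {r : ℝ} (hr : 1 < r) :
    Tendsto (hh n i) (𝓝[{z | z.im ≤ 0}] (r : ℂ)) (𝓝 (hh n i r)) := by
  have h := cm2_main hn i hr {z | z.im ≤ 0} (by
    intro z hz c hc
    show ((c : ℂ) * z).im ≤ 0
    rw [Complex.im_ofReal_mul]
    exact mul_nonpos_of_nonneg_of_nonpos hc.le hz) 1 one_ne_zero (by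
    intro t ht
    rw [one_mul]
    exact tendsto_sq_low hn ht)
  have e : hh n i (r : ℂ) =
      ∫ t in (0 : ℝ)..r, (t : ℂ) ^ i / ((if t < 1 then 1 else 1) * sq n t) := by
    rw [cm2_hr]
    simp only [ite_self, one_mul]
  rw [e]
  exact h

theorem tendsto_hh_up {n : ℕ} (hn : 1 ≤ n) (i : ℕ) {r : ℝ} (hr : 1 < r) :
    Tendsto (hh n i) (𝓝[{z | 0 < z.im}] (r : ℂ)) (𝓝 (2 * II n i - hh n i r)) := by
  have h := cm2_main hn i hr {z | 0 < z.im} (by
    intro z hz c hc
    show 0 < ((c : ℂ) * z).im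
    rw [Complex.im_ofReal_mul]
    exact mul_pos hc hz) (-1) (neg_ne_zero.2 one_ne_zero) (by
    intro t ht
    rw [neg_one_mul]
    exact tendsto_sq_up hn ht)
  have e : 2 * (II n i : ℂ) - hh n i (r : ℂ) =
      ∫ t in (0 : ℝ)..r, (t : ℂ) ^ i / ((if t < 1 then 1 else -1) * sq n t) := by
    have i1 := cm2_int hn i (R := 1) zero_le_one
    have i0 := cm2_int hn i (R := r) (by linarith)
    have i2 : IntervalIntegrable (fun t : ℝ => (t : ℂ) ^ i / sq n t) MeasureTheory.volume 1 r :=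
      i1.symm.trans i0
    have g1 : ∀ t ∈ Set.uIcc (0 : ℝ) 1, (t : ℂ) ^ i / sq n t =
        (t : ℂ) ^ i / ((if t < 1 then 1 else -1) * sq n t) := by
      intro t ht
      rw [Set.uIcc_of_le zero_le_one] at ht
      rcases lt_or_eq_of_le ht.2 with h1 | h1
      · rw [if_pos h1, one_mul]
      · have h2 : sq n (t : ℂ) = 0 := by
          unfold sq
          rw [h1, Complex.ofReal_one, one_pow, sub_self, Complex.zero_cpow (by norm_num)]
        rw [h2, mul_zero]
    have g2 : ∀ t ∈ Set.uIcc (1 : ℝ) r, -((t : ℂ) ^ i / sq n t) =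
        (t : ℂ) ^ i / ((if t < 1 then 1 else -1) * sq n t) := by
      intro t ht
      rw [Set.uIcc_of_le hr.le] at ht
      rw [if_neg (not_lt.2 ht.1), neg_one_mul, div_neg]
    have j1 : IntervalIntegrable (fun t : ℝ => (t : ℂ) ^ i / ((if t < 1 then 1 else -1) * sq n t))
        MeasureTheory.volume 0 1 :=
      i1.congr (fun t ht => g1 t (Set.uIoc_subset_uIcc ht))
    have j2 : IntervalIntegrable (fun t : ℝ => (t : ℂ) ^ i / ((if t < 1 then 1 else -1) * sq n t))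
        MeasureTheory.volume 1 r :=
      i2.neg.congr (fun t ht => g2 t (Set.uIoc_subset_uIcc ht))
    rw [← intervalIntegral.integral_add_adjacent_intervals j1 j2,
      ← intervalIntegral.integral_congr g1, ← intervalIntegral.integral_congr g2,
      intervalIntegral.integral_neg, cm2_II n i hn, cm2_hr,
      ← intervalIntegral.integral_add_adjacent_intervals i1 i2, cm2_II n i hn]
    ring
  rw [e]
  exact h

end MP_c1bd5a_ag
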