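import Pool.Agent.Work.MP_c1bd5a_ag.CmP1
import Pool.Agent.Work.MP_c1bd5a_ag.CmP2

/-!
# CmP3 (M) : local primitives at the points of the ray `r > 1`

`n = 2 g + 2`.  Take a ball `D` of centre `r` and radius `ρ` so small that every `z ∈ D` with `z.im ≠ 0` is in `Sl n` (then `z ^ n` is not real: argument of `z` in `(-π/n, π/n)`, not `0`; e.g. because
`Im (z ^ n) / Im z → n r ^ (n - 1) > 0`), and such that `1 - z ^ n ≠ 0`, even `Re (1 - z ^ n) < 0` on `D`.  `σ z = I * (z ^ n - 1) ^ (1/2)` (principal; `Re (z ^ n - 1) > 0`, so holomorphic on `D`, never zero,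
`σ ^ 2 = 1 - z ^ n`, `σ r' = sq n r'` for real `r' ∈ D` by `sq_ray`).  On the open lower half of `D` (convex) `sq n / σ` is continuous with square `1`, so constant, and it is `1` by the limit at `r` (`tendsto_sq_low`); so `sq n = σ` on the lower half and on
the real points; on the upper half `sq n = - σ` (`tendsto_sq_up`).
Primitives: `z ^ i / σ z` is holomorphic on the ball `D`, so it has a primitive `H i` there (`DifferentiableOn.isExactOn_ball`-type lemma in Mathlib: `Complex.IsExactOn`...), normalized by `H i r = hh n i r`.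
Lower half: `hh n i - H i` has derivative `0` on the open lower half of `D` (`hasDerivAt_hh`), so it is constant there, and the constant is `0` by `tendsto_hh_low` at `r`; for a real point `r' ∈ D` it is `0` by `tendsto_hh_low` at `r'`.
Upper half: `hh n i + H i` has derivative `x ^ i / sq + x ^ i / σ = 0`, so it is constant, equal to `2 II n i - hh n i r + H i r = 2 II n i`.
So `ph n i z (σ z) - H i z` is `0` for `Im z ≤ 0` and `- (2 II n i - H i z) - H i z = - 2 II n i` for `Im z > 0`; both vectors are in `lam g` (`cmv g 0 = (1, ..., 1)`).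
-/

set_option autoImplicit false

namespace MP_c1bd5a_ag

open MvPolynomial Filter Topology

/-- `Im (z ^ n) = Im z * q z` with `q > 0` near the positive reals -/
private theorem cm3_q (n : ℕ) : ∃ q : ℂ → ℝ, Continuous q ∧ (∀ z : ℂ, (z ^ n).im = z.im * q z) ∧
    ∀ r : ℝ, 0 < r → 0 ≤ q r ∧ (1 ≤ n → 0 < q r) := by
  induction n with
  | zero =>
    refine ⟨fun _ => 0, continuous_const, fun z => by simp, fun r _ => ⟨le_rfl, fun h => ?_⟩⟩
    omega
  | succ n ih =>
    obtain ⟨q, h1, h2, h3⟩ := ih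
    refine ⟨fun z => (z ^ n).re + q z * z.re, by fun_prop, fun z => ?_, fun r hr => ?_⟩
    · rw [pow_succ, Complex.mul_im, h2]
      ring
    · have h4 : (0 : ℝ) < (((r : ℂ) ^ n).re + q r * (r : ℂ).re) := by
        have e : (((r : ℂ) ^ n).re) = r ^ n := by
          rw [← Complex.ofReal_pow, Complex.ofReal_re]
        rw [e, Complex.ofReal_re]
        have h5 := (h3 r hr).1
        positivity
      exact ⟨h4.le, fun _ => h4⟩

/-- the closure of a half of a ball contains the real points of the ball -/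
private theorem cm3_neBot {c : ℂ} {ρ : ℝ} {x : ℝ} (hx : (x : ℂ) ∈ Metric.ball c ρ) :
    (𝓝[Metric.ball c ρ ∩ {z | z.im < 0}] (x : ℂ)).NeBot ∧
      (𝓝[Metric.ball c ρ ∩ {z | 0 < z.im}] (x : ℂ)).NeBot := by
  have hb : Metric.ball c ρ ∈ 𝓝 (x : ℂ) := Metric.isOpen_ball.mem_nhds hx
  constructor
  · rw [← mem_closure_iff_nhdsWithin_neBot, mem_closure_iff_frequently]
    have h1 : Tendsto (fun t : ℝ => (x : ℂ) - t * Complex.I) (𝓝[>] 0) (𝓝 (x : ℂ)) := by
      have h2 : Continuous fun t : ℝ => (x : ℂ) - t * Complex.I := by fun_prop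
      have h3 := (h2.tendsto 0).mono_left (nhdsWithin_le_nhds (s := Set.Ioi 0))
      simpa using h3
    refine h1.frequently (Eventually.frequently ?_)
    filter_upwards [h1.eventually hb, self_mem_nhdsWithin] with t ht ht0
    refine ⟨ht, ?_⟩
    show ((x : ℂ) - t * Complex.I).im < 0
    have h4 : (0 : ℝ) < t := ht0
    simp [h4]
  · rw [← mem_closure_iff_nhdsWithin_neBot, mem_closure_iff_frequently]
    have h1 : Tendsto (fun t : ℝ => (x : ℂ) + t * Complex.I) (𝓝[>] 0) (𝓝 (x : ℂ)) := by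
      have h2 : Continuous fun t : ℝ => (x : ℂ) + t * Complex.I := by fun_prop
      have h3 := (h2.tendsto 0).mono_left (nhdsWithin_le_nhds (s := Set.Ioi 0))
      simpa using h3
    refine h1.frequently (Eventually.frequently ?_)
    filter_upwards [h1.eventually hb, self_mem_nhdsWithin] with t ht ht0
    refine ⟨ht, ?_⟩
    show 0 < ((x : ℂ) + t * Complex.I).im
    have h4 : (0 : ℝ) < t := ht0
    simp [h4]

private theorem cm3_low_convex (c : ℂ) (ρ : ℝ) : Convex ℝ (Metric.ball c ρ ∩ {z : ℂ | z.im < 0}) :=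
  (convex_ball c ρ).inter (convex_halfSpace_im_lt 0)

private theorem cm3_up_convex (c : ℂ) (ρ : ℝ) : Convex ℝ (Metric.ball c ρ ∩ {z : ℂ | 0 < z.im}) :=
  (convex_ball c ρ).inter (convex_halfSpace_im_gt 0)

private theorem cm3_low_open (c : ℂ) (ρ : ℝ) : IsOpen (Metric.ball c ρ ∩ {z : ℂ | z.im < 0}) :=
  Metric.isOpen_ball.inter (isOpen_lt Complex.continuous_im continuous_const)

private theorem cm3_up_open (c : ℂ) (ρ : ℝ) : IsOpen (Metric.ball c ρ ∩ {z : ℂ | 0 < z.im}) :=
  Metric.isOpen_ball.inter (isOpen_lt continuous_const Complex.continuous_im)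

/-- a function with derivative `0` on a convex open set with a limit at a boundary point is constant -/
private theorem cm3_const {L : Set ℂ} (hL : IsOpen L) (hc : Convex ℝ L) {f : ℂ → ℂ}
    (hf : ∀ z ∈ L, HasDerivAt f 0 z) {a c : ℂ} (hne : (𝓝[L] a).NeBot)
    (hlim : Tendsto f (𝓝[L] a) (𝓝 c)) : ∀ z ∈ L, f z = c := by
  intro z hz
  have h1 : ∀ w ∈ L, f w = f z := fun w hw =>
    hL.is_const_of_deriv_eq_zero hc.isPreconnected
      (fun u hu => (hf u hu).differentiableAt.differentiableWithinAt)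
      (fun u hu => (hf u hu).deriv) hw hz
  have h2 : Tendsto f (𝓝[L] a) (𝓝 (f z)) := by
    refine tendsto_const_nhds.congr' ?_
    filter_upwards [self_mem_nhdsWithin] with w hw
    exact (h1 w hw).symm
  exact tendsto_nhds_unique h2 hlim

/-- two square roots which are related at a boundary point -/
private theorem cm3_sign {L : Set ℂ} (hc : Convex ℝ L) {s σ : ℂ → ℂ} (hs : ContinuousOn s L)
    (hσ : ContinuousOn σ L) (hsq : ∀ z ∈ L, s z ^ 2 = σ z ^ 2) (hσ0 : ∀ z ∈ L, σ z ≠ 0) {a c : ℂ}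
    (hne : (𝓝[L] a).NeBot) (hc0 : c ≠ 0) (h1 : Tendsto s (𝓝[L] a) (𝓝 c))
    (h2 : Tendsto σ (𝓝[L] a) (𝓝 c)) : ∀ z ∈ L, s z = σ z := by
  rcases hc.isPreconnected.eq_or_eq_neg_of_sq_eq hs hσ (fun z hz => hsq z hz)
    (fun {z} hz => hσ0 z hz) with h | h
  · exact h
  · exfalso
    have h3 : Tendsto s (𝓝[L] a) (𝓝 (-c)) := by
      refine h2.neg.congr' ?_
      filter_upwards [self_mem_nhdsWithin] with w hw
      exact (h hw).symm
    have h4 := tendsto_nhds_unique h1 h3
    have h5 : c + c = 0 := by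
      nth_rewrite 1 [h4]
      ring
    exact hc0 (self_eq_neg.1 h4)

theorem locPrim_ray (g : ℕ) {r : ℝ} (hr : 1 < r) : LocPrim g (r : ℂ) := by
  have hn : 1 ≤ 2 * g + 2 := by omega
  generalize hN : 2 * g + 2 = n at hn
  obtain ⟨q, hqc, hq, hq0⟩ := cm3_q n
  have hrn : ∀ x : ℝ, 1 < x → 0 < x ^ n - 1 := fun x hx => by
    have := one_lt_pow₀ hx (by omega : n ≠ 0)
    linarith
  have hev : ∀ᶠ z in 𝓝 (r : ℂ), 0 < (z ^ n - 1).re ∧ 0 < q z ∧ 1 < z.re := by
    have h1 : Continuous fun z : ℂ => (z ^ n - 1).re := by fun_prop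
    have h2 : (0 : ℝ) < ((r : ℂ) ^ n - 1).re := by
      rw [← Complex.ofReal_pow, Complex.sub_re, Complex.ofReal_re, Complex.one_re]
      exact hrn r hr
    have h3 : (1 : ℝ) < (r : ℂ).re := by rw [Complex.ofReal_re]; exact hr
    exact (h1.continuousAt.eventually (lt_mem_nhds h2)).and
      ((hqc.continuousAt.eventually (lt_mem_nhds ((hq0 r (by linarith)).2 hn))).and
        (Complex.continuous_re.continuousAt.eventually (lt_mem_nhds h3)))
  obtain ⟨ρ, hρ, hball⟩ := Metric.eventually_nhds_iff_ball.1 hev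
  have hrmem : (r : ℂ) ∈ Metric.ball (r : ℂ) ρ := Metric.mem_ball_self hρ
  -- the square root
  obtain ⟨σ, hσdef⟩ : ∃ σ : ℂ → ℂ, ∀ z, σ z = Complex.I * (z ^ n - 1) ^ (1 / 2 : ℂ) := ⟨_, fun _ => rfl⟩
  have hσsq : ∀ z, σ z ^ 2 = 1 - z ^ n := by
    intro z
    have h := Complex.cpow_nat_inv_pow (z ^ n - 1) (n := 2) two_ne_zero
    have e : (1 / 2 : ℂ) = ((2 : ℕ) : ℂ)⁻¹ := by norm_num
    rw [hσdef, mul_pow, e, h, Complex.I_sq]
    ring
  have hslit : ∀ z ∈ Metric.ball (r : ℂ) ρ, z ^ n - 1 ∈ Complex.slitPlane := fun z hz =>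
    Complex.mem_slitPlane_iff.2 (Or.inl (hball z hz).1)
  have hσ0 : ∀ z ∈ Metric.ball (r : ℂ) ρ, σ z ≠ 0 := by
    intro z hz h0
    have h1 := hσsq z
    rw [h0] at h1
    have h2 := Complex.slitPlane_ne_zero (hslit z hz)
    apply h2
    linear_combination h1
  have hσd : DifferentiableOn ℂ σ (Metric.ball (r : ℂ) ρ) := by
    intro z hz
    have h1 : DifferentiableAt ℂ (fun x : ℂ => x ^ n - 1) z := by fun_prop
    have h2 : σ = fun z => Complex.I * (z ^ n - 1) ^ (1 / 2 : ℂ) := funext hσdef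
    rw [h2]
    exact ((h1.cpow (differentiableAt_const _) (hslit z hz)).const_mul _).differentiableWithinAt
  have hσc : ContinuousOn σ (Metric.ball (r : ℂ) ρ) := hσd.continuousOn
  have hσca : ∀ z ∈ Metric.ball (r : ℂ) ρ, ContinuousAt σ z := fun z hz =>
    hσc.continuousAt (Metric.isOpen_ball.mem_nhds hz)
  have hσray : ∀ x : ℝ, 1 < x → σ (x : ℂ) = sq n (x : ℂ) := by
    intro x hx
    rw [sq_ray hn hx, hσdef]
    have e : (x : ℂ) ^ n - 1 = ((x ^ n - 1 : ℝ) : ℂ) := by push_cast; rfl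
    have e3 : (1 / 2 : ℂ) = ((1 / 2 : ℝ) : ℂ) := by push_cast; rfl
    rw [e, e3, ← Complex.ofReal_cpow (hrn x hx).le, ← Real.sqrt_eq_rpow]
  have hsqr0 : sq n (r : ℂ) ≠ 0 := by
    rw [← hσray r hr]
    exact hσ0 _ hrmem
  -- off the real line the points of the ball are in the slit plane
  have hSl : ∀ z ∈ Metric.ball (r : ℂ) ρ, z.im ≠ 0 → z ∈ Sl n := by
    intro z hz him
    have h1 : (1 - z ^ n).im ≠ 0 := by
      rw [Complex.sub_im, Complex.one_im, hq, zero_sub, neg_ne_zero]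
      exact mul_ne_zero him (hball z hz).2.1.ne'
    exact Complex.mem_slitPlane_iff.2 (Or.inr h1)
  have hlowS : Metric.ball (r : ℂ) ρ ∩ {z | z.im < 0} ⊆ Sl n := fun z hz => hSl z hz.1 (ne_of_lt hz.2)
  have hupS : Metric.ball (r : ℂ) ρ ∩ {z | 0 < z.im} ⊆ Sl n := fun z hz => hSl z hz.1 (ne_of_gt hz.2)
  have hlowsub : Metric.ball (r : ℂ) ρ ∩ {z | z.im < 0} ⊆ {z : ℂ | z.im ≤ 0} := by
    intro z hz
    have h1 : z.im < 0 := hz.2
    exact h1.le
  have hsqc : ContinuousOn (sq n) (Sl n) := fun z hz =>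
    (differentiableAt_sq hz).continuousAt.continuousWithinAt
  have hlow : ∀ z ∈ Metric.ball (r : ℂ) ρ ∩ {z | z.im < 0}, sq n z = σ z := by
    refine cm3_sign (cm3_low_convex _ _) (hsqc.mono hlowS) (hσc.mono Set.inter_subset_left)
      (fun z _ => by rw [sq_sq, hσsq]) (fun z hz => hσ0 z hz.1) (cm3_neBot hrmem).1 hsqr0
      ((tendsto_sq_low hn hr).mono_left (nhdsWithin_mono _ hlowsub)) ?_
    rw [← hσray r hr]
    exact (hσca _ hrmem).tendsto.mono_left nhdsWithin_le_nhds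
  have hup : ∀ z ∈ Metric.ball (r : ℂ) ρ ∩ {z | 0 < z.im}, sq n z = -σ z := by
    have h1 := cm3_sign (s := sq n) (σ := fun z => -σ z) (c := -sq n (r : ℂ))
      (cm3_up_convex _ _) (hsqc.mono hupS)
      (hσc.neg.mono Set.inter_subset_left)
      (fun z _ => by rw [sq_sq, neg_sq, hσsq]) (fun z hz => neg_ne_zero.2 (hσ0 z hz.1))
      (cm3_neBot hrmem).2 (neg_ne_zero.2 hsqr0)
      ((tendsto_sq_up hn hr).mono_left (nhdsWithin_mono _ fun z hz => hz.2)) (by
        rw [← hσray r hr]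
        exact ((hσca _ hrmem).tendsto.mono_left nhdsWithin_le_nhds).neg)
    exact h1
  -- the primitives
  have hprim : ∀ i : Fin g, ∃ H : ℂ → ℂ, H (r : ℂ) = hh n i (r : ℂ) ∧
      ∀ z ∈ Metric.ball (r : ℂ) ρ, HasDerivAt H (z ^ (i : ℕ) / σ z) z := by
    intro i
    have h1 : DifferentiableOn ℂ (fun z : ℂ => z ^ (i : ℕ) / σ z) (Metric.ball (r : ℂ) ρ) :=
      (differentiableOn_pow (i : ℕ)).div hσd hσ0
    exact h1.isExactOn_ball.with_val_at (r : ℂ) (hh n i (r : ℂ))
  choose H hHr hHd using hprim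
  have hHc : ∀ (i : Fin g), ∀ z ∈ Metric.ball (r : ℂ) ρ, ContinuousAt (H i) z := fun i z hz =>
    (hHd i z hz).continuousAt
  have hHlow : ∀ (i : Fin g), ∀ z ∈ Metric.ball (r : ℂ) ρ ∩ {z | z.im < 0},
      hh n i z - H i z = 0 := by
    intro i
    refine cm3_const (cm3_low_open _ _) (cm3_low_convex _ _) (f := fun z => hh n i z - H i z)
      (fun z hz => ?_) (cm3_neBot hrmem).1 ?_
    · have h1 := (hasDerivAt_hh (i : ℕ) (hlowS hz)).sub (hHd i z hz.1)
      rw [hlow z hz, sub_self] at h1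
      exact h1
    · have h1 : Tendsto (hh n i) (𝓝[Metric.ball (r : ℂ) ρ ∩ {z | z.im < 0}] (r : ℂ))
          (𝓝 (hh n i (r : ℂ))) :=
        (tendsto_hh_low hn i hr).mono_left (nhdsWithin_mono _ hlowsub)
      have h2 : Tendsto (H i) (𝓝[Metric.ball (r : ℂ) ρ ∩ {z | z.im < 0}] (r : ℂ))
          (𝓝 (H i (r : ℂ))) := (hHc i _ hrmem).tendsto.mono_left nhdsWithin_le_nhds
      have h3 := h1.sub h2
      rw [hHr, sub_self] at h3
      exact h3
  have hHup : ∀ (i : Fin g), ∀ z ∈ Metric.ball (r : ℂ) ρ ∩ {z | 0 < z.im},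
      hh n i z + H i z = 2 * II n i := by
    intro i
    refine cm3_const (cm3_up_open _ _) (cm3_up_convex _ _) (f := fun z => hh n i z + H i z)
      (fun z hz => ?_) (cm3_neBot hrmem).2 ?_
    · have h1 := (hasDerivAt_hh (i : ℕ) (hupS hz)).add (hHd i z hz.1)
      rw [hup z hz, div_neg, neg_add_cancel] at h1
      exact h1
    · have h1 : Tendsto (hh n i) (𝓝[Metric.ball (r : ℂ) ρ ∩ {z | 0 < z.im}] (r : ℂ))
          (𝓝 (2 * II n i - hh n i (r : ℂ))) :=
        (tendsto_hh_up hn i hr).mono_left (nhdsWithin_mono _ fun z hz => hz.2)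
      have h2 : Tendsto (H i) (𝓝[Metric.ball (r : ℂ) ρ ∩ {z | 0 < z.im}] (r : ℂ))
          (𝓝 (H i (r : ℂ))) := (hHc i _ hrmem).tendsto.mono_left nhdsWithin_le_nhds
      have h3 := h1.add h2
      rw [hHr, sub_add_cancel] at h3
      exact h3
  have hHray : ∀ (i : Fin g) (x : ℝ), (x : ℂ) ∈ Metric.ball (r : ℂ) ρ →
      hh n i (x : ℂ) = H i (x : ℂ) := by
    intro i x hx
    have hx1 : 1 < x := by
      have := (hball _ hx).2.2
      rwa [Complex.ofReal_re] at this
    have hnb := (cm3_neBot hx).1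
    have h1 : Tendsto (hh n i) (𝓝[Metric.ball (r : ℂ) ρ ∩ {z | z.im < 0}] (x : ℂ))
        (𝓝 (hh n i (x : ℂ))) :=
      (tendsto_hh_low hn i hx1).mono_left (nhdsWithin_mono _ hlowsub)
    have h2 : Tendsto (H i) (𝓝[Metric.ball (r : ℂ) ρ ∩ {z | z.im < 0}] (x : ℂ))
        (𝓝 (H i (x : ℂ))) := (hHc i _ hx).tendsto.mono_left nhdsWithin_le_nhds
    have h3 : Tendsto (hh n i) (𝓝[Metric.ball (r : ℂ) ρ ∩ {z | z.im < 0}] (x : ℂ))
        (𝓝 (H i (x : ℂ))) := by
      refine h2.congr' ?_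
      filter_upwards [self_mem_nhdsWithin] with z hz
      exact (sub_eq_zero.1 (hHlow i z hz)).symm
    exact tendsto_nhds_unique h1 h3
  unfold LocPrim
  rw [hN]
  refine ⟨ρ, hρ, σ, H, hσc, fun z hz => ⟨hσsq z, hσ0 z hz⟩, hHd, fun z hz => ?_⟩
  rcases lt_trichotomy z.im 0 with him | him | him
  · have h1 : (fun i : Fin g => ph n i z (σ z) - H i z) = 0 := by
      funext i
      have h2 := hHlow i z ⟨hz, him⟩
      unfold ph
      rw [hlow z ⟨hz, him⟩, div_self (hσ0 z hz), one_mul, h2]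
      rfl
    rw [h1]
    exact zero_mem _
  · have hzx : z = ((z.re : ℝ) : ℂ) := by
      apply Complex.ext
      · rw [Complex.ofReal_re]
      · rw [Complex.ofReal_im, him]
    have h1 : (fun i : Fin g => ph n i z (σ z) - H i z) = 0 := by
      funext i
      rw [hzx] at hz ⊢
      unfold ph
      rw [← hσray z.re (hball z (by rwa [hzx])).2.2, div_self (hσ0 _ hz), one_mul, hHray i _ hz,
        sub_self]
      rfl
    rw [h1]
    exact zero_mem _
  · refine ⟨-cmv g 0, neg_mem (Submodule.subset_span ⟨0, rfl⟩), fun i => ?_⟩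
    have h2 := hHup i z ⟨hz, him⟩
    have h3 : cmv g 0 i = 1 := by
      unfold cmv
      simp
    rw [Pi.neg_apply, h3, hN]
    unfold ph
    rw [hup z ⟨hz, him⟩, div_neg, div_self (hσ0 z hz)]
    linear_combination -h2

end MP_c1bd5a_ag
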