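import Pool.Agent.Work.MP_c1bd5a_ag.CmP3

/-!
# CmP4 (S-M) : local primitives everywhere

`n = 2 g + 2`.  If `x₀ ∈ Sl n` take a ball in `Sl n`, `σ = sq n`, `H i = hh n i`: `ph n i x (sq n x) = hh n i x` (`sq n x ≠ 0`).
Otherwise `1 - x₀ ^ n` is real and `≤ 0`, not zero: `x₀ ^ n = R > 1`; with `r = ‖x₀‖ > 1`, `(x₀ / r) ^ n = 1`, so `x₀ = r ξ` with `ξ ^ n = 1`, `ξ = exp (2 π I k / n)` for some integer `k` (`Complex.exists_pow_eq_one`-type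
lemma: `Complex.mem_rootsOfUnity`).  Let `D, σ, H` be as in `locPrim_ray` for `r`; take the ball of centre `x₀` with the same radius, `σ' x = σ (ξ⁻¹ x)`, `H' i x = ξ ^ (i + 1) * H i (ξ⁻¹ x)`.  `hh n i (ξ x) = ξ ^ (i + 1) * hh n i x`, `sq n (ξ x) = sq n x`, so
`ph n i (ξ x) w = ξ ^ (i + 1) * ph n i x w`; and multiplication by `(ξ ^ (i + 1))_i` maps `cmLat g` to itself (`cmv g k` times it is `cmv g (k + k')`), hence `lam g` to itself.
-/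

set_option autoImplicit false

namespace MP_c1bd5a_ag

open MvPolynomial Filter Topology

private theorem cm4_pow {n : ℕ} {ξ : ℂ} (hξ : ξ ^ n = 1) (y : ℂ) : (ξ * y) ^ n = y ^ n := by
  rw [mul_pow, hξ, one_mul]

private theorem cm4_sq {n : ℕ} {ξ : ℂ} (hξ : ξ ^ n = 1) (y : ℂ) : sq n (ξ * y) = sq n y := by
  unfold sq
  rw [cm4_pow hξ]

private theorem cm4_hh {n : ℕ} {ξ : ℂ} (hξ : ξ ^ n = 1) (i : ℕ) (y : ℂ) :
    hh n i (ξ * y) = ξ ^ (i + 1) * hh n i y := by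
  unfold hh
  have h1 : ∀ u : ℝ, sq n (u * (ξ * y)) = sq n (u * y) := by
    intro u
    rw [show (u : ℂ) * (ξ * y) = ξ * (u * y) by ring, cm4_sq hξ]
  simp only [h1]
  rw [mul_pow, mul_assoc]

private theorem cm4_ph {n : ℕ} {ξ : ℂ} (hξ : ξ ^ n = 1) (i : ℕ) (y w : ℂ) :
    ph n i (ξ * y) w = ξ ^ (i + 1) * ph n i y w := by
  unfold ph
  rw [cm4_sq hξ, cm4_hh hξ]
  ring

private theorem cm4_root {g : ℕ} {ξ : ℂ} (hξ : ξ ^ (2 * g + 2) = 1) :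
    ∃ k : ℤ, ∀ (k' : ℤ) (i : Fin g), ξ ^ ((i : ℕ) + 1) * cmv g k' i = cmv g (k + k') i := by
  obtain ⟨k, _, hk⟩ := (Complex.isPrimitiveRoot_exp (2 * g + 2) (by omega)).eq_pow_of_pow_eq_one hξ
  refine ⟨k, fun k' i => ?_⟩
  rw [← hk]
  unfold cmv
  rw [← Complex.exp_nat_mul, ← Complex.exp_nat_mul, ← Complex.exp_add]
  congr 1
  push_cast
  ring

private theorem cm4_cmLat {g : ℕ} {ξ : ℂ} (hξ : ξ ^ (2 * g + 2) = 1) {l : Fin g → ℂ}
    (hl : l ∈ cmLat g) : (fun i : Fin g => ξ ^ ((i : ℕ) + 1) * l i) ∈ cmLat g := by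
  obtain ⟨k, hk⟩ := cm4_root hξ
  unfold cmLat at hl ⊢
  induction hl using Submodule.span_induction with
  | mem x hx =>
    obtain ⟨k', rfl⟩ := hx
    have h1 : (fun i : Fin g => ξ ^ ((i : ℕ) + 1) * cmv g k' i) = cmv g (k + k') :=
      funext fun i => hk k' i
    rw [h1]
    exact Submodule.subset_span ⟨k + k', rfl⟩
  | zero =>
    have h1 : (fun i : Fin g => ξ ^ ((i : ℕ) + 1) * (0 : Fin g → ℂ) i) = 0 := by
      funext i
      simp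
    rw [h1]
    exact zero_mem _
  | add x y _ _ hx hy =>
    have h1 : (fun i : Fin g => ξ ^ ((i : ℕ) + 1) * (x + y) i) =
        (fun i : Fin g => ξ ^ ((i : ℕ) + 1) * x i) + fun i : Fin g => ξ ^ ((i : ℕ) + 1) * y i := by
      funext i
      simp [mul_add]
    rw [h1]
    exact add_mem hx hy
  | smul a x _ hx =>
    have h1 : (fun i : Fin g => ξ ^ ((i : ℕ) + 1) * (a • x) i) =
        a • fun i : Fin g => ξ ^ ((i : ℕ) + 1) * x i := by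
      funext i
      simp only [Pi.smul_apply, zsmul_eq_mul]
      ring
    rw [h1]
    exact Submodule.smul_mem _ _ hx

private theorem cm4_lam {g : ℕ} {ξ : ℂ} (hξ : ξ ^ (2 * g + 2) = 1) {v : Fin g → ℂ}
    (hv : v ∈ lam g) : (fun i : Fin g => ξ ^ ((i : ℕ) + 1) * v i) ∈ lam g := by
  obtain ⟨l, hl, h⟩ := hv
  refine ⟨fun i => ξ ^ ((i : ℕ) + 1) * l i, cm4_cmLat hξ hl, fun i => ?_⟩
  beta_reduce
  rw [h]
  ring

private theorem cm4_slit (g : ℕ) {x₀ : ℂ} (h : x₀ ∈ Sl (2 * g + 2)) : LocPrim g x₀ := by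
  obtain ⟨ρ, hρ, hb⟩ := Metric.isOpen_iff.1 (isOpen_sl (2 * g + 2)) x₀ h
  have hne : ∀ x ∈ Metric.ball x₀ ρ, sq (2 * g + 2) x ≠ 0 := by
    intro x hx h0
    have h1 : (1 : ℂ) - x ^ (2 * g + 2) ≠ 0 := Complex.slitPlane_ne_zero (hb hx)
    rw [← sq_sq, h0] at h1
    exact h1 (by norm_num)
  refine ⟨ρ, hρ, sq (2 * g + 2), fun i => hh (2 * g + 2) i, fun x hx =>
    (differentiableAt_sq (hb hx)).continuousAt.continuousWithinAt, fun x hx =>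
    ⟨sq_sq _ _, hne x hx⟩, fun i x hx => hasDerivAt_hh i (hb hx), fun x hx => ?_⟩
  have h1 : (fun i : Fin g => ph (2 * g + 2) i x (sq (2 * g + 2) x) - hh (2 * g + 2) i x) = 0 := by
    funext i
    unfold ph
    rw [div_self (hne x hx), one_mul, sub_self]
    rfl
  rw [h1]
  exact zero_mem _

private theorem cm4_rot (g : ℕ) {ξ : ℂ} (hξ : ξ ^ (2 * g + 2) = 1) {r : ℂ} (h : LocPrim g r) :
    LocPrim g (ξ * r) := by
  obtain ⟨ρ, hρ, σ, H, h1, h2, h3, h4⟩ := h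
  have hξ0 : ξ ≠ 0 := by
    rintro rfl
    rw [zero_pow (by omega)] at hξ
    exact zero_ne_one hξ
  have hnorm : ‖ξ‖ = 1 := by
    have h5 : ‖ξ‖ ^ (2 * g + 2) = 1 := by rw [← norm_pow, hξ, norm_one]
    exact (pow_eq_one_iff_of_nonneg (norm_nonneg _) (by omega)).1 h5
  have hmem : ∀ x ∈ Metric.ball (ξ * r) ρ, ξ⁻¹ * x ∈ Metric.ball r ρ := by
    intro x hx
    rw [Metric.mem_ball, dist_eq_norm] at hx ⊢
    have h5 : ξ⁻¹ * x - r = ξ⁻¹ * (x - ξ * r) := by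
      field_simp
    rw [h5, norm_mul, norm_inv, hnorm, inv_one, one_mul]
    exact hx
  have hinv : ∀ x : ℂ, ξ * (ξ⁻¹ * x) = x := fun x => by
    rw [← mul_assoc, mul_inv_cancel₀ hξ0, one_mul]
  refine ⟨ρ, hρ, fun x => σ (ξ⁻¹ * x), fun i x => ξ ^ ((i : ℕ) + 1) * H i (ξ⁻¹ * x), ?_, ?_, ?_, ?_⟩
  · exact h1.comp (continuous_const.mul continuous_id).continuousOn hmem
  · intro x hx
    obtain ⟨k1, k2⟩ := h2 _ (hmem x hx)
    refine ⟨?_, k2⟩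
    have h5 := cm4_pow hξ (ξ⁻¹ * x)
    rw [hinv] at h5
    rw [k1, h5]
  · intro i x hx
    have h5 : HasDerivAt (fun x : ℂ => ξ⁻¹ * x) ξ⁻¹ x := by
      simpa using (hasDerivAt_id x).const_mul ξ⁻¹
    have h6 := ((h3 i _ (hmem x hx)).comp x h5).const_mul (ξ ^ ((i : ℕ) + 1))
    have h7 : ξ ^ ((i : ℕ) + 1) * ((ξ⁻¹ * x) ^ (i : ℕ) / σ (ξ⁻¹ * x) * ξ⁻¹) =
        x ^ (i : ℕ) / σ (ξ⁻¹ * x) := by
      rw [mul_pow, inv_pow, pow_succ]
      have h8 : ξ ^ (i : ℕ) ≠ 0 := pow_ne_zero _ hξ0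
      field_simp
    rw [h7] at h6
    exact h6
  · intro x hx
    have h5 := cm4_lam hξ (h4 _ (hmem x hx))
    have h6 : (fun i : Fin g => ph (2 * g + 2) i x (σ (ξ⁻¹ * x)) -
        ξ ^ ((i : ℕ) + 1) * H i (ξ⁻¹ * x)) = fun i : Fin g => ξ ^ ((i : ℕ) + 1) *
        (ph (2 * g + 2) i (ξ⁻¹ * x) (σ (ξ⁻¹ * x)) - H i (ξ⁻¹ * x)) := by
      funext i
      rw [mul_sub, ← cm4_ph hξ, hinv]
    rw [h6]
    exact h5

theorem locPrim (g : ℕ) {x₀ : ℂ} (h : 1 - x₀ ^ (2 * g + 2) ≠ 0) : LocPrim g x₀ := by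
  by_cases hs : x₀ ∈ Sl (2 * g + 2)
  · exact cm4_slit g hs
  · have h1 : ¬ (0 < (1 - x₀ ^ (2 * g + 2)).re ∨ (1 - x₀ ^ (2 * g + 2)).im ≠ 0) := hs
    push Not at h1
    obtain ⟨hre, him⟩ := h1
    rw [Complex.sub_re, Complex.one_re] at hre
    rw [Complex.sub_im, Complex.one_im] at him
    have hw : x₀ ^ (2 * g + 2) = (((x₀ ^ (2 * g + 2)).re : ℝ) : ℂ) := by
      apply Complex.ext
      · rw [Complex.ofReal_re]
      · rw [Complex.ofReal_im]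
        linarith
    have hR : 1 < (x₀ ^ (2 * g + 2)).re := by
      rcases lt_or_eq_of_le (by linarith : 1 ≤ (x₀ ^ (2 * g + 2)).re) with h2 | h2
      · exact h2
      · exfalso
        apply h
        rw [hw, ← h2]
        simp
    have hn : ‖x₀‖ ^ (2 * g + 2) = (x₀ ^ (2 * g + 2)).re := by
      rw [← norm_pow]
      conv_lhs => rw [hw]
      rw [Complex.norm_real, Real.norm_eq_abs, abs_of_pos (by linarith)]
    have hr : 1 < ‖x₀‖ := by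
      by_contra h2
      have h3 := pow_le_one₀ (n := 2 * g + 2) (norm_nonneg x₀) (not_lt.1 h2)
      linarith
    have hr0 : ((‖x₀‖ : ℝ) : ℂ) ≠ 0 := by
      rw [Complex.ofReal_ne_zero]
      linarith
    have hξ : (x₀ / ((‖x₀‖ : ℝ) : ℂ)) ^ (2 * g + 2) = 1 := by
      rw [div_pow, ← Complex.ofReal_pow, hn, ← hw, div_self]
      rw [hw, Complex.ofReal_ne_zero]
      linarith
    have h2 := cm4_rot g hξ (locPrim_ray g hr)
    rw [div_mul_cancel₀ _ hr0] at h2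
    exact h2

end MP_c1bd5a_ag
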