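import Pool.Agent.Work.MP_c1bd5a_ag.CmP4

/-!
# CmP5 (M) : the integral over a closed path

`n = 2 g + 2`, `Φ t = (ph n i (x t) (w t))_i`, `J t = (∫ s in 0..t, x s ^ i / w s * deriv x s)_i`.
(1) For `t₀ ∈ [0, 1]` take `ρ, σ, H` from `locPrim g` at `x t₀`.  For `t ∈ [0, 1]` near `t₀`, `x t` is in the ball, `w t ^ 2 = σ (x t) ^ 2`, so `w t = ± σ (x t)`, and the quotient `w t / σ (x t)` is continuous with values `± 1`, so
it is constant `= ε` near `t₀` (in `[0, 1]`).  `ph` is linear in `w`, so `Φ t - ε H (x t) ∈ lam g`, and `ε * H i (x t)` has derivative `ε * x ^ i / σ * x' = x ^ i / w * x'`, so `J t - J t' = ε (H (x t) - H (x t'))` (fundamental theorem,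
`intervalIntegral.integral_eq_sub_of_hasDerivAt`; the integrand is continuous on `[0, 1]`).  So `(Φ t - J t) - (Φ t' - J t') ∈ lam g` for `t, t'` near `t₀`.
(2) So the set of the `t ∈ [0, 1]` with `(Φ t - J t) - (Φ 0 - J 0) ∈ lam g` is open and closed in `[0, 1]`, so it contains `1` (e.g. `IsClosed.Icc_subset_of_forall_exists_gt` or connectedness / a finite chain by the Lebesgue number).
`Φ 1 = Φ 0`, `J 0 = 0`, so `J 1 ∈ lam g`.
-/

set_option autoImplicit false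

namespace MP_c1bd5a_ag

open MvPolynomial Filter Topology

/-- `Φ i t - J i t` at two points of an interval on which `w = ε σ (x)` differ by an element of the lattice -/
private theorem cm5_loc (g : ℕ) (x w : ℝ → ℂ) (hx : ContDiff ℝ 1 x)
    (f : Fin g → ℝ → ℂ) (hf : ∀ i t, f i t = x t ^ (i : ℕ) / w t * deriv x t)
    (hfc : ∀ i, ContinuousOn (f i) (Set.Icc (0 : ℝ) 1)) (x₀ : ℂ) (ρ : ℝ) (σ : ℂ → ℂ)
    (H : Fin g → ℂ → ℂ)
    (hσ : ∀ y ∈ Metric.ball x₀ ρ, σ y ^ 2 = 1 - y ^ (2 * g + 2) ∧ σ y ≠ 0)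
    (hH : ∀ (i : Fin g), ∀ y ∈ Metric.ball x₀ ρ, HasDerivAt (H i) (y ^ (i : ℕ) / σ y) y)
    (hlam : ∀ y ∈ Metric.ball x₀ ρ,
      (fun i : Fin g => ph (2 * g + 2) i y (σ y) - H i y) ∈ lam g) (ε : ℂ)
    (hε : ε = 1 ∨ ε = -1) (s t : ℝ) (hsub : Set.uIcc s t ⊆ Set.Icc (0 : ℝ) 1)
    (hball : ∀ u ∈ Set.uIcc s t, x u ∈ Metric.ball x₀ ρ)
    (hw : ∀ u ∈ Set.uIcc s t, w u = ε * σ (x u)) :
    (fun i : Fin g => (ph (2 * g + 2) i (x s) (w s) - ∫ u in (0 : ℝ)..s, f i u) -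
      (ph (2 * g + 2) i (x t) (w t) - ∫ u in (0 : ℝ)..t, f i u)) ∈ lam g := by
  have hs : s ∈ Set.uIcc s t := Set.left_mem_uIcc
  have ht : t ∈ Set.uIcc s t := Set.right_mem_uIcc
  have hint : ∀ (i : Fin g) (a b : ℝ), a ∈ Set.Icc (0 : ℝ) 1 → b ∈ Set.Icc (0 : ℝ) 1 →
      IntervalIntegrable (f i) MeasureTheory.volume a b := by
    intro i a b ha hb
    exact ((hfc i).mono (Set.uIcc_subset_Icc ha hb)).intervalIntegrable
  have h01 : (0 : ℝ) ∈ Set.Icc (0 : ℝ) 1 := ⟨le_rfl, zero_le_one⟩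
  have hinv : ε⁻¹ = ε := by
    rcases hε with h | h
    · rw [h, inv_one]
    · rw [h]
      norm_num
  have hphi : ∀ u ∈ Set.uIcc s t,
      (fun i : Fin g => ph (2 * g + 2) i (x u) (w u) - ε * H i (x u)) ∈ lam g := by
    intro u hu
    have h1 := hlam _ (hball u hu)
    have h2 : (fun i : Fin g => ph (2 * g + 2) i (x u) (w u) - ε * H i (x u)) =
        fun i : Fin g => ε * (ph (2 * g + 2) i (x u) (σ (x u)) - H i (x u)) := by
      funext i
      rw [hw u hu]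
      unfold ph
      ring
    rw [h2]
    rcases hε with h | h
    · simp only [h, one_mul]
      exact h1
    · simp only [h, neg_one_mul]
      exact neg_mem h1
  have hJ : ∀ i : Fin g, (∫ u in (0 : ℝ)..t, f i u) - (∫ u in (0 : ℝ)..s, f i u) =
      ε * H i (x t) - ε * H i (x s) := by
    intro i
    rw [intervalIntegral.integral_interval_sub_left (hint i 0 t h01 (hsub ht))
      (hint i 0 s h01 (hsub hs))]
    refine intervalIntegral.integral_eq_sub_of_hasDerivAt (f := fun u => ε * H i (x u)) ?_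
      (hint i s t (hsub hs) (hsub ht))
    intro u hu
    have h1 : HasDerivAt x (deriv x u) u := (hx.differentiable one_ne_zero u).hasDerivAt
    have h2 := ((hH i _ (hball u hu)).scomp u h1).const_mul ε
    have h3 : ε * (deriv x u • (x u ^ (i : ℕ) / σ (x u))) = f i u := by
      rw [hf, hw u hu, smul_eq_mul, div_eq_mul_inv (x u ^ (i : ℕ)) (ε * σ (x u)), mul_inv, hinv]
      ring
    rw [h3] at h2
    exact h2
  have h4 := sub_mem (hphi s hs) (hphi t ht)
  have h5 : (fun i : Fin g => (ph (2 * g + 2) i (x s) (w s) - ∫ u in (0 : ℝ)..s, f i u) -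
      (ph (2 * g + 2) i (x t) (w t) - ∫ u in (0 : ℝ)..t, f i u)) =
      (fun i : Fin g => ph (2 * g + 2) i (x s) (w s) - ε * H i (x s)) -
        fun i : Fin g => ph (2 * g + 2) i (x t) (w t) - ε * H i (x t) := by
    funext i
    rw [Pi.sub_apply]
    linear_combination hJ i
  rw [h5]
  exact h4

theorem closed_path (g : ℕ) (x w : ℝ → ℂ) (hx : ContDiff ℝ 1 x) (hw : Continuous w)
    (h : ∀ t ∈ Set.Icc (0 : ℝ) 1, w t ^ 2 = 1 - x t ^ (2 * g + 2) ∧ w t ≠ 0) (h0 : x 0 = x 1)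
    (h1 : w 0 = w 1) :
    (fun i : Fin g => ∫ t in (0 : ℝ)..1, x t ^ (i : ℕ) / w t * deriv x t) ∈ lam g := by
  have hfc : ∀ i : Fin g, ContinuousOn (fun t => x t ^ (i : ℕ) / w t * deriv x t)
      (Set.Icc (0 : ℝ) 1) := fun i =>
    (((hx.continuous.pow _).continuousOn).div hw.continuousOn fun t ht => (h t ht).2).mul
      (hx.continuous_deriv le_rfl).continuousOn
  have h01 : (0 : ℝ) ∈ Set.Icc (0 : ℝ) 1 := ⟨le_rfl, zero_le_one⟩
  have h11 : (1 : ℝ) ∈ Set.Icc (0 : ℝ) 1 := ⟨zero_le_one, le_rfl⟩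
  have key := (isPreconnected_Icc (a := (0 : ℝ)) (b := 1)).induction₂ (fun s t =>
    (fun i : Fin g => (ph (2 * g + 2) i (x s) (w s) -
        ∫ u in (0 : ℝ)..s, x u ^ (i : ℕ) / w u * deriv x u) -
      (ph (2 * g + 2) i (x t) (w t) -
        ∫ u in (0 : ℝ)..t, x u ^ (i : ℕ) / w u * deriv x u)) ∈ lam g) ?_ ?_ ?_ h11 h01
  · have h2 : (fun i : Fin g => ∫ t in (0 : ℝ)..1, x t ^ (i : ℕ) / w t * deriv x t) =
        -(fun i : Fin g => (ph (2 * g + 2) i (x 1) (w 1) -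
        ∫ u in (0 : ℝ)..1, x u ^ (i : ℕ) / w u * deriv x u) -
      (ph (2 * g + 2) i (x 0) (w 0) -
        ∫ u in (0 : ℝ)..0, x u ^ (i : ℕ) / w u * deriv x u)) := by
      funext i
      rw [Pi.neg_apply, h0, h1, intervalIntegral.integral_same]
      ring
    rw [h2]
    exact neg_mem key
  · intro t₀ ht₀
    have hne : 1 - x t₀ ^ (2 * g + 2) ≠ 0 := by
      rw [← (h t₀ ht₀).1]
      exact pow_ne_zero _ (h t₀ ht₀).2
    obtain ⟨ρ, hρ, σ, H, hσc, hσ, hH, hlam⟩ := locPrim g hne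
    have hnear : ∀ᶠ t in 𝓝 t₀, x t ∈ Metric.ball (x t₀) ρ :=
      hx.continuous.continuousAt.eventually (Metric.ball_mem_nhds _ hρ)
    obtain ⟨δ, hδ, hball⟩ := Metric.eventually_nhds_iff_ball.1 hnear
    have hS : Set.OrdConnected (Set.Icc (0 : ℝ) 1 ∩ Metric.ball t₀ δ) := by
      rw [Real.ball_eq_Ioo]
      exact Set.ordConnected_Icc.inter Set.ordConnected_Ioo
    have hxS : Set.MapsTo x (Set.Icc (0 : ℝ) 1 ∩ Metric.ball t₀ δ) (Metric.ball (x t₀) ρ) :=
      fun u hu => hball u hu.2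
    have hor := hS.isPreconnected.eq_or_eq_neg_of_sq_eq (f := w) (g := fun u => σ (x u))
      hw.continuousOn (hσc.comp hx.continuous.continuousOn hxS) (by
        intro u hu
        show w u ^ 2 = σ (x u) ^ 2
        rw [(h u hu.1).1, (hσ _ (hxS hu)).1]) (fun {u} hu => (hσ _ (hxS hu)).2)
    have hmem₀ : t₀ ∈ Set.Icc (0 : ℝ) 1 ∩ Metric.ball t₀ δ := ⟨ht₀, Metric.mem_ball_self hδ⟩
    filter_upwards [self_mem_nhdsWithin, nhdsWithin_le_nhds (Metric.ball_mem_nhds t₀ hδ)]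
      with t ht htb
    have hu : Set.uIcc t₀ t ⊆ Set.Icc (0 : ℝ) 1 ∩ Metric.ball t₀ δ := hS.uIcc_subset hmem₀ ⟨ht, htb⟩
    rcases hor with h2 | h2
    · exact cm5_loc g x w hx (fun i t => x t ^ (i : ℕ) / w t * deriv x t) (fun i t => rfl) hfc
        (x t₀) ρ σ H hσ hH hlam 1 (Or.inl rfl) t₀ t (fun u hu' => (hu hu').1)
        (fun u hu' => hxS (hu hu')) fun u hu' => by rw [one_mul]; exact h2 (hu hu')
    · exact cm5_loc g x w hx (fun i t => x t ^ (i : ℕ) / w t * deriv x t) (fun i t => rfl) hfc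
        (x t₀) ρ σ H hσ hH hlam (-1) (Or.inr rfl) t₀ t (fun u hu' => (hu hu').1)
        (fun u hu' => hxS (hu hu')) fun u hu' => by rw [neg_one_mul]; exact h2 (hu hu')
  · intro a b c _ _ _ hab hbc
    have h2 := add_mem hab hbc
    refine (congrArg (· ∈ lam g) (funext fun i => ?_)).mp h2
    simp only [Pi.add_apply]
    ring
  · intro a b _ _ hab
    have h2 := neg_mem hab
    refine (congrArg (· ∈ lam g) (funext fun i => ?_)).mp h2
    simp only [Pi.neg_apply]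
    ring

end MP_c1bd5a_ag
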