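import Pool.Agent.Work.MP_c1bd5a_ag.CmP5

/-!
# CmPer (S) : the periods of the Fermat curve of degree `2 g + 2`

`n = 2 g + 2`, `c i = 2 * II n i / n > 0` (`II_pos`).  For a loop `γ` on `fer n`: `x ^ n + y ^ n - 1 = 0`, `F_Y = n y ^ (n - 1) ≠ 0`, so `y ≠ 0`; `w = y ^ (g + 1)`, `w ^ 2 = y ^ n = 1 - x ^ n`.  The integrand of the period of
`X ^ i Y ^ g Z ^ (g - 1 - i)` is `x ^ i y ^ g / (n y ^ (n - 1)) * x' = (1 / n) * (x ^ i / w) * x'` on `[0, 1]` (`n - 1 = g + (g + 1)`); apply `closed_path`.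
-/

set_option autoImplicit false

namespace MP_c1bd5a_ag

open MvPolynomial

theorem exists_periods {g : ℕ} (hg : 1 ≤ g) : ∃ c : Fin g → ℝ, (∀ i, 0 < c i) ∧
    ∀ γ : Loop (fer (2 * g + 2)), ∃ l ∈ cmLat g, ∀ i : Fin g,
      period (X 0 ^ (i : ℕ) * X 1 ^ g * X 2 ^ (g - 1 - (i : ℕ))) γ = c i * l i := by
  have hn0 : (0 : ℝ) < ((2 * g + 2 : ℕ) : ℝ) := by positivity
  refine ⟨fun i => 2 * II (2 * g + 2) i / ((2 * g + 2 : ℕ) : ℝ), fun i => ?_, fun γ => ?_⟩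
  · have := II_pos (n := 2 * g + 2) (by omega) i
    positivity
  · have hF : ∀ x y : ℂ, eval ![x, y, 1] (fer (2 * g + 2)) = x ^ (2 * g + 2) + y ^ (2 * g + 2) - 1 := by
      intro x y
      simp [fer]
    have hFy : ∀ x y : ℂ, eval ![x, y, 1] (pderiv 1 (fer (2 * g + 2))) =
        ((2 * g + 2 : ℕ) : ℂ) * y ^ (2 * g + 1) := by
      intro x y
      unfold fer
      rw [map_sub, map_add, Derivation.leibniz_pow, Derivation.leibniz_pow,
        Derivation.leibniz_pow, pderiv_X_self, pderiv_X_of_ne (by decide),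
        pderiv_X_of_ne (by decide)]
      simp
    have hy : ∀ t ∈ Set.Icc (0 : ℝ) 1, γ.y t ≠ 0 := by
      intro t ht h0
      have h1 := γ.ne t ht
      rw [hFy, h0, zero_pow (by omega), mul_zero] at h1
      exact h1 rfl
    have hw : ∀ t ∈ Set.Icc (0 : ℝ) 1, (γ.y t ^ (g + 1)) ^ 2 = 1 - γ.x t ^ (2 * g + 2) ∧
        γ.y t ^ (g + 1) ≠ 0 := by
      intro t ht
      refine ⟨?_, pow_ne_zero _ (hy t ht)⟩
      have h1 := γ.mem t ht
      rw [hF] at h1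
      rw [← pow_mul, show (g + 1) * 2 = 2 * g + 2 by ring]
      linear_combination h1
    obtain ⟨l, hl, hl2⟩ := closed_path g γ.x (fun t => γ.y t ^ (g + 1)) γ.hx (γ.hy.pow _) hw
      γ.closed.1 (by rw [γ.closed.2])
    refine ⟨l, hl, fun i => ?_⟩
    have h2 : ∫ t in (0 : ℝ)..1, γ.x t ^ (i : ℕ) / γ.y t ^ (g + 1) * deriv γ.x t =
        2 * II (2 * g + 2) i * l i := hl2 i
    have h3 : period (X 0 ^ (i : ℕ) * X 1 ^ g * X 2 ^ (g - 1 - (i : ℕ))) γ =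
        (((2 * g + 2 : ℕ) : ℂ))⁻¹ *
          ∫ t in (0 : ℝ)..1, γ.x t ^ (i : ℕ) / γ.y t ^ (g + 1) * deriv γ.x t := by
      unfold period
      rw [← intervalIntegral.integral_const_mul]
      apply intervalIntegral.integral_congr
      intro t ht
      rw [Set.uIcc_of_le zero_le_one] at ht
      have hyt := hy t ht
      have hn1 : ((2 * g + 2 : ℕ) : ℂ) ≠ 0 := by
        rw [Nat.cast_ne_zero]
        omega
      show eval ![γ.x t, γ.y t, 1] (X 0 ^ (i : ℕ) * X 1 ^ g * X 2 ^ (g - 1 - (i : ℕ))) /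
        eval ![γ.x t, γ.y t, 1] (pderiv 1 (fer (2 * g + 2))) * deriv γ.x t =
        (((2 * g + 2 : ℕ) : ℂ))⁻¹ * (γ.x t ^ (i : ℕ) / γ.y t ^ (g + 1) * deriv γ.x t)
      rw [hFy]
      have h4 : eval ![γ.x t, γ.y t, 1] (X 0 ^ (i : ℕ) * X 1 ^ g * X 2 ^ (g - 1 - (i : ℕ))) =
          γ.x t ^ (i : ℕ) * γ.y t ^ g := by
        simp
      rw [h4, show 2 * g + 1 = g + (g + 1) by ring, pow_add (γ.y t) g (g + 1)]
      have h5 : γ.y t ^ g ≠ 0 := pow_ne_zero _ hyt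
      have h6 : γ.y t ^ (g + 1) ≠ 0 := pow_ne_zero _ hyt
      generalize γ.y t ^ g = a at h5 ⊢
      generalize γ.y t ^ (g + 1) = b at h6 ⊢
      generalize ((2 * g + 2 : ℕ) : ℂ) = N at hn1 ⊢
      field_simp
    rw [h3, h2]
    push_cast
    ring

end MP_c1bd5a_ag
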