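import Pool.Agent.Work.MP_c1bd5a_ag.Push

/-!
# CmQ (S-M) : from the periods to the quotient

`fer n` is smooth for `n ≥ 1`: the partial derivatives are `n X^(n-1)`, `n Y^(n-1)`, `-n Z^(n-1)` (`pderiv_X_pow`...), not all zero at `v ≠ 0`; for `n = 2 g + 2`, `n - 1 ≥ 1`.
`P i = (c i)⁻¹ • X 0 ^ i * X 1 ^ g * X 2 ^ (g - 1 - i)`, homogeneous of degree `2 g - 1` (`2 g - 1 + 3 = 2 g + 2` as `g ≥ 1`), linearly independent (different monomials: compare coefficients,
`MvPolynomial.basisMonomials` or `monomial` injective exponents), periods: `period (a • Q) γ = a * period Q γ`.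
-/

set_option autoImplicit false

namespace MP_c1bd5a_ag

open MvPolynomial

private theorem smooth_fer {n : ℕ} (hn : 2 ≤ n) : SmoothPlane n (fer n) := by
  refine ⟨?_, ?_⟩
  · unfold fer
    exact ((isHomogeneous_X_pow 0 n).add (isHomogeneous_X_pow 1 n)).sub (isHomogeneous_X_pow 2 n)
  · intro v hv
    obtain ⟨j, hj⟩ : ∃ j, v j ≠ 0 := by
      by_contra hcon
      push Not at hcon
      exact hv (funext hcon)
    have hn0 : (n : ℂ) ≠ 0 := by
      have : n ≠ 0 := by omega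
      exact_mod_cast this
    have h10 : (1 : Fin 3) ≠ 0 := by decide
    have h20 : (2 : Fin 3) ≠ 0 := by decide
    have h21 : (2 : Fin 3) ≠ 1 := by decide
    refine ⟨j, ?_⟩
    have hp : v j ^ (n - 1) ≠ 0 := pow_ne_zero _ hj
    fin_cases j
    · have h1 : pderiv (0 : Fin 3) (fer n) = (n : MvPolynomial (Fin 3) ℂ) * X 0 ^ (n - 1) := by
        unfold fer
        rw [map_sub, map_add, Derivation.leibniz_pow, Derivation.leibniz_pow, Derivation.leibniz_pow,
          pderiv_X_self, pderiv_X_of_ne h10, pderiv_X_of_ne h20]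
        simp
      show eval v (pderiv (0 : Fin 3) (fer n)) ≠ 0
      rw [h1]
      simp only [map_mul, map_natCast, map_pow, eval_X]
      exact mul_ne_zero hn0 hp
    · have h1 : pderiv (1 : Fin 3) (fer n) = (n : MvPolynomial (Fin 3) ℂ) * X 1 ^ (n - 1) := by
        unfold fer
        rw [map_sub, map_add, Derivation.leibniz_pow, Derivation.leibniz_pow, Derivation.leibniz_pow,
          pderiv_X_self, pderiv_X_of_ne h10.symm, pderiv_X_of_ne h21]
        simp
      show eval v (pderiv (1 : Fin 3) (fer n)) ≠ 0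
      rw [h1]
      simp only [map_mul, map_natCast, map_pow, eval_X]
      exact mul_ne_zero hn0 hp
    · have h1 : pderiv (2 : Fin 3) (fer n) = - ((n : MvPolynomial (Fin 3) ℂ) * X 2 ^ (n - 1)) := by
        unfold fer
        rw [map_sub, map_add, Derivation.leibniz_pow, Derivation.leibniz_pow, Derivation.leibniz_pow,
          pderiv_X_self, pderiv_X_of_ne h20.symm, pderiv_X_of_ne h21.symm]
        simp
      show eval v (pderiv (2 : Fin 3) (fer n)) ≠ 0
      rw [h1]
      simp only [map_neg, map_mul, map_natCast, map_pow, eval_X]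
      exact neg_ne_zero.2 (mul_ne_zero hn0 hp)

private theorem period_smul' {F : MvPolynomial (Fin 3) ℂ} (a : ℂ) (Q : MvPolynomial (Fin 3) ℂ)
    (γ : Loop F) : period (a • Q) γ = a * period Q γ := by
  unfold period
  rw [← intervalIntegral.integral_const_mul]
  refine intervalIntegral.integral_congr fun t _ => ?_
  simp only [smul_eval]
  ring

private noncomputable def cmqE (g i : ℕ) : Fin 3 →₀ ℕ :=
  Finsupp.single 0 i + Finsupp.single 1 g + Finsupp.single 2 (g - 1 - i)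

private theorem cmq_mono (g i : ℕ) :
    (X 0 ^ i * X 1 ^ g * X 2 ^ (g - 1 - i) : MvPolynomial (Fin 3) ℂ) = monomial (cmqE g i) 1 := by
  rw [X_pow_eq_monomial, X_pow_eq_monomial, X_pow_eq_monomial, monomial_mul, monomial_mul]
  simp [cmqE]

private theorem cmqE_inj (g : ℕ) : Function.Injective fun i : Fin g => cmqE g (i : ℕ) := by
  intro i j hij
  have h1 := DFunLike.congr_fun hij (0 : Fin 3)
  have h10 : (1 : Fin 3) ≠ 0 := by decide
  have h20 : (2 : Fin 3) ≠ 0 := by decide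
  simp only [cmqE, Finsupp.add_apply, Finsupp.single_eq_same, Finsupp.single_eq_of_ne h10.symm,
    Finsupp.single_eq_of_ne h20.symm, add_zero] at h1
  exact Fin.ext h1

theorem isQuotient_fer {g : ℕ} (hg : 1 ≤ g) (c : Fin g → ℝ) (hc : ∀ i, 0 < c i)
    (h : ∀ γ : Loop (fer (2 * g + 2)), ∃ l ∈ cmLat g, ∀ i : Fin g,
      period (X 0 ^ (i : ℕ) * X 1 ^ g * X 2 ^ (g - 1 - (i : ℕ))) γ = c i * l i) :
    IsQuotient (2 * g + 2) (fer (2 * g + 2)) (cmLat g) := by
  have hc0 : ∀ i, (c i : ℂ) ≠ 0 := fun i => by exact_mod_cast (hc i).ne'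
  refine ⟨smooth_fer (by omega), 2 * g - 1, by omega,
    fun i => (c i : ℂ)⁻¹ • (X 0 ^ (i : ℕ) * X 1 ^ g * X 2 ^ (g - 1 - (i : ℕ))), ?_, ?_, ?_⟩
  · intro i
    have h1 : (X 0 ^ (i : ℕ) * X 1 ^ g * X 2 ^ (g - 1 - (i : ℕ)) : MvPolynomial (Fin 3) ℂ).IsHomogeneous
        ((i : ℕ) + g + (g - 1 - (i : ℕ))) :=
      ((isHomogeneous_X_pow 0 _).mul (isHomogeneous_X_pow 1 _)).mul (isHomogeneous_X_pow 2 _)
    have h2 : (i : ℕ) + g + (g - 1 - (i : ℕ)) = 2 * g - 1 := by
      have := i.2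
      omega
    rw [h2] at h1
    beta_reduce
    rw [smul_eq_C_mul]
    have h3 := (isHomogeneous_C (Fin 3) ((c i : ℂ)⁻¹)).mul h1
    rwa [zero_add] at h3
  · have h1 : LinearIndependent ℂ fun i : Fin g =>
        (X 0 ^ (i : ℕ) * X 1 ^ g * X 2 ^ (g - 1 - (i : ℕ)) : MvPolynomial (Fin 3) ℂ) := by
      have h2 := (basisMonomials (Fin 3) ℂ).linearIndependent.comp _ (cmqE_inj g)
      have h3 : ((basisMonomials (Fin 3) ℂ) ∘ fun i : Fin g => cmqE g (i : ℕ)) =
          fun i : Fin g => (X 0 ^ (i : ℕ) * X 1 ^ g * X 2 ^ (g - 1 - (i : ℕ)) :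
            MvPolynomial (Fin 3) ℂ) := by
        funext i
        rw [cmq_mono, Function.comp_apply, coe_basisMonomials]
      rwa [h3] at h2
    exact h1.units_smul fun i => Units.mk0 ((c i : ℂ)⁻¹) (inv_ne_zero (hc0 i))
  · intro γ
    obtain ⟨l, hl, h1⟩ := h γ
    have h2 : (fun i : Fin g => period ((c i : ℂ)⁻¹ •
        (X 0 ^ (i : ℕ) * X 1 ^ g * X 2 ^ (g - 1 - (i : ℕ)))) γ) = l := by
      funext i
      rw [period_smul', h1, inv_mul_cancel_left₀ (hc0 i)]
    show (fun i : Fin g => period ((c i : ℂ)⁻¹ •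
        (X 0 ^ (i : ℕ) * X 1 ^ g * X 2 ^ (g - 1 - (i : ℕ)))) γ) ∈ cmLat g
    rw [h2]
    exact hl

end MP_c1bd5a_ag
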