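import Pool.Agent.Work.MP_c1bd5a_ag.Defs

/-!
# Coef (S-M) : forms of degree `n` and their coefficients

`Idx n` = the exponents `m : Fin 3 →₀ ℕ` with `∑ m = n` (`Finset.mem_finsuppAntidiag`), `pol n c = ∑ m, monomial m (c m)`.
* `pol_hom`: sum of homogeneous monomials (`isHomogeneous_monomial`, `m.degree = n`).
* `exists_pol`: `c m = coeff m F`; `F = ∑ m ∈ F.support, monomial m (coeff m F)` (`MvPolynomial.support_sum_monomial_coeff`),
  the support is contained in the index set; or compare coefficients (`MvPolynomial.ext`).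
* `pol_injective`: `coeff m.1 (pol n c) = c m`.
* `pol_li`: `LinearMap.linearIndependent_iff` (injective linear map).
* continuity: `eval v (pol n c) = ∑ m, c m * ∏ i, v i ^ m.1 i` (`eval_monomial`), and
  `eval v (pderiv i (pol n c)) = ∑ m, c m * eval v (pderiv i (monomial m.1 1))`; for a fixed polynomial `Q`
  the map `v ↦ eval v Q` is continuous (`MvPolynomial.continuous_eval`).
* `hasDerivAt_ev`: the derivative of `s ↦ eval ![a, s, 1] Q` is `eval ![a, s, 1] (pderiv 1 Q)`: induction on `Q`
  (`MvPolynomial.induction_on`), constants, sums, `p * X i`.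
-/

set_option autoImplicit false

namespace MP_c1bd5a_ag

open MvPolynomial

private theorem pol_apply (n : ℕ) (c : Idx n → ℂ) : pol n c = ∑ m : Idx n, monomial m.1 (c m) :=
  rfl

private theorem idx_deg {n : ℕ} (m : Idx n) : m.1.degree = n := by
  have h := (Finset.mem_finsuppAntidiag.1 m.2).1
  rw [Finsupp.degree_eq_sum]
  exact h

private theorem coeff_pol (n : ℕ) (c : Idx n → ℂ) (m : Idx n) : coeff m.1 (pol n c) = c m := by
  classical
  rw [pol_apply, coeff_sum, Finset.sum_eq_single m]
  · rw [coeff_monomial, if_pos rfl]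
  · intro b _ hb
    rw [coeff_monomial, if_neg]
    exact fun h => hb (Subtype.ext h)
  · intro h
    exact absurd (Finset.mem_univ m) h

private theorem ev_pol (n : ℕ) (c : Idx n → ℂ) (v : Fin 3 → ℂ) :
    eval v (pol n c) = ∑ m : Idx n, c m * ∏ i, v i ^ m.1 i := by
  rw [pol_apply, map_sum]
  refine Finset.sum_congr rfl fun m _ => ?_
  rw [eval_monomial, Finsupp.prod_fintype _ _ (fun i => pow_zero _)]

private theorem evd_pol (n : ℕ) (c : Idx n → ℂ) (i : Fin 3) (v : Fin 3 → ℂ) :
    eval v (pderiv i (pol n c)) =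
      ∑ m : Idx n, c m * ((m.1 i : ℂ) * ∏ j, v j ^ ((m.1 - Finsupp.single i 1 : Fin 3 →₀ ℕ) j)) := by
  rw [pol_apply, map_sum, map_sum]
  refine Finset.sum_congr rfl fun m _ => ?_
  rw [pderiv_monomial, eval_monomial, Finsupp.prod_fintype _ _ (fun i => pow_zero _), mul_assoc]

theorem pol_hom (n : ℕ) (c : Idx n → ℂ) : (pol n c).IsHomogeneous n := by
  rw [pol_apply]
  refine IsHomogeneous.sum _ _ _ fun m _ => ?_
  exact isHomogeneous_monomial _ (idx_deg m)

theorem exists_pol {n : ℕ} {F : MvPolynomial (Fin 3) ℂ} (h : F.IsHomogeneous n) :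
    ∃ c, pol n c = F := by
  classical
  refine ⟨fun m => coeff m.1 F, ?_⟩
  ext d
  by_cases hd : d ∈ Finset.finsuppAntidiag (Finset.univ : Finset (Fin 3)) n
  · exact coeff_pol n (fun m => coeff m.1 F) ⟨d, hd⟩
  · have hd' : d.degree ≠ n := by
      intro h'
      apply hd
      rw [Finset.mem_finsuppAntidiag]
      refine ⟨?_, Finset.subset_univ _⟩
      rw [Finsupp.degree_eq_sum] at h'
      exact h'
    rw [h.coeff_eq_zero hd', (pol_hom n _).coeff_eq_zero hd']

theorem pol_injective (n : ℕ) : Function.Injective (pol n) := by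
  intro c c' h
  funext m
  rw [← coeff_pol n c m, h, coeff_pol]

theorem pol_li {g n : ℕ} (c : Fin g → Idx n → ℂ) :
    LinearIndependent ℂ (fun i => pol n (c i)) ↔ LinearIndependent ℂ c := by
  have h := LinearMap.linearIndependent_iff (v := c) (pol n)
    (LinearMap.ker_eq_bot.2 (pol_injective n))
  exact h

theorem continuous_ev (n : ℕ) :
    Continuous fun p : (Idx n → ℂ) × (Fin 3 → ℂ) => eval p.2 (pol n p.1) := by
  simp only [ev_pol]
  refine continuous_finset_sum _ fun m _ => ?_
  refine ((continuous_apply m).comp continuous_fst).mul ?_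
  refine continuous_finset_prod _ fun i _ => ?_
  exact ((continuous_apply i).comp continuous_snd).pow _

theorem continuous_evd (n : ℕ) (i : Fin 3) :
    Continuous fun p : (Idx n → ℂ) × (Fin 3 → ℂ) => eval p.2 (pderiv i (pol n p.1)) := by
  simp only [evd_pol]
  refine continuous_finset_sum _ fun m _ => ?_
  refine ((continuous_apply m).comp continuous_fst).mul (continuous_const.mul ?_)
  refine continuous_finset_prod _ fun i _ => ?_
  exact ((continuous_apply i).comp continuous_snd).pow _

theorem hasDerivAt_ev (Q : MvPolynomial (Fin 3) ℂ) (a s : ℂ) :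
    HasDerivAt (fun s : ℂ => eval ![a, s, 1] Q) (eval ![a, s, 1] (pderiv 1 Q)) s := by
  induction Q using MvPolynomial.induction_on with
  | C c =>
    simp only [eval_C, pderiv_C, map_zero]
    exact hasDerivAt_const s c
  | add p q hp hq =>
    simp only [map_add]
    exact hp.add hq
  | mul_X p i hp =>
    have hX : HasDerivAt (fun s : ℂ => (![a, s, 1] : Fin 3 → ℂ) i)
        (eval ![a, s, 1] (pderiv 1 (X i : MvPolynomial (Fin 3) ℂ))) s := by
      fin_cases i
      · have h1 : pderiv (1 : Fin 3) (X 0 : MvPolynomial (Fin 3) ℂ) = 0 :=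
          pderiv_X_of_ne (by decide)
        simp only [Fin.zero_eta, Fin.isValue, Matrix.cons_val_zero, h1, map_zero]
        exact hasDerivAt_const s a
      · have h1 : pderiv (1 : Fin 3) (X 1 : MvPolynomial (Fin 3) ℂ) = 1 := pderiv_X_self 1
        simp only [Fin.mk_one, Fin.isValue, Matrix.cons_val_one, Matrix.cons_val_zero, h1, map_one]
        exact hasDerivAt_id s
      · have h1 : pderiv (1 : Fin 3) (X 2 : MvPolynomial (Fin 3) ℂ) = 0 :=
          pderiv_X_of_ne (by decide)
        simp only [Fin.reduceFinMk, Fin.isValue, Matrix.cons_val, h1, map_zero]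
        exact hasDerivAt_const s 1
    have h2 := hp.mul hX
    have e1 : (fun s : ℂ => eval ![a, s, 1] (p * X i)) =
        (fun s : ℂ => eval ![a, s, 1] p) * (fun s : ℂ => (![a, s, 1] : Fin 3 → ℂ) i) := by
      funext s
      simp
    have e2 : eval ![a, s, 1] (pderiv 1 (p * X i)) =
        eval ![a, s, 1] (pderiv 1 p) * (![a, s, 1] : Fin 3 → ℂ) i +
          eval ![a, s, 1] p * eval ![a, s, 1] (pderiv 1 (X i : MvPolynomial (Fin 3) ℂ)) := by
      rw [pderiv_mul, map_add, map_mul, map_mul, eval_X]
    rw [e1, e2]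
    exact h2

end MP_c1bd5a_ag
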