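import Pool.Agent.Work.MP_c1bd5a_ag.Defs

/-!
# Rie (M-L) : the period matrix of a symplectic basis

Write `S v w = E (I • v) w`: symmetric (`E (I v) w = E (I I v) (I w) = - E v (I w) = E (I w) v`) and positive definite.
(1) `e 1, ..., e g` are linearly independent over `ℂ`: if `∑ (a j + I b j) e j = 0` (`a`, `b` real) put `v = ∑ a j e j`, `w = ∑ b j e j`, `v = - I w`;
`S w w = E (I w) w = - E v w = 0` (`E (e i) (e j) = 0`), so `w = 0`, `v = 0`; and real linear independence: if `∑ a j e j = 0` then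
`0 = E (f i) (∑ a j e j) = a i N`.  So they are a basis of `ℂ^g` and there is a linear equivalence `T` with `T (Pi.single i 1) = e i`
(`basisOfLinearIndependentOfCardEqFinrank`, `Basis.equivFun`; or `Matrix`).  Define `τ` by `T (fun j => τ j i) = f i`, i.e. `f i = ∑ j, τ j i • e j`.
(2) Let `X = Re τ`, `Y = Im τ`, `G j l = E (I • e j) (e l)` (real, symmetric, positive definite: `∑ x j x l G j l = S v v`, `v = ∑ x j e j ≠ 0`).
`f i = ∑ j, X j i • e j + Y j i • (I • e j)`, so `N δ_il = E (f i) (e l) = ∑ j, Y j i * G j l`: `Yᵀ G = N • 1`.  So `Y = N G⁻¹` is symmetric and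
positive definite (`Matrix.PosDef.inv`, or: `x ⬝ Y x = N⁻¹ (Y x) ⬝ G (Y x)` and `Y` is injective).
(3) `0 = E (f i) (f l) = - (Xᵀ G Y) i l + (Yᵀ G X) i l` (use `E (e j) (e m) = 0`, `E (I e j) (I e m) = 0`, `E (e j) (I e m) = - G m j`), with `G Y = N • 1` (as `Y`, `G` are
symmetric and `Yᵀ G = N`): `N X = N Xᵀ`.  So `τ` is symmetric.
-/

set_option autoImplicit false

namespace MP_c1bd5a_ag

open MvPolynomial

private theorem rie_skew {g : ℕ} {E : (Fin g → ℂ) →ₗ[ℝ] (Fin g → ℂ) →ₗ[ℝ] ℝ}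
    (hE : IsRiemann E) (x y : Fin g → ℂ) : E x y = -E y x := by
  have h1 := hE.alt (x + y)
  simp only [map_add, LinearMap.add_apply, hE.alt x, hE.alt y] at h1
  linear_combination h1

private theorem rie_II {g : ℕ} (v : Fin g → ℂ) : Complex.I • Complex.I • v = -v := by
  rw [smul_smul, Complex.I_mul_I, neg_one_smul]

/-- `E (I v) w` is symmetric -/
private theorem rie_sym {g : ℕ} {E : (Fin g → ℂ) →ₗ[ℝ] (Fin g → ℂ) →ₗ[ℝ] ℝ}
    (hE : IsRiemann E) (v w : Fin g → ℂ) : E (Complex.I • v) w = E (Complex.I • w) v := by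
  have h1 := hE.inv (Complex.I • v) w
  rw [rie_II, map_neg, LinearMap.neg_apply] at h1
  rw [← h1, rie_skew hE v (Complex.I • w), neg_neg]

private theorem rie_smul {g : ℕ} (z : ℂ) (v : Fin g → ℂ) :
    z • v = z.re • v + z.im • (Complex.I • v) := by
  ext i
  rw [Pi.add_apply, Pi.smul_apply, Pi.smul_apply, Pi.smul_apply, Pi.smul_apply, smul_eq_mul,
    smul_eq_mul, Complex.real_smul, Complex.real_smul]
  conv_lhs => rw [← Complex.re_add_im z]
  ring

private theorem rie_sum {g : ℕ} (c : Fin g → ℂ) (e : Fin g → Fin g → ℂ) :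
    ∑ j, c j • e j = ∑ j, (c j).re • e j + Complex.I • ∑ j, (c j).im • e j := by
  rw [Finset.smul_sum, ← Finset.sum_add_distrib]
  refine Finset.sum_congr rfl fun j _ => ?_
  rw [rie_smul, smul_comm Complex.I (c j).im (e j)]

private theorem rie_E {g : ℕ} {Λ : Submodule ℤ (Fin g → ℂ)}
    {E : (Fin g → ℂ) →ₗ[ℝ] (Fin g → ℂ) →ₗ[ℝ] ℝ} {N : ℕ}
    {e f : Fin g → Fin g → ℂ} (h : Sympl Λ E N e f) (i : Fin g) (x : Fin g → ℝ) :
    E (f i) (∑ j, x j • e j) = N * x i := by
  rw [map_sum]
  simp only [map_smul, h.fe, smul_eq_mul, mul_ite, mul_zero]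
  rw [Finset.sum_ite_eq, if_pos (Finset.mem_univ _), mul_comm]

private theorem rie_ee {g : ℕ} {Λ : Submodule ℤ (Fin g → ℂ)}
    {E : (Fin g → ℂ) →ₗ[ℝ] (Fin g → ℂ) →ₗ[ℝ] ℝ} {N : ℕ}
    {e f : Fin g → Fin g → ℂ} (h : Sympl Λ E N e f) (x y : Fin g → ℝ) :
    E (∑ j, x j • e j) (∑ j, y j • e j) = 0 := by
  rw [map_sum]
  refine Finset.sum_eq_zero fun i _ => ?_
  rw [map_smul, map_sum, LinearMap.sum_apply]
  simp [h.ee]

private theorem rie_li {g : ℕ} {Λ : Submodule ℤ (Fin g → ℂ)}
    {E : (Fin g → ℂ) →ₗ[ℝ] (Fin g → ℂ) →ₗ[ℝ] ℝ} (hE : IsRiemann E) {N : ℕ}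
    {e f : Fin g → Fin g → ℂ} (h : Sympl Λ E N e f) : LinearIndependent ℂ e := by
  rw [Fintype.linearIndependent_iff]
  intro c hc
  rw [rie_sum] at hc
  obtain ⟨v, hv⟩ : ∃ v, v = ∑ j, (c j).re • e j := ⟨_, rfl⟩
  obtain ⟨w, hw⟩ : ∃ w, w = ∑ j, (c j).im • e j := ⟨_, rfl⟩
  rw [← hv, ← hw] at hc
  have hN : (N : ℝ) ≠ 0 := by
    have := h.pos
    positivity
  have h1 : v = -(Complex.I • w) := eq_neg_of_add_eq_zero_left hc
  have h2 : E v w = 0 := by
    rw [hv, hw]
    exact rie_ee h _ _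
  have h3 : w = 0 := by
    by_contra h0
    have h4 := hE.pos w h0
    rw [h1, map_neg, LinearMap.neg_apply] at h2
    linarith
  have h4 : v = 0 := by rw [h1, h3, smul_zero, neg_zero]
  intro i
  have h5 := rie_E h i fun j => (c j).re
  have h6 := rie_E h i fun j => (c j).im
  rw [← hv, h4, map_zero] at h5
  rw [← hw, h3, map_zero] at h6
  apply Complex.ext
  · rw [Complex.zero_re]
    exact (mul_eq_zero.1 h5.symm).resolve_left hN
  · rw [Complex.zero_im]
    exact (mul_eq_zero.1 h6.symm).resolve_left hN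

theorem exists_tau {g : ℕ} {Λ : Submodule ℤ (Fin g → ℂ)}
    {E : (Fin g → ℂ) →ₗ[ℝ] (Fin g → ℂ) →ₗ[ℝ] ℝ} (hE : IsRiemann E) {N : ℕ}
    {e f : Fin g → Fin g → ℂ} (h : Sympl Λ E N e f) :
    ∃ τ ∈ Siegel g, ∃ T : (Fin g → ℂ) ≃ₗ[ℂ] (Fin g → ℂ),
      (∀ i, T (Pi.single i 1) = e i) ∧ ∀ i, T (fun j => τ j i) = f i := by
  have hli := rie_li hE h
  obtain ⟨b, hb⟩ : ∃ b : Module.Basis (Fin g) ℂ (Fin g → ℂ), ∀ i, b i = e i :=
    ⟨Module.Basis.mk hli (hli.span_eq_top_of_card_eq_finrank' (by simp)).ge,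
      fun i => Module.Basis.mk_apply _ _ i⟩
  obtain ⟨τ, hτ⟩ : ∃ τ : Matrix (Fin g) (Fin g) ℂ, ∀ j i, τ j i = b.equivFun (f i) j :=
    ⟨Matrix.of fun j i => b.equivFun (f i) j, fun j i => rfl⟩
  have hf : ∀ i, f i = ∑ j, τ j i • e j := by
    intro i
    conv_lhs => rw [← b.sum_equivFun (f i)]
    exact Finset.sum_congr rfl fun j _ => by rw [hτ, hb]
  have hN : (N : ℝ) ≠ 0 := by
    have := h.pos
    positivity
  have hN0 : (0 : ℝ) < N := by
    have := h.pos
    positivity
  -- the real matrices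
  obtain ⟨X, hX⟩ : ∃ X : Matrix (Fin g) (Fin g) ℝ, ∀ j i, X j i = (τ j i).re :=
    ⟨τ.map Complex.re, fun j i => rfl⟩
  obtain ⟨Y, hY⟩ : ∃ Y : Matrix (Fin g) (Fin g) ℝ, ∀ j i, Y j i = (τ j i).im :=
    ⟨τ.map Complex.im, fun j i => rfl⟩
  obtain ⟨G, hG⟩ : ∃ G : Matrix (Fin g) (Fin g) ℝ, ∀ j l, G j l = E (Complex.I • e j) (e l) :=
    ⟨Matrix.of fun j l => E (Complex.I • e j) (e l), fun j i => rfl⟩
  have hGs : G.transpose = G := by
    ext i j
    rw [Matrix.transpose_apply, hG, hG, rie_sym hE]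
  have hf' : ∀ i, f i = ∑ j, X j i • e j + ∑ j, Y j i • (Complex.I • e j) := by
    intro i
    rw [hf, rie_sum, Finset.smul_sum]
    congr 1
    · exact Finset.sum_congr rfl fun j _ => by rw [hX]
    · exact Finset.sum_congr rfl fun j _ => by rw [hY, smul_comm]
  have hfe : ∀ i l, E (f i) (e l) = ∑ j, Y j i * G j l := by
    intro i l
    rw [hf' i, map_add, LinearMap.add_apply, map_sum, map_sum, LinearMap.sum_apply,
      LinearMap.sum_apply]
    simp only [map_smul, LinearMap.smul_apply, smul_eq_mul, h.ee, mul_zero,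
      Finset.sum_const_zero, zero_add, hG]
  have hfi : ∀ i l, E (f i) (Complex.I • e l) = -∑ j, X j i * G j l := by
    intro i l
    rw [hf' i, map_add, LinearMap.add_apply, map_sum, map_sum, LinearMap.sum_apply,
      LinearMap.sum_apply]
    simp only [map_smul, LinearMap.smul_apply, smul_eq_mul, hE.inv, h.ee, mul_zero,
      Finset.sum_const_zero, add_zero, hG]
    rw [← Finset.sum_neg_distrib]
    refine Finset.sum_congr rfl fun j _ => ?_
    rw [rie_skew hE (e j), rie_sym hE (e l)]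
    ring
  have hYG : Y.transpose * G = (N : ℝ) • (1 : Matrix (Fin g) (Fin g) ℝ) := by
    ext i l
    rw [Matrix.mul_apply, Matrix.smul_apply, Matrix.one_apply, smul_eq_mul, mul_ite, mul_one,
      mul_zero, ← h.fe i l, hfe]
    rfl
  have hGY : G * Y = (N : ℝ) • (1 : Matrix (Fin g) (Fin g) ℝ) := by
    have h1 := congrArg Matrix.transpose hYG
    rw [Matrix.transpose_mul, Matrix.transpose_transpose, hGs, Matrix.transpose_smul,
      Matrix.transpose_one] at h1
    exact h1
  have hYs : Y.transpose = Y := by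
    have h1 : (N : ℝ) • Y.transpose = (N : ℝ) • Y := by
      calc (N : ℝ) • Y.transpose = Y.transpose * ((N : ℝ) • 1) := by
            rw [Matrix.mul_smul, mul_one]
        _ = (Y.transpose * G) * Y := by rw [← hGY, Matrix.mul_assoc]
        _ = (N : ℝ) • Y := by rw [hYG, Matrix.smul_mul, one_mul]
    exact smul_right_injective _ hN h1
  have hXs : X.transpose = X := by
    have h1 : X.transpose * G * Y = (N : ℝ) • X := by
      ext i l
      have h2 := h.ff i l
      rw [hf' l, map_add, map_sum, map_sum] at h2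
      simp only [map_smul, h.fe, hfi, smul_eq_mul] at h2
      have h3 : ∑ x, X x l * (if i = x then (N : ℝ) else 0) = N * X i l := by
        simp only [mul_ite, mul_zero]
        rw [Finset.sum_ite_eq, if_pos (Finset.mem_univ _), mul_comm]
      rw [h3] at h2
      rw [Matrix.mul_apply, Matrix.smul_apply, smul_eq_mul]
      have h4 : ∀ x, Y x l * -∑ j, X j i * G j x = -((X.transpose * G) i x * Y x l) := by
        intro x
        rw [Matrix.mul_apply]
        simp only [Matrix.transpose_apply]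
        ring
      rw [Finset.sum_congr rfl fun x _ => h4 x, Finset.sum_neg_distrib] at h2
      linarith
    have h2 : (N : ℝ) • X.transpose = (N : ℝ) • X := by
      rw [← h1, Matrix.mul_assoc, hGY, Matrix.mul_smul, mul_one]
    exact smul_right_injective _ hN h2
  refine ⟨τ, ⟨?_, ?_⟩, b.equivFun.symm, ?_, ?_⟩
  · unfold Matrix.IsSymm
    ext i j
    rw [Matrix.transpose_apply]
    apply Complex.ext
    · rw [← hX, ← hX]
      exact congrFun (congrFun hXs i) j
    · rw [← hY, ← hY]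
      exact congrFun (congrFun hYs i) j
  · have hYm : τ.map Complex.im = Y := by
      ext i j
      rw [hY]
      rfl
    rw [hYm]
    apply Matrix.PosDef.of_dotProduct_mulVec_pos
    · unfold Matrix.IsHermitian
      rw [Matrix.conjTranspose_eq_transpose_of_trivial, hYs]
    · intro x hx
      rw [star_trivial]
      obtain ⟨z, hz⟩ : ∃ z, z = Y.mulVec x := ⟨_, rfl⟩
      have hGz : G.mulVec z = (N : ℝ) • x := by
        rw [hz, Matrix.mulVec_mulVec, hGY, Matrix.smul_mulVec, Matrix.one_mulVec]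
      have hz0 : z ≠ 0 := by
        intro h0
        rw [h0, Matrix.mulVec_zero] at hGz
        exact hx ((smul_eq_zero.1 hGz.symm).resolve_left hN)
      obtain ⟨v, hv⟩ : ∃ v, v = ∑ j, (z j) • e j := ⟨_, rfl⟩
      have hv0 : v ≠ 0 := by
        intro h0
        apply hz0
        ext i
        have h5 := rie_E h i z
        rw [← hv, h0, map_zero] at h5
        exact (mul_eq_zero.1 h5.symm).resolve_left hN
      have h1 := hE.pos v hv0
      have h2 : E (Complex.I • v) v = N * (x ⬝ᵥ Y.mulVec x) := by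
        have h3 : Complex.I • v = ∑ j, z j • (Complex.I • e j) := by
          rw [hv, Finset.smul_sum]
          exact Finset.sum_congr rfl fun j _ => smul_comm _ _ _
        rw [h3, map_sum, LinearMap.sum_apply]
        have h4 : ∀ j, E (z j • Complex.I • e j) v = z j * ((N : ℝ) * x j) := by
          intro j
          rw [map_smul, LinearMap.smul_apply, smul_eq_mul]
          congr 1
          have h5 := congrFun hGz j
          rw [Pi.smul_apply, smul_eq_mul] at h5
          rw [← h5, hv, map_sum]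
          unfold Matrix.mulVec
          rw [dotProduct]
          refine Finset.sum_congr rfl fun l _ => ?_
          rw [map_smul, hG, smul_eq_mul, mul_comm]
        rw [Finset.sum_congr rfl fun j _ => h4 j, ← hz, dotProduct, Finset.mul_sum]
        exact Finset.sum_congr rfl fun j _ => by ring
      rw [h2] at h1
      exact (mul_pos_iff_of_pos_left hN0).1 h1
  · intro i
    rw [Module.Basis.equivFun_symm_apply]
    simp [hb, Pi.single_apply]
  · intro i
    have h1 : (fun j => τ j i) = b.equivFun (f i) := by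
      ext j
      exact hτ j i
    rw [h1, LinearEquiv.symm_apply_apply]

end MP_c1bd5a_ag
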