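import Pool.Agent.Work.MP_c1bd5a_ag.Bas
import Pool.Agent.Work.MP_c1bd5a_ag.Rie

/-!
# Cov (S-M) : every abelian variety is isogenous to a principally polarized one

Take `E, N, e, f` from `exists_sympl` and `τ, T` from `exists_tau`.  `a + τ b = ∑ a i • Pi.single i 1 + ∑ b i • (column i of τ)`, so
`T (a + τ b) = ∑ a i • e i + ∑ b i • f i ∈ Λ`: `exists_cover`.
`exists_cocover`: for `v ∈ Λ` let `a j = E (f j) v`, `b j = - E (e j) v` (integers).  Claim `N • v = ∑ a j • e j + ∑ b j • f j = T (a + τ b)`.  The difference `u` satisfies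
`E (e j) u = 0`, `E (f j) u = 0` for all `j`; the vectors `e j`, `f j` span `ℂ^g` over `ℝ` (images under `T` of `Pi.single i 1` and of the columns of `τ`, and
`Im τ` is invertible; or: they are `2 g` vectors, linearly independent over `ℝ` by the pairing), so `E w u = 0` for all `w`, `E (I • u) u = 0`,
`u = 0`.  So `T' = N • T.symm`.
-/

set_option autoImplicit false

namespace MP_c1bd5a_ag

open MvPolynomial

private theorem lat_vec {g : ℕ} {τ : Matrix (Fin g) (Fin g) ℂ}
    {T : (Fin g → ℂ) ≃ₗ[ℂ] (Fin g → ℂ)} {e f : Fin g → Fin g → ℂ}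
    (he : ∀ i, T (Pi.single i 1) = e i) (hf : ∀ i, T (fun j => τ j i) = f i) (a b : Fin g → ℂ) :
    T (a + τ.mulVec b) = ∑ i, a i • e i + ∑ i, b i • f i := by
  have h1 : a = ∑ i, a i • (Pi.single i 1 : Fin g → ℂ) := by
    funext j
    rw [Finset.sum_apply, Finset.sum_eq_single j]
    · simp
    · intro i _ hij
      rw [Pi.smul_apply, Pi.single_eq_of_ne hij.symm, smul_zero]
    · intro h
      exact absurd (Finset.mem_univ j) h
  have h2 : τ.mulVec b = ∑ i, b i • (fun j => τ j i : Fin g → ℂ) := by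
    funext j
    rw [Finset.sum_apply]
    simp only [Matrix.mulVec, dotProduct, Pi.smul_apply, smul_eq_mul]
    exact Finset.sum_congr rfl fun i _ => mul_comm _ _
  rw [map_add]
  congr 1
  · conv_lhs => rw [h1]
    rw [map_sum]
    exact Finset.sum_congr rfl fun i _ => by rw [map_smul, he]
  · rw [h2, map_sum]
    exact Finset.sum_congr rfl fun i _ => by rw [map_smul, hf]

theorem exists_cover {g : ℕ} {Λ : Submodule ℤ (Fin g → ℂ)} (h : IsAbelian Λ) :
    ∃ τ ∈ Siegel g, ∃ T : (Fin g → ℂ) ≃ₗ[ℂ] (Fin g → ℂ), ∀ v ∈ lat τ, T v ∈ Λ := by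
  obtain ⟨E, N, e, f, hE, hS, -⟩ := exists_sympl h
  obtain ⟨τ, hτ, T, he, hf⟩ := exists_tau hE hS
  refine ⟨τ, hτ, T, ?_⟩
  rintro v ⟨a, b, rfl⟩
  rw [lat_vec he hf]
  refine Λ.add_mem (Λ.sum_mem fun i _ => ?_) (Λ.sum_mem fun i _ => ?_)
  · rw [Int.cast_smul_eq_zsmul]
    exact Λ.smul_mem _ (hS.me i)
  · rw [Int.cast_smul_eq_zsmul]
    exact Λ.smul_mem _ (hS.mf i)

theorem exists_cocover {g : ℕ} {Λ : Submodule ℤ (Fin g → ℂ)} (h : IsAbelian Λ) :
    ∃ τ ∈ Siegel g, ∃ T : (Fin g → ℂ) ≃ₗ[ℂ] (Fin g → ℂ), ∀ v ∈ Λ, T v ∈ lat τ := by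
  obtain ⟨E, N, e, f, hE, hS, hint⟩ := exists_sympl h
  obtain ⟨τ, hτ, T, he, hf⟩ := exists_tau hE hS
  have hN : (N : ℂ) ≠ 0 := Nat.cast_ne_zero.2 hS.pos.ne'
  have hskew : ∀ v w, E v w = -E w v := by
    intro v w
    have h1 := hE.alt (v + w)
    have h2 : E (v + w) (v + w) = E v v + E v w + (E w v + E w w) := by
      rw [map_add E v w, LinearMap.add_apply, map_add (E v), map_add (E w)]
    rw [h2, hE.alt v, hE.alt w] at h1
    linarith
  refine ⟨τ, hτ, T.symm.trans (LinearEquiv.smulOfNeZero ℂ (Fin g → ℂ) (N : ℂ) hN), ?_⟩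
  intro v hv
  choose a ha using fun j => hint (f j) (hS.mf j) v hv
  choose b' hb' using fun j => hint (e j) (hS.me j) v hv
  -- the difference
  set S : Fin g → ℂ := ∑ i, ((a i : ℤ) : ℝ) • e i + ∑ i, ((-b' i : ℤ) : ℝ) • f i with hSdef
  have hES : ∀ w, E w S = ∑ i, (a i : ℝ) * E w (e i) - ∑ i, (b' i : ℝ) * E w (f i) := by
    intro w
    rw [hSdef, map_add, map_sum, map_sum, sub_eq_add_neg, ← Finset.sum_neg_distrib]
    congr 1
    · exact Finset.sum_congr rfl fun i _ => by rw [map_smul, smul_eq_mul]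
    · exact Finset.sum_congr rfl fun i _ => by
        rw [map_smul, smul_eq_mul]
        push_cast
        ring
  set u : Fin g → ℂ := (N : ℝ) • v - S with hu
  have hEu : ∀ w, E w u = N * E w v - E w S := by
    intro w
    rw [hu, map_sub, map_smul, smul_eq_mul]
  have hue : ∀ j, E (e j) u = 0 := by
    intro j
    rw [hEu, hES, hb']
    have h1 : ∑ i, (a i : ℝ) * E (e j) (e i) = 0 :=
      Finset.sum_eq_zero fun i _ => by rw [hS.ee, mul_zero]
    have h2 : ∑ i, (b' i : ℝ) * E (e j) (f i) = -(N * b' j) := by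
      rw [Finset.sum_eq_single j]
      · rw [hskew, hS.fe, if_pos rfl]
        ring
      · intro i _ hij
        rw [hskew, hS.fe, if_neg hij]
        ring
      · intro hj
        exact absurd (Finset.mem_univ j) hj
    rw [h1, h2]
    ring
  have huf : ∀ j, E (f j) u = 0 := by
    intro j
    rw [hEu, hES, ha]
    have h1 : ∑ i, (b' i : ℝ) * E (f j) (f i) = 0 :=
      Finset.sum_eq_zero fun i _ => by rw [hS.ff, mul_zero]
    have h2 : ∑ i, (a i : ℝ) * E (f j) (e i) = N * a j := by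
      rw [Finset.sum_eq_single j]
      · rw [hS.fe, if_pos rfl]
        ring
      · intro i _ hij
        rw [hS.fe, if_neg hij.symm]
        ring
      · intro hj
        exact absurd (Finset.mem_univ j) hj
    rw [h1, h2]
    ring
  -- the vectors e, f span over the reals
  have hspan : ∀ w : Fin g → ℂ, ∃ p q : Fin g → ℝ, w = ∑ i, p i • e i + ∑ i, q i • f i := by
    intro w
    set x := T.symm w with hx
    have hYu : IsUnit (τ.map Complex.im).det := isUnit_iff_ne_zero.2 hτ.2.det_pos.ne'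
    set q : Fin g → ℝ := ((τ.map Complex.im)⁻¹).mulVec (fun i => (x i).im) with hq
    have hYq : (τ.map Complex.im).mulVec q = fun i => (x i).im := by
      rw [hq, Matrix.mulVec_mulVec, Matrix.mul_nonsing_inv _ hYu, Matrix.one_mulVec]
    refine ⟨fun i => (x i).re - ((τ.map Complex.re).mulVec q) i, q, ?_⟩
    have hxe : x = (fun i => (((x i).re - ((τ.map Complex.re).mulVec q) i : ℝ) : ℂ)) +
        τ.mulVec (fun i => (q i : ℂ)) := by
      funext i
      have h1 : (τ.mulVec (fun i => (q i : ℂ))) i =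
          ((((τ.map Complex.re).mulVec q) i : ℝ) : ℂ) +
          ((((τ.map Complex.im).mulVec q) i : ℝ) : ℂ) * Complex.I := by
        simp only [Matrix.mulVec, dotProduct, Matrix.map_apply]
        push_cast
        rw [Finset.sum_mul, ← Finset.sum_add_distrib]
        refine Finset.sum_congr rfl fun j _ => ?_
        conv_lhs => rw [← Complex.re_add_im (τ i j)]
        ring
      rw [Pi.add_apply, h1, hYq]
      push_cast
      conv_lhs => rw [← Complex.re_add_im (x i)]
      ring
    have h2 : w = T x := by rw [hx, T.apply_symm_apply]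
    rw [h2]
    conv_lhs => rw [hxe]
    rw [lat_vec he hf]
    congr 1
  have huw : ∀ w, E w u = 0 := by
    intro w
    obtain ⟨p, q, hw⟩ := hspan w
    rw [hw, map_add, LinearMap.add_apply, map_sum, map_sum, LinearMap.sum_apply,
      LinearMap.sum_apply, Finset.sum_eq_zero, Finset.sum_eq_zero, add_zero]
    · intro i _
      rw [map_smul, LinearMap.smul_apply, huf, smul_zero]
    · intro i _
      rw [map_smul, LinearMap.smul_apply, hue, smul_zero]
  have hu0 : u = 0 := by
    by_contra hne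
    have := hE.pos u hne
    rw [huw] at this
    exact lt_irrefl _ this
  have hNv : (N : ℂ) • v = T ((fun i => (a i : ℂ)) + τ.mulVec fun i => ((-b' i : ℤ) : ℂ)) := by
    rw [lat_vec he hf]
    have h1 : (N : ℝ) • v = S := sub_eq_zero.1 (hu ▸ hu0)
    have h2 : (N : ℂ) • v = (N : ℝ) • v := by
      funext i
      simp
    rw [h2, h1, hSdef]
    congr 1
  refine ⟨a, fun i => -b' i, ?_⟩
  have h3 : (T.symm.trans (LinearEquiv.smulOfNeZero ℂ (Fin g → ℂ) (N : ℂ) hN)) v =
      (N : ℂ) • T.symm v := rfl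
  rw [h3, ← map_smul, hNv, T.symm_apply_apply]

end MP_c1bd5a_ag
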