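import Pool.Agent.Work.MP_c1bd5a_ag.Defs

/-!
# Darb (M) : symplectic bases (pure linear algebra, only Mathlib)

Strong induction on `n`.  If `V = 0`: `g = 0`.  Otherwise take `e ≠ 0`; by nondegeneracy there is `w` with `B e w ≠ 0`, so `B w e ≠ 0` (alternating:
`B x y = - B y x`, expand `B (x + y) (x + y) = 0`); `f = (B w e)⁻¹ • w`, so `B f e = 1`, `B e f = -1`.  `W = {v | B e v = 0 ∧ B f v = 0}`, a subspace.  Every `v` is
`v = (B f v) • e - (B e v) • f + w'` with `w' ∈ W`; so `V = span {e, f} ⊕ W` and `finrank W + 2 = finrank V` (e.g. `W` is the kernel of the surjective map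
`v ↦ (B e v, B f v)` to `K × K`, rank-nullity), and the restriction of `B` to `W` is alternating and nondegenerate (if `v ∈ W` is orthogonal to `W` it is
orthogonal to `e`, `f` and so to everything).  Apply the induction hypothesis (`n - 2`) to `W` and put `e`, `f` in front (`Fin.cons`; cases `Fin.cases` for the indices).
-/

set_option autoImplicit false

namespace MP_c1bd5a_ag

open MvPolynomial

private theorem darb_skew {K V : Type*} [Field K] [AddCommGroup V] [Module K V]
    (B : V →ₗ[K] V →ₗ[K] K) (h : ∀ v, B v v = 0) (x y : V) : B x y = -B y x := by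
  have h1 := h (x + y)
  simp only [map_add, LinearMap.add_apply, h x, h y] at h1
  linear_combination h1

theorem darboux {K : Type*} [Field K] (n : ℕ) : ∀ (V : Type) [AddCommGroup V] [Module K V]
    [FiniteDimensional K V] (B : V →ₗ[K] V →ₗ[K] K), Module.finrank K V = n →
    (∀ v, B v v = 0) → (∀ v, (∀ w, B v w = 0) → v = 0) →
    ∃ (g : ℕ) (e f : Fin g → V), n = 2 * g ∧
      (∀ i j, B (f i) (e j) = if i = j then 1 else 0) ∧ (∀ i j, B (e i) (e j) = 0) ∧
      ∀ i j, B (f i) (f j) = 0 := by
  induction n using Nat.strong_induction_on with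
  | _ n ih =>
  intro V _ _ _ B hn halt hnd
  by_cases hn0 : n = 0
  · subst hn0
    exact ⟨0, Fin.elim0, Fin.elim0, rfl, fun i => i.elim0, fun i => i.elim0, fun i => i.elim0⟩
  have hpos : 0 < Module.finrank K V := by omega
  have hnt : Nontrivial V := Module.finrank_pos_iff.1 hpos
  obtain ⟨e, he⟩ := exists_ne (0 : V)
  obtain ⟨w, hw⟩ : ∃ w, B e w ≠ 0 := by
    by_contra hc
    push Not at hc
    exact he (hnd e hc)
  have hwe : B w e ≠ 0 := by
    rw [darb_skew B halt w e]
    exact neg_ne_zero.2 hw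
  obtain ⟨f, hf⟩ : ∃ f, f = (B w e)⁻¹ • w := ⟨_, rfl⟩
  have hfe : B f e = 1 := by
    rw [hf, map_smul, LinearMap.smul_apply, smul_eq_mul, inv_mul_cancel₀ hwe]
  have hef : B e f = -1 := by rw [darb_skew B halt e f, hfe]
  obtain ⟨φ, hφd⟩ : ∃ φ : V →ₗ[K] K × K, ∀ v, φ v = (B e v, B f v) :=
    ⟨(B e).prod (B f), fun v => rfl⟩
  have hφ : Function.Surjective φ := by
    rintro ⟨a, b⟩
    refine ⟨b • e - a • f, ?_⟩
    rw [hφd]
    simp [halt, hef, hfe]
  obtain ⟨W, hW⟩ : ∃ W, W = LinearMap.ker φ := ⟨_, rfl⟩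
  have hWm : ∀ v, v ∈ W ↔ B e v = 0 ∧ B f v = 0 := by
    intro v
    rw [hW, LinearMap.mem_ker, hφd, Prod.mk_eq_zero]
  have hdim : Module.finrank K W + 2 = n := by
    have h1 := LinearMap.finrank_range_add_finrank_ker φ
    rw [LinearMap.range_eq_top.2 hφ, finrank_top, Module.finrank_prod, Module.finrank_self,
      ← hW] at h1
    omega
  obtain ⟨g, e', f', hg, h1, h2, h3⟩ := ih (Module.finrank K W) (by omega) W
    (B.domRestrict₁₂ W W) rfl (fun v => halt v) (by
      intro v hv
      have h4 := (hWm _).1 v.2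
      apply Subtype.ext
      apply hnd
      intro u
      have hw' : u - (B f u) • e + (B e u) • f ∈ W := by
        rw [hWm]
        constructor
        · rw [map_add, map_sub, map_smul, map_smul, halt, hef]
          simp
        · rw [map_add, map_sub, map_smul, map_smul, halt, hfe]
          simp
      have h5 : B v.1 (u - (B f u) • e + (B e u) • f) = 0 := hv ⟨_, hw'⟩
      rw [map_add, map_sub, map_smul, map_smul, darb_skew B halt v.1 e,
        darb_skew B halt v.1 f, h4.1, h4.2] at h5
      simpa using h5)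
  refine ⟨g + 1, Fin.cons e fun i => (e' i : V), Fin.cons f fun i => (f' i : V), by omega,
    ?_, ?_, ?_⟩
  · intro i j
    refine Fin.cases ?_ (fun i => ?_) i <;> refine Fin.cases ?_ (fun j => ?_) j
    · rw [Fin.cons_zero, Fin.cons_zero, hfe, if_pos rfl]
    · rw [Fin.cons_zero, Fin.cons_succ, ((hWm _).1 (e' j).2).2,
        if_neg (Fin.succ_ne_zero j).symm]
    · rw [Fin.cons_zero, Fin.cons_succ, darb_skew B halt, ((hWm _).1 (f' i).2).1, neg_zero,
        if_neg (Fin.succ_ne_zero i)]
    · rw [Fin.cons_succ, Fin.cons_succ]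
      have h5 : B (f' i : V) (e' j : V) = if i = j then 1 else 0 := h1 i j
      rw [h5]
      by_cases hij : i = j
      · rw [if_pos hij, if_pos (by rw [hij])]
      · rw [if_neg hij, if_neg fun h => hij (Fin.succ_injective _ h)]
  · intro i j
    refine Fin.cases ?_ (fun i => ?_) i <;> refine Fin.cases ?_ (fun j => ?_) j
    · rw [Fin.cons_zero, halt]
    · rw [Fin.cons_zero, Fin.cons_succ, ((hWm _).1 (e' j).2).1]
    · rw [Fin.cons_zero, Fin.cons_succ, darb_skew B halt, ((hWm _).1 (e' i).2).1, neg_zero]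
    · rw [Fin.cons_succ, Fin.cons_succ]
      exact h2 i j
  · intro i j
    refine Fin.cases ?_ (fun i => ?_) i <;> refine Fin.cases ?_ (fun j => ?_) j
    · rw [Fin.cons_zero, halt]
    · rw [Fin.cons_zero, Fin.cons_succ, ((hWm _).1 (f' j).2).2]
    · rw [Fin.cons_zero, Fin.cons_succ, darb_skew B halt, ((hWm _).1 (f' i).2).2, neg_zero]
    · rw [Fin.cons_succ, Fin.cons_succ]
      exact h3 i j

end MP_c1bd5a_ag
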