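import Mathlib

/-!
# MP_c1bd5a_ag : definitions (FIXED: do not change; tell helper97 if something is wrong)

Quotients of Jacobians of smooth plane curves, in the language of period lattices.
-/

set_option autoImplicit false

namespace MP_c1bd5a_ag

open MvPolynomial

/-- `F(X, Y, Z) = 0` is a smooth plane curve of degree `d` over the complex numbers. -/
structure SmoothPlane (d : ℕ) (F : MvPolynomial (Fin 3) ℂ) : Prop where
  hom : F.IsHomogeneous d
  smooth : ∀ v : Fin 3 → ℂ, v ≠ 0 → ∃ i, eval v (pderiv i F) ≠ 0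

/-- A closed path `t ↦ (x t : y t : 1)`, `0 ≤ t ≤ 1`, on the curve `F = 0` which avoids the finitely
many points with `F_Y = 0` or `Z = 0`.  (These paths generate the first homology group of the
compact Riemann surface of a smooth plane curve of degree at least two.) -/
structure Loop (F : MvPolynomial (Fin 3) ℂ) where
  x : ℝ → ℂ
  y : ℝ → ℂ
  hx : ContDiff ℝ 1 x
  hy : Continuous y
  mem : ∀ t ∈ Set.Icc (0 : ℝ) 1, eval ![x t, y t, 1] F = 0
  ne : ∀ t ∈ Set.Icc (0 : ℝ) 1, eval ![x t, y t, 1] (pderiv 1 F) ≠ 0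
  closed : x 0 = x 1 ∧ y 0 = y 1

/-- The period of the differential form `P dx / F_Y` over a closed path.  (If `F` is smooth of
degree `d ≥ 3` the holomorphic differential forms are the `P dx / F_Y` with `P` homogeneous of
degree `d - 3`.) -/
noncomputable def period {F : MvPolynomial (Fin 3) ℂ} (P : MvPolynomial (Fin 3) ℂ)
    (γ : Loop F) : ℂ :=
  ∫ t in (0 : ℝ)..1, eval ![γ.x t, γ.y t, 1] P / eval ![γ.x t, γ.y t, 1] (pderiv 1 F) *
    deriv γ.x t

/-- The complex torus `ℂ^g / Λ` is a quotient of the Jacobian of the smooth plane curve `F = 0` of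
degree `d`.  (The Jacobian is the dual of the space `H⁰(K)` of holomorphic differential forms
modulo periods, so a surjective homomorphism onto `ℂ^g / Λ` is given by `g` linearly independent
forms all of whose period vectors lie in `Λ`.) -/
def IsQuotient {g : ℕ} (d : ℕ) (F : MvPolynomial (Fin 3) ℂ) (Λ : Submodule ℤ (Fin g → ℂ)) :
    Prop :=
  SmoothPlane d F ∧ ∃ n, n + 3 = d ∧ ∃ P : Fin g → MvPolynomial (Fin 3) ℂ,
    (∀ i, (P i).IsHomogeneous n) ∧ LinearIndependent ℂ P ∧
      ∀ γ : Loop F, (fun i => period (P i) γ) ∈ Λ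

/-- `ℂ^g / Λ` is an abelian variety: `Λ` is a lattice which has a Riemann form. -/
structure IsAbelian {g : ℕ} (Λ : Submodule ℤ (Fin g → ℂ)) : Prop where
  discrete : DiscreteTopology Λ
  span : Submodule.span ℝ (Λ : Set (Fin g → ℂ)) = ⊤
  riemann : ∃ E : (Fin g → ℂ) →ₗ[ℝ] (Fin g → ℂ) →ₗ[ℝ] ℝ, (∀ v, E v v = 0) ∧
    (∀ v w, E (Complex.I • v) (Complex.I • w) = E v w) ∧
    (∀ v, v ≠ 0 → 0 < E (Complex.I • v) v) ∧ ∀ v ∈ Λ, ∀ w ∈ Λ, ∃ n : ℤ, E v w = n

/-- every abelian variety of dimension `g` is a quotient of the Jacobian of a smooth plane curve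
of degree `d` -/
def AllOf (d g : ℕ) : Prop :=
  ∀ Λ : Submodule ℤ (Fin g → ℂ), IsAbelian Λ → ∃ F, IsQuotient d F Λ

/-- Question Q1: every abelian variety is a quotient of the Jacobian of a smooth plane curve. -/
def Q1 : Prop :=
  ∀ (g : ℕ) (Λ : Submodule ℤ (Fin g → ℂ)), IsAbelian Λ → ∃ d F, IsQuotient d F Λ

/-- Siegel's upper half space: symmetric matrices with positive definite imaginary part -/
def Siegel (g : ℕ) : Set (Matrix (Fin g) (Fin g) ℂ) :=
  {τ | τ.IsSymm ∧ (τ.map Complex.im).PosDef}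

/-- the lattice `ℤ^g + τ ℤ^g` of the principally polarized abelian variety `A_τ` -/
def lat {g : ℕ} (τ : Matrix (Fin g) (Fin g) ℂ) : Submodule ℤ (Fin g → ℂ) where
  carrier := {v | ∃ a b : Fin g → ℤ, v = (fun i => (a i : ℂ)) + τ.mulVec fun i => (b i : ℂ)}
  add_mem' := by
    rintro v w ⟨a, b, rfl⟩ ⟨a', b', rfl⟩
    refine ⟨a + a', b + b', ?_⟩
    ext i
    simp [Matrix.mulVec, dotProduct, mul_add, Finset.sum_add_distrib]
    ring
  zero_mem' := ⟨0, 0, by ext i; simp [Matrix.mulVec, dotProduct]⟩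
  smul_mem' := by
    rintro n v ⟨a, b, rfl⟩
    refine ⟨n • a, n • b, ?_⟩
    ext i
    simp [Matrix.mulVec, dotProduct, Finset.mul_sum]
    refine Finset.sum_congr rfl fun j _ => ?_
    ring

theorem mem_lat {g : ℕ} {τ : Matrix (Fin g) (Fin g) ℂ} {v : Fin g → ℂ} :
    v ∈ lat τ ↔ ∃ a b : Fin g → ℤ, v = (fun i => (a i : ℂ)) + τ.mulVec fun i => (b i : ℂ) :=
  Iff.rfl

/-- the moduli points of the principally polarized abelian varieties which are quotients of
Jacobians of smooth plane curves of degree `d` -/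
def Loc (d g : ℕ) : Set (Siegel g) := {τ | ∃ F, IsQuotient d F (lat τ.1)}

/-! ## auxiliary definitions (only used in the proofs) -/

/-- the rational isogenies of the Siegel parabolic subgroup: `τ ↦ A τ Aᵀ + B` -/
noncomputable def act {g : ℕ} (A B : Matrix (Fin g) (Fin g) ℝ) (τ : Matrix (Fin g) (Fin g) ℂ) :
    Matrix (Fin g) (Fin g) ℂ :=
  A.map (fun x : ℝ => (x : ℂ)) * τ * (A.map (fun x : ℝ => (x : ℂ))).transpose +
    B.map (fun x : ℝ => (x : ℂ))

/-- a real matrix from a rational one -/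
noncomputable def rl {g : ℕ} (A : Matrix (Fin g) (Fin g) ℚ) : Matrix (Fin g) (Fin g) ℝ :=
  A.map (fun x : ℚ => (x : ℝ))

/-- exponents of the monomials of degree `n` in three variables -/
abbrev Idx (n : ℕ) : Type := ↥(Finset.finsuppAntidiag (Finset.univ : Finset (Fin 3)) n)

/-- the form of degree `n` with given coefficients -/
noncomputable def pol (n : ℕ) : (Idx n → ℂ) →ₗ[ℂ] MvPolynomial (Fin 3) ℂ where
  toFun c := ∑ m : Idx n, monomial m.1 (c m)
  map_add' c c' := by simp [Finset.sum_add_distrib]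
  map_smul' a c := by simp [Finset.smul_sum, smul_monomial]

/-- the relation: all periods lie in the lattice -/
def Rel (d n g : ℕ) : Set ((Idx d → ℂ) × (Fin g → Idx n → ℂ) × Siegel g) :=
  {q | ∀ γ : Loop (pol d q.1), (fun i => period (pol n (q.2.1 i)) γ) ∈ lat q.2.2.1}

/-- `E` is a Riemann form (without integrality) -/
structure IsRiemann {g : ℕ} (E : (Fin g → ℂ) →ₗ[ℝ] (Fin g → ℂ) →ₗ[ℝ] ℝ) : Prop where
  alt : ∀ v, E v v = 0
  inv : ∀ v w, E (Complex.I • v) (Complex.I • w) = E v w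
  pos : ∀ v, v ≠ 0 → 0 < E (Complex.I • v) v

/-- vectors `e i`, `f i` of `Λ` which are a symplectic basis up to the factor `N` -/
structure Sympl {g : ℕ} (Λ : Submodule ℤ (Fin g → ℂ))
    (E : (Fin g → ℂ) →ₗ[ℝ] (Fin g → ℂ) →ₗ[ℝ] ℝ) (N : ℕ) (e f : Fin g → Fin g → ℂ) : Prop where
  pos : 0 < N
  me : ∀ i, e i ∈ Λ
  mf : ∀ i, f i ∈ Λ
  ee : ∀ i j, E (e i) (e j) = 0
  ff : ∀ i j, E (f i) (f j) = 0
  fe : ∀ i j, E (f i) (e j) = if i = j then (N : ℝ) else 0

/-! ## the example: the Fermat curve of degree `2 g + 2` -/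

/-- the Fermat form `X^n + Y^n - Z^n` -/
noncomputable def fer (n : ℕ) : MvPolynomial (Fin 3) ℂ := X 0 ^ n + X 1 ^ n - X 2 ^ n

/-- `(ζ^(k (i + 1)))_i`, `ζ = exp(2 π I / (2 g + 2))` -/
noncomputable def cmv (g : ℕ) (k : ℤ) : Fin g → ℂ := fun i =>
  Complex.exp (2 * Real.pi * Complex.I / (2 * g + 2 : ℕ) * (k * (i + 1 : ℕ)))

/-- the lattice spanned by the `cmv g k` -/
noncomputable def cmLat (g : ℕ) : Submodule ℤ (Fin g → ℂ) :=
  Submodule.span ℤ (Set.range (cmv g))

end MP_c1bd5a_ag
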