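import Pool.Agent.Work.MP_c1bd5a_ag.Push

/-!
# Isog (M) : rational isogenies

`siegel_act`: symmetric: transpose of `A τ Aᵀ + B`.  Imaginary part: `A (Im τ) Aᵀ`, positive definite because `A` is invertible
(`Matrix.PosDef.mul_mul_conjTranspose_same`-type lemma, or by hand: `x ⬝ A Y Aᵀ x = (Aᵀ x) ⬝ Y (Aᵀ x)`).
`lat_act`: let `τ' = act (rl A) (rl B) τ`.  Let `N ≥ 1` be an integer such that `N A`, `N A⁻ᵀ` and `N B A⁻ᵀ` are integral (`N` = product of the
denominators of the entries; write a lemma: for a finite family of rational numbers there is such an `N`).  `T = N A` (as a complex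
linear map, `Matrix.mulVecLin`), bijective.  `T (a + τ b) = N A a + N A τ b` and
`A τ b = (A τ Aᵀ) (A⁻ᵀ b) = τ' (A⁻ᵀ b) - B (A⁻ᵀ b)`, so `T (a + τ b) = (N A a - N B A⁻ᵀ b) + τ' (N A⁻ᵀ b)`.
`act_inv`: `A⁻¹ (A τ Aᵀ + B) A⁻ᵀ - A⁻¹ B A⁻ᵀ = τ`.
-/

set_option autoImplicit false

namespace MP_c1bd5a_ag

open MvPolynomial

theorem siegel_act {g : ℕ} {τ : Matrix (Fin g) (Fin g) ℂ} (hτ : τ ∈ Siegel g)
    {A B : Matrix (Fin g) (Fin g) ℝ} (hA : A.det ≠ 0) (hB : B.IsSymm) : act A B τ ∈ Siegel g := by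
  obtain ⟨h1, h2⟩ := hτ
  constructor
  · unfold act Matrix.IsSymm
    have hBm : (B.map fun x : ℝ => (x : ℂ)).transpose = B.map fun x : ℝ => (x : ℂ) := by
      rw [← Matrix.transpose_map, hB.eq]
    rw [Matrix.transpose_add, Matrix.transpose_mul, Matrix.transpose_mul, Matrix.transpose_transpose,
      h1.eq, Matrix.mul_assoc, hBm]
  · have e : (act A B τ).map Complex.im = A * τ.map Complex.im * A.conjTranspose := by
      ext i j
      unfold act
      simp only [Matrix.map_apply, Matrix.add_apply, Matrix.mul_apply, Matrix.transpose_apply,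
        Matrix.conjTranspose_apply, star_trivial, Complex.add_im, Complex.ofReal_im, add_zero,
        Complex.im_sum]
      refine Finset.sum_congr rfl fun k _ => ?_
      rw [Complex.mul_im, Complex.ofReal_im, Complex.ofReal_re, mul_zero, zero_add, Complex.im_sum]
      congr 1
      refine Finset.sum_congr rfl fun l _ => ?_
      rw [Complex.mul_im, Complex.ofReal_im, Complex.ofReal_re, zero_mul, add_zero]
    rw [e]
    apply h2.mul_mul_conjTranspose_same
    apply Matrix.vecMul_injective_of_isUnit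
    rw [Matrix.isUnit_iff_isUnit_det]
    exact isUnit_iff_ne_zero.mpr hA

/-- complex matrices from rational ones -/
private noncomputable def cm {g : ℕ} :
    Matrix (Fin g) (Fin g) ℚ →+* Matrix (Fin g) (Fin g) ℂ := (Rat.castHom ℂ).mapMatrix

private theorem cm_rl {g : ℕ} (A : Matrix (Fin g) (Fin g) ℚ) :
    (rl A).map (fun x : ℝ => (x : ℂ)) = cm A := by
  ext i j
  simp [rl, cm]

private theorem cm_transpose {g : ℕ} (A : Matrix (Fin g) (Fin g) ℚ) :
    cm A.transpose = (cm A).transpose := by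
  ext i j
  simp [cm]

private theorem act_cm {g : ℕ} (A B : Matrix (Fin g) (Fin g) ℚ) (τ : Matrix (Fin g) (Fin g) ℂ) :
    act (rl A) (rl B) τ = cm A * τ * (cm A).transpose + cm B := by
  unfold act
  rw [cm_rl, cm_rl]

private theorem denom {ι : Type} [Fintype ι] (f : ι → ℚ) :
    ∃ N : ℕ, 0 < N ∧ ∀ i, ∃ z : ℤ, (N : ℚ) * f i = z := by
  classical
  refine ⟨∏ i, (f i).den, Finset.prod_pos fun i _ => (f i).pos, fun i => ?_⟩
  obtain ⟨k, hk⟩ := Finset.dvd_prod_of_mem (fun i => (f i).den) (Finset.mem_univ i)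
  refine ⟨k * (f i).num, ?_⟩
  rw [hk]
  push_cast
  have : ((f i).den : ℚ) * f i = (f i).num := by
    rw [mul_comm]
    exact Rat.mul_den_eq_num _
  calc ((f i).den : ℚ) * k * f i = k * (((f i).den : ℚ) * f i) := by ring
    _ = k * (f i).num := by rw [this]

/-- a common denominator of a matrix -/
private theorem denomM {g : ℕ} (A : Matrix (Fin g) (Fin g) ℚ) :
    ∃ N : ℕ, 0 < N ∧ ∀ k : ℕ, ∃ Z : Matrix (Fin g) (Fin g) ℤ,
      ((N * k : ℕ) : ℂ) • cm A = Z.map (Int.castRingHom ℂ) := by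
  obtain ⟨N, hN, h⟩ := denom (fun p : Fin g × Fin g => A p.1 p.2)
  choose z hz using h
  refine ⟨N, hN, fun k => ⟨fun i j => k * z (i, j), ?_⟩⟩
  ext i j
  have h1 : (N : ℂ) * (A i j : ℂ) = z (i, j) := by
    have := hz (i, j)
    simp only at this
    exact_mod_cast congrArg (fun t : ℚ => (t : ℂ)) this
  simp only [Matrix.smul_apply, Matrix.map_apply, smul_eq_mul, Int.coe_castRingHom, cm,
    RingHom.mapMatrix_apply, Rat.coe_castHom]
  push_cast
  rw [← h1]
  ring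

theorem lat_act {g : ℕ} (τ : Matrix (Fin g) (Fin g) ℂ) {A : Matrix (Fin g) (Fin g) ℚ}
    (hA : A.det ≠ 0) (B : Matrix (Fin g) (Fin g) ℚ) :
    ∃ T : (Fin g → ℂ) →ₗ[ℂ] (Fin g → ℂ), Function.Surjective T ∧
      ∀ v ∈ lat τ, T v ∈ lat (act (rl A) (rl B) τ) := by
  have hu : IsUnit A.det := isUnit_iff_ne_zero.mpr hA
  obtain ⟨N₁, hN₁, d₁⟩ := denomM A
  obtain ⟨N₂, hN₂, d₂⟩ := denomM A⁻¹.transpose
  obtain ⟨N₃, hN₃, d₃⟩ := denomM (B * A⁻¹.transpose)
  obtain ⟨P, hP⟩ := d₁ (N₂ * N₃)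
  obtain ⟨Q, hQ⟩ := d₂ (N₁ * N₃)
  obtain ⟨R, hR⟩ := d₃ (N₁ * N₂)
  obtain ⟨n, hn⟩ : ∃ n : ℂ, n = ((N₁ * N₂ * N₃ : ℕ) : ℂ) := ⟨_, rfl⟩
  have hn0 : n ≠ 0 := by
    rw [hn]
    exact_mod_cast (Nat.mul_pos (Nat.mul_pos hN₁ hN₂) hN₃).ne'
  have e1 : ((N₁ * (N₂ * N₃) : ℕ) : ℂ) = n := by rw [hn]; push_cast; ring
  have e2 : ((N₂ * (N₁ * N₃) : ℕ) : ℂ) = n := by rw [hn]; push_cast; ring
  have e3 : ((N₃ * (N₁ * N₂) : ℕ) : ℂ) = n := by rw [hn]; push_cast; ring
  rw [e1] at hP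
  rw [e2] at hQ
  rw [e3] at hR
  have hinv : cm A * cm A⁻¹ = 1 := by rw [← map_mul, Matrix.mul_nonsing_inv _ hu, map_one]
  have hinv2 : (cm A).transpose * cm A⁻¹.transpose = 1 := by
    rw [cm_transpose, ← Matrix.transpose_mul, ← map_mul, Matrix.nonsing_inv_mul _ hu, map_one,
      Matrix.transpose_one]
  have hcast : ∀ (Z : Matrix (Fin g) (Fin g) ℤ) (a : Fin g → ℤ),
      (fun i => ((Z.mulVec a i : ℤ) : ℂ)) = (Z.map (Int.castRingHom ℂ)).mulVec fun i => (a i : ℂ) := by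
    intro Z a
    funext i
    have := RingHom.map_mulVec (Int.castRingHom ℂ) Z a i
    simpa [Function.comp_def] using this
  refine ⟨n • (cm A).mulVecLin, ?_, ?_⟩
  · intro w
    refine ⟨n⁻¹ • (cm A⁻¹).mulVec w, ?_⟩
    rw [LinearMap.smul_apply, map_smul, smul_smul, mul_inv_cancel₀ hn0, one_smul,
      Matrix.mulVecLin_apply, Matrix.mulVec_mulVec, hinv, Matrix.one_mulVec]
  · rintro v ⟨a, b, rfl⟩
    refine ⟨P.mulVec a - R.mulVec b, Q.mulVec b, ?_⟩
    have f1 : (fun i => (((P.mulVec a - R.mulVec b) i : ℤ) : ℂ)) =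
        (n • cm A).mulVec (fun i => (a i : ℂ)) -
          (n • cm (B * A⁻¹.transpose)).mulVec (fun i => (b i : ℂ)) := by
      rw [hP, hR, ← hcast, ← hcast]
      funext i
      simp
    have f2 : (fun i => ((Q.mulVec b i : ℤ) : ℂ)) =
        (n • cm A⁻¹.transpose).mulVec (fun i => (b i : ℂ)) := by
      rw [hQ, ← hcast]
    rw [f1, f2, act_cm]
    have f3 : (cm A * τ * (cm A).transpose + cm B).mulVec
        ((n • cm A⁻¹.transpose).mulVec (fun i => (b i : ℂ))) =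
        (n • (cm A * τ + cm (B * A⁻¹.transpose))).mulVec (fun i => (b i : ℂ)) := by
      rw [Matrix.mulVec_mulVec, Matrix.mul_smul, Matrix.add_mul, Matrix.mul_assoc (cm A * τ),
        hinv2, Matrix.mul_one, map_mul]
    rw [f3, LinearMap.smul_apply, Matrix.mulVecLin_apply, Matrix.mulVec_add, Matrix.mulVec_mulVec,
      Matrix.smul_mulVec, Matrix.smul_mulVec, Matrix.smul_mulVec, Matrix.add_mulVec]
    module

theorem act_inv {g : ℕ} (τ : Matrix (Fin g) (Fin g) ℂ) {A : Matrix (Fin g) (Fin g) ℚ}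
    (hA : A.det ≠ 0) {B : Matrix (Fin g) (Fin g) ℚ} (hB : B.IsSymm) :
    ∃ A' B' : Matrix (Fin g) (Fin g) ℚ, A'.det ≠ 0 ∧ B'.IsSymm ∧
      act (rl A') (rl B') (act (rl A) (rl B) τ) = τ := by
  have hu : IsUnit A.det := isUnit_iff_ne_zero.mpr hA
  refine ⟨A⁻¹, -(A⁻¹ * B * A⁻¹.transpose), ?_, ?_, ?_⟩
  · rw [Matrix.det_nonsing_inv, Ring.inverse_eq_inv']
    exact inv_ne_zero hA
  · unfold Matrix.IsSymm
    rw [Matrix.transpose_neg, Matrix.transpose_mul, Matrix.transpose_mul,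
      Matrix.transpose_transpose, hB.eq, Matrix.mul_assoc]
  · rw [act_cm, act_cm]
    have h1 : cm A⁻¹ * cm A = 1 := by rw [← map_mul, Matrix.nonsing_inv_mul _ hu, map_one]
    have h2 : (cm A).transpose * (cm A⁻¹).transpose = 1 := by
      rw [← Matrix.transpose_mul, h1, Matrix.transpose_one]
    rw [map_neg, map_mul, map_mul, cm_transpose, Matrix.mul_add, Matrix.add_mul]
    have h3 : cm A⁻¹ * (cm A * τ * (cm A).transpose) * (cm A⁻¹).transpose = τ := by
      calc cm A⁻¹ * (cm A * τ * (cm A).transpose) * (cm A⁻¹).transpose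
          = (cm A⁻¹ * cm A) * τ * ((cm A).transpose * (cm A⁻¹).transpose) := by
            simp only [Matrix.mul_assoc]
        _ = τ := by rw [h1, h2, Matrix.one_mul, Matrix.mul_one]
    rw [h3]
    abel

end MP_c1bd5a_ag
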