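import Pool.Agent.Work.MP_c1bd5a_ag.Trn
import Pool.Agent.Work.MP_c1bd5a_ag.Isog

/-!
# Dens (M) : rational points of the parabolic subgroup are dense

Let `τ' ∈ U`, `act A0 B0 τ = τ'` (`exists_act`).  `U = V ∩ Siegel g` with `V` open in the space of matrices.  The map
`(A, B) ↦ act A ((B + Bᵀ) / 2) τ` is continuous and maps `(A0, B0)` to `τ' ∈ V` (`B0` symmetric), and `det A0 ≠ 0` is an open condition; rational
matrices are dense among the real ones (`DenseRange` of `rl`: `Rat.denseRange_cast`, `DenseRange.piMap`, or approximate entrywise), so there are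
rational `A`, `B1` with `det A ≠ 0` and `act (rl A) ((rl B1 + (rl B1)ᵀ) / 2) τ ∈ V`; `B = (B1 + B1ᵀ) / 2`.  The value is in `Siegel g` by `siegel_act`
(`det (rl A) ≠ 0`: `det (rl A) = det A` cast, `RingHom.map_det`).
-/

set_option autoImplicit false

namespace MP_c1bd5a_ag

open MvPolynomial

private theorem dens_rl (g : ℕ) : DenseRange (rl (g := g)) := by
  have h1 : DenseRange (Pi.map (fun _ : Fin g => Pi.map (fun _ : Fin g => fun x : ℚ => (x : ℝ)))) :=
    DenseRange.piMap fun _ => DenseRange.piMap fun _ => Rat.denseRange_cast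
  exact h1

private theorem dens_det {g : ℕ} (A : Matrix (Fin g) (Fin g) ℚ) :
    (rl A).det = ((A.det : ℚ) : ℝ) := by
  have h1 := (Rat.castHom ℝ).map_det A
  rw [Rat.coe_castHom] at h1
  rw [h1]
  rfl

theorem exists_rat_act {g : ℕ} (τ : Siegel g) {U : Set (Siegel g)} (hU : IsOpen U)
    (hne : U.Nonempty) : ∃ A B : Matrix (Fin g) (Fin g) ℚ, A.det ≠ 0 ∧ B.IsSymm ∧
      ∃ τ' ∈ U, τ'.1 = act (rl A) (rl B) τ.1 := by
  obtain ⟨τ0, hτ0⟩ := hne
  obtain ⟨V, hV, rfl⟩ := isOpen_induced_iff.1 hU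
  obtain ⟨A0, B0, hA0, hB0, h0⟩ := exists_act τ.2 τ0.2
  let f : Matrix (Fin g) (Fin g) ℝ × Matrix (Fin g) (Fin g) ℝ → Matrix (Fin g) (Fin g) ℂ :=
    fun q => act q.1 ((1 / 2 : ℝ) • (q.2 + q.2.transpose)) τ.1
  have hf : Continuous f := by
    have c1 : Continuous fun q : Matrix (Fin g) (Fin g) ℝ × Matrix (Fin g) (Fin g) ℝ =>
        q.1.map (fun x : ℝ => (x : ℂ)) := continuous_fst.matrix_map Complex.continuous_ofReal
    have c3 : Continuous fun q : Matrix (Fin g) (Fin g) ℝ × Matrix (Fin g) (Fin g) ℝ =>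
        ((1 / 2 : ℝ) • (q.2 + q.2.transpose)) := by
      have c4 : Continuous fun q : Matrix (Fin g) (Fin g) ℝ × Matrix (Fin g) (Fin g) ℝ =>
          q.2 + q.2.transpose := continuous_snd.add continuous_snd.matrix_transpose
      exact Continuous.const_smul c4 (1 / 2 : ℝ)
    have c2 : Continuous fun q : Matrix (Fin g) (Fin g) ℝ × Matrix (Fin g) (Fin g) ℝ =>
        ((1 / 2 : ℝ) • (q.2 + q.2.transpose)).map (fun x : ℝ => (x : ℂ)) :=
      c3.matrix_map Complex.continuous_ofReal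
    exact ((c1.matrix_mul continuous_const).matrix_mul c1.matrix_transpose).add c2
  have hW : IsOpen {q : Matrix (Fin g) (Fin g) ℝ × Matrix (Fin g) (Fin g) ℝ |
      q.1.det ≠ 0 ∧ f q ∈ V} := by
    have h1 : IsOpen {q : Matrix (Fin g) (Fin g) ℝ × Matrix (Fin g) (Fin g) ℝ | q.1.det ≠ 0} :=
      isOpen_ne_fun continuous_fst.matrix_det continuous_const
    exact h1.inter (hV.preimage hf)
  have hmem : (A0, B0) ∈ {q : Matrix (Fin g) (Fin g) ℝ × Matrix (Fin g) (Fin g) ℝ |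
      q.1.det ≠ 0 ∧ f q ∈ V} := by
    refine ⟨hA0, ?_⟩
    have h1 : (1 / 2 : ℝ) • (B0 + B0.transpose) = B0 := by
      rw [hB0.eq, ← two_smul ℝ B0, smul_smul]
      norm_num
    show act A0 ((1 / 2 : ℝ) • (B0 + B0.transpose)) τ.1 ∈ V
    rw [h1, h0]
    exact hτ0
  obtain ⟨⟨A, B1⟩, hA, hAV⟩ := ((dens_rl g).prodMap (dens_rl g)).exists_mem_open hW ⟨_, hmem⟩
  have hA1 : (rl A).det ≠ 0 := hA
  have hA2 : A.det ≠ 0 := by
    intro h1
    rw [dens_det, h1, Rat.cast_zero] at hA1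
    exact hA1 rfl
  have hB : rl ((1 / 2 : ℚ) • (B1 + B1.transpose)) = (1 / 2 : ℝ) • (rl B1 + (rl B1).transpose) := by
    ext i j
    simp [rl]
    ring
  have hBs : ((1 / 2 : ℚ) • (B1 + B1.transpose)).IsSymm := by
    unfold Matrix.IsSymm
    rw [Matrix.transpose_smul, Matrix.transpose_add, Matrix.transpose_transpose, add_comm]
  have hBs2 : ((1 / 2 : ℝ) • (rl B1 + (rl B1).transpose)).IsSymm := by
    unfold Matrix.IsSymm
    rw [Matrix.transpose_smul, Matrix.transpose_add, Matrix.transpose_transpose, add_comm]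
  have hAV' : act (rl A) ((1 / 2 : ℝ) • (rl B1 + (rl B1).transpose)) τ.1 ∈ V := hAV
  refine ⟨A, (1 / 2 : ℚ) • (B1 + B1.transpose), hA2, hBs,
    ⟨act (rl A) ((1 / 2 : ℝ) • (rl B1 + (rl B1).transpose)) τ.1,
      siegel_act τ.2 hA1 hBs2⟩, hAV', ?_⟩
  rw [hB]

end MP_c1bd5a_ag
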