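import Pool.Agent.Work.MP_c1bd5a_ag.Dens

/-!
# Fill (S-M) : a locus with an interior point is everything; a nonempty locus is dense

`loc_act`: `isQuotient_map` with `lat_act`.
`loc_eq_univ`: for `τ` take `A`, `B` and `τ' ∈ interior (Loc d g)` from `exists_rat_act`; `act_inv` and `loc_act` give `τ ∈ Loc d g`.
`dense_loc`: for `τ ∈ Loc d g` and `U` open nonempty, `τ' = act A B τ ∈ U` is in `Loc d g` (`dense_iff_inter_open`).
-/

set_option autoImplicit false

namespace MP_c1bd5a_ag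

open MvPolynomial

theorem loc_act {d g : ℕ} {τ τ' : Siegel g} (hτ : τ ∈ Loc d g) {A B : Matrix (Fin g) (Fin g) ℚ}
    (hA : A.det ≠ 0) (h : τ'.1 = act (rl A) (rl B) τ.1) : τ' ∈ Loc d g := by
  obtain ⟨F, hF⟩ := hτ
  obtain ⟨T, hT, hTl⟩ := lat_act τ.1 hA B
  refine ⟨F, ?_⟩
  rw [h]
  exact isQuotient_map T hT hTl hF

theorem loc_eq_univ {d g : ℕ} (h : (interior (Loc d g)).Nonempty) : Loc d g = Set.univ := by
  rw [Set.eq_univ_iff_forall]
  intro τ
  obtain ⟨A, B, hA, hB, τ', hτ', h1⟩ := exists_rat_act τ isOpen_interior h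
  obtain ⟨A', B', hA', hB', h2⟩ := act_inv τ.1 hA hB
  refine loc_act (interior_subset hτ') hA' (B := B') ?_
  rw [h1, h2]

theorem dense_loc {d g : ℕ} (h : (Loc d g).Nonempty) : Dense (Loc d g) := by
  obtain ⟨τ, hτ⟩ := h
  rw [dense_iff_inter_open]
  intro U hU hne
  obtain ⟨A, B, hA, hB, τ', hτ', h1⟩ := exists_rat_act τ hU hne
  exact ⟨τ', hτ', loc_act hτ hA h1⟩

end MP_c1bd5a_ag
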