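import Pool.Agent.Work.MP_c1bd5a_ag.Defs

/-!
# LatAb (M) : `A_τ` is an abelian variety

`Y = Im τ`, positive definite, `Z = Y⁻¹` (symmetric, positive definite).  `E v w = Im (∑ i j, v i * Z i j * conj (w j))`.
* alternating: `∑ v i Z i j conj (v j)` is real (`Z` real symmetric).
* `E (I v) (I w) = E v w`: `I * conj I = 1`.
* `E (I v) v = Re (∑ v i Z i j conj (v j)) = x ⬝ Z x + y ⬝ Z y > 0` for `v = x + I y ≠ 0`.
* integrality: for `v = a + τ b`, `w = a' + τ b'`: `E v w = b ⬝ a' - a ⬝ b'`, because `Z τ̄ = Z X - I`, `τ Z = X Z + I`, `τ Z τ̄ = X Z X + Y` is real symmetric.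
* discrete: `v ↦ (Z Im v, Re v - X Z Im v)` is a homeomorphism `ℂ^g → ℝ^g × ℝ^g` which maps `lat τ` to integral vectors; or: `lat τ` is the ℤ-span of an ℝ-basis
  of `ℂ^g` (the standard vectors and the columns of `τ`), `ZSpan` instances give discreteness (`Submodule.span ℤ (Set.range b)` is discrete).
* span: the standard vectors and the columns of `τ` span `ℂ^g` over `ℝ` (`Im τ` is invertible).
-/

set_option autoImplicit false

namespace MP_c1bd5a_ag

open MvPolynomial

private def imv {g : ℕ} (v : Fin g → ℂ) : Fin g → ℝ := fun i => (v i).im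

private def rev {g : ℕ} (v : Fin g → ℂ) : Fin g → ℝ := fun i => (v i).re

private theorem imv_add {g : ℕ} (v w : Fin g → ℂ) : imv (v + w) = imv v + imv w := by
  ext i; simp [imv]

private theorem rev_add {g : ℕ} (v w : Fin g → ℂ) : rev (v + w) = rev v + rev w := by
  ext i; simp [rev]

private theorem imv_smul {g : ℕ} (r : ℝ) (v : Fin g → ℂ) : imv (r • v) = r • imv v := by
  ext i; simp [imv]

private theorem rev_smul {g : ℕ} (r : ℝ) (v : Fin g → ℂ) : rev (r • v) = r • rev v := by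
  ext i; simp [rev]

private theorem imv_I {g : ℕ} (v : Fin g → ℂ) : imv (Complex.I • v) = rev v := by
  ext i; simp [imv, rev]

private theorem rev_I {g : ℕ} (v : Fin g → ℂ) : rev (Complex.I • v) = -imv v := by
  ext i; simp [imv, rev]

private theorem imv_real {g : ℕ} (b : Fin g → ℝ) : imv (fun i => (b i : ℂ)) = 0 := by
  ext i; simp [imv]

private theorem rev_real {g : ℕ} (b : Fin g → ℝ) : rev (fun i => (b i : ℂ)) = b := by
  ext i; simp [rev]

private theorem imv_mulVec {g : ℕ} (τ : Matrix (Fin g) (Fin g) ℂ) (b : Fin g → ℝ) :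
    imv (τ.mulVec (fun j => (b j : ℂ))) = (τ.map Complex.im).mulVec b := by
  ext i
  simp [imv, Matrix.mulVec, dotProduct, Complex.im_sum]

private theorem rev_mulVec {g : ℕ} (τ : Matrix (Fin g) (Fin g) ℂ) (b : Fin g → ℝ) :
    rev (τ.mulVec (fun j => (b j : ℂ))) = (τ.map Complex.re).mulVec b := by
  ext i
  simp [rev, Matrix.mulVec, dotProduct, Complex.re_sum]

private theorem ext_v {g : ℕ} {v w : Fin g → ℂ} (h1 : rev v = rev w) (h2 : imv v = imv w) :
    v = w := by
  ext i
  exact Complex.ext (congrFun h1 i) (congrFun h2 i)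

/-- the coordinates of `v` for the real basis `1, τ` -/
private noncomputable def bet {g : ℕ} (τ : Matrix (Fin g) (Fin g) ℂ) (v : Fin g → ℂ) : Fin g → ℝ :=
  ((τ.map Complex.im)⁻¹).mulVec (imv v)

private noncomputable def alp {g : ℕ} (τ : Matrix (Fin g) (Fin g) ℂ) (v : Fin g → ℂ) : Fin g → ℝ :=
  rev v - (τ.map Complex.re).mulVec (bet τ v)

private theorem det_unit {g : ℕ} {τ : Matrix (Fin g) (Fin g) ℂ} (h : τ ∈ Siegel g) :
    IsUnit (τ.map Complex.im).det := (h.2.det_pos).ne'.isUnit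

private theorem decomp {g : ℕ} {τ : Matrix (Fin g) (Fin g) ℂ} (h : τ ∈ Siegel g)
    (v : Fin g → ℂ) : v = (fun i => (alp τ v i : ℂ)) + τ.mulVec fun i => (bet τ v i : ℂ) := by
  apply ext_v
  · rw [rev_add, rev_real, rev_mulVec, alp]
    simp
  · rw [imv_add, imv_real, imv_mulVec, bet, Matrix.mulVec_mulVec,
      Matrix.mul_nonsing_inv _ (det_unit h), Matrix.one_mulVec, zero_add]

private theorem bet_of {g : ℕ} {τ : Matrix (Fin g) (Fin g) ℂ} (h : τ ∈ Siegel g)
    (a b : Fin g → ℝ) :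
    bet τ ((fun i => (a i : ℂ)) + τ.mulVec fun i => (b i : ℂ)) = b := by
  rw [bet, imv_add, imv_real, imv_mulVec, zero_add, Matrix.mulVec_mulVec,
    Matrix.nonsing_inv_mul _ (det_unit h), Matrix.one_mulVec]

private theorem alp_of {g : ℕ} {τ : Matrix (Fin g) (Fin g) ℂ} (h : τ ∈ Siegel g)
    (a b : Fin g → ℝ) :
    alp τ ((fun i => (a i : ℂ)) + τ.mulVec fun i => (b i : ℂ)) = a := by
  rw [alp, bet_of h, rev_add, rev_real, rev_mulVec]
  simp

private theorem int_coord {g : ℕ} {τ : Matrix (Fin g) (Fin g) ℂ} (h : τ ∈ Siegel g)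
    {v : Fin g → ℂ} (hv : v ∈ lat τ) : ∃ a b : Fin g → ℤ,
      (alp τ v = fun i => (a i : ℝ)) ∧ (bet τ v = fun i => (b i : ℝ)) ∧
      v = (fun i => ((a i : ℝ) : ℂ)) + τ.mulVec fun i => ((b i : ℝ) : ℂ) := by
  obtain ⟨a, b, rfl⟩ := hv
  have e : ((fun i => (a i : ℂ)) + τ.mulVec fun i => (b i : ℂ)) =
      (fun i => ((a i : ℝ) : ℂ)) + τ.mulVec fun i => ((b i : ℝ) : ℂ) := by
    simp
  refine ⟨a, b, ?_, ?_, e⟩
  · rw [e]; exact alp_of h (fun i => (a i : ℝ)) (fun i => (b i : ℝ))
  · rw [e]; exact bet_of h (fun i => (a i : ℝ)) (fun i => (b i : ℝ))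

private theorem continuous_bet {g : ℕ} (τ : Matrix (Fin g) (Fin g) ℂ) : Continuous (bet τ) := by
  have : Continuous (imv : (Fin g → ℂ) → Fin g → ℝ) :=
    continuous_pi fun i => Complex.continuous_im.comp (continuous_apply i)
  exact (continuous_const (y := (τ.map Complex.im)⁻¹)).matrix_mulVec this

private theorem continuous_alp {g : ℕ} (τ : Matrix (Fin g) (Fin g) ℂ) : Continuous (alp τ) := by
  have : Continuous (rev : (Fin g → ℂ) → Fin g → ℝ) :=
    continuous_pi fun i => Complex.continuous_re.comp (continuous_apply i)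
  exact this.sub ((continuous_const (y := τ.map Complex.re)).matrix_mulVec (continuous_bet τ))

private theorem discrete_lat {g : ℕ} {τ : Matrix (Fin g) (Fin g) ℂ} (h : τ ∈ Siegel g) :
    DiscreteTopology (lat τ) := by
  let f : lat τ → (Fin g → ℤ) × (Fin g → ℤ) := fun v =>
    (fun i => ⌊alp τ v.1 i⌋, fun i => ⌊bet τ v.1 i⌋)
  have hf1 : ∀ (v : lat τ) i, ((⌊alp τ v.1 i⌋ : ℤ) : ℝ) = alp τ v.1 i := by
    intro v i
    obtain ⟨a, b, h1, _, _⟩ := int_coord h v.2
    rw [h1]
    simp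
  have hf2 : ∀ (v : lat τ) i, ((⌊bet τ v.1 i⌋ : ℤ) : ℝ) = bet τ v.1 i := by
    intro v i
    obtain ⟨a, b, _, h2, _⟩ := int_coord h v.2
    rw [h2]
    simp
  have hcont : Continuous f := by
    refine Continuous.prodMk (continuous_pi fun i => ?_) (continuous_pi fun i => ?_)
    · rw [Int.isClosedEmbedding_coe_real.isInducing.continuous_iff]
      have : (Int.cast ∘ fun v : lat τ => ⌊alp τ v.1 i⌋ : lat τ → ℝ) = fun v => alp τ v.1 i :=
        funext fun v => hf1 v i
      rw [this]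
      exact (continuous_apply i).comp ((continuous_alp τ).comp continuous_subtype_val)
    · rw [Int.isClosedEmbedding_coe_real.isInducing.continuous_iff]
      have : (Int.cast ∘ fun v : lat τ => ⌊bet τ v.1 i⌋ : lat τ → ℝ) = fun v => bet τ v.1 i :=
        funext fun v => hf2 v i
      rw [this]
      exact (continuous_apply i).comp ((continuous_bet τ).comp continuous_subtype_val)
  have hinj : Function.Injective f := by
    intro v w hvw
    have h1 : ∀ i, ⌊alp τ v.1 i⌋ = ⌊alp τ w.1 i⌋ := fun i => congrFun (congrArg Prod.fst hvw) i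
    have h2 : ∀ i, ⌊bet τ v.1 i⌋ = ⌊bet τ w.1 i⌋ := fun i => congrFun (congrArg Prod.snd hvw) i
    have h3 : alp τ v.1 = alp τ w.1 := by
      ext i
      rw [← hf1 v i, ← hf1 w i, h1 i]
    have h4 : bet τ v.1 = bet τ w.1 := by
      ext i
      rw [← hf2 v i, ← hf2 w i, h2 i]
    apply Subtype.ext
    rw [decomp h v.1, decomp h w.1, h3, h4]
  exact DiscreteTopology.of_continuous_injective hcont hinj

private theorem span_lat {g : ℕ} {τ : Matrix (Fin g) (Fin g) ℂ} (h : τ ∈ Siegel g) :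
    Submodule.span ℝ (lat τ : Set (Fin g → ℂ)) = ⊤ := by
  rw [eq_top_iff]
  intro v _
  have h1 : ∀ i : Fin g, (fun j => ((Pi.single i (1 : ℝ) : Fin g → ℝ) j : ℂ)) ∈
      Submodule.span ℝ (lat τ : Set (Fin g → ℂ)) := by
    intro i
    refine Submodule.subset_span ⟨Pi.single i 1, 0, ?_⟩
    ext j
    by_cases hj : j = i
    · subst hj; simp [Matrix.mulVec, dotProduct]
    · simp [Matrix.mulVec, dotProduct, Pi.single_eq_of_ne hj]
  have h2 : ∀ i : Fin g, τ.mulVec (fun j => ((Pi.single i (1 : ℝ) : Fin g → ℝ) j : ℂ)) ∈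
      Submodule.span ℝ (lat τ : Set (Fin g → ℂ)) := by
    intro i
    refine Submodule.subset_span ⟨0, Pi.single i 1, ?_⟩
    have : (fun j => ((Pi.single i (1 : ℝ) : Fin g → ℝ) j : ℂ)) =
        fun j => (((Pi.single i (1 : ℤ) : Fin g → ℤ) j : ℤ) : ℂ) := by
      ext j
      by_cases hj : j = i
      · subst hj; simp
      · simp [Pi.single_eq_of_ne hj]
    rw [this]
    ext j
    simp
  have h3 : v = (∑ i, alp τ v i • (fun j => ((Pi.single i (1 : ℝ) : Fin g → ℝ) j : ℂ))) +
      ∑ i, bet τ v i • τ.mulVec (fun j => ((Pi.single i (1 : ℝ) : Fin g → ℝ) j : ℂ)) := by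
    conv_lhs => rw [decomp h v]
    congr 1
    · ext j
      rw [Finset.sum_apply, Finset.sum_eq_single j]
      · simp
      · intro i _ hij
        simp [Pi.single_eq_of_ne (Ne.symm hij)]
      · simp
    · ext j
      rw [Finset.sum_apply]
      simp only [Matrix.mulVec, dotProduct, Pi.smul_apply, Complex.real_smul]
      refine Finset.sum_congr rfl fun i _ => ?_
      rw [Finset.sum_eq_single i]
      · simp [mul_comm]
      · intro k _ hk
        simp [Pi.single_eq_of_ne hk]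
      · simp
  rw [h3]
  exact Submodule.add_mem _ (Submodule.sum_mem _ fun i _ => Submodule.smul_mem _ _ (h1 i))
    (Submodule.sum_mem _ fun i _ => Submodule.smul_mem _ _ (h2 i))

/-- the Riemann form -/
private noncomputable def ef {g : ℕ} (Z : Matrix (Fin g) (Fin g) ℝ) :
    (Fin g → ℂ) →ₗ[ℝ] (Fin g → ℂ) →ₗ[ℝ] ℝ :=
  LinearMap.mk₂ ℝ (fun v w => imv v ⬝ᵥ Z.mulVec (rev w) - rev v ⬝ᵥ Z.mulVec (imv w))
    (fun v v' w => by simp only [imv_add, rev_add, add_dotProduct]; ring)
    (fun r v w => by simp only [imv_smul, rev_smul, smul_dotProduct, smul_eq_mul]; ring)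
    (fun v w w' => by
      simp only [imv_add, rev_add, Matrix.mulVec_add, dotProduct_add]; ring)
    (fun r v w => by
      simp only [imv_smul, rev_smul, Matrix.mulVec_smul, dotProduct_smul, smul_eq_mul]; ring)

private theorem ef_apply {g : ℕ} (Z : Matrix (Fin g) (Fin g) ℝ) (v w : Fin g → ℂ) :
    ef Z v w = imv v ⬝ᵥ Z.mulVec (rev w) - rev v ⬝ᵥ Z.mulVec (imv w) := rfl

private theorem sym_dot {g : ℕ} {Z : Matrix (Fin g) (Fin g) ℝ} (hZ : Z.IsSymm)
    (x y : Fin g → ℝ) : x ⬝ᵥ Z.mulVec y = Z.mulVec x ⬝ᵥ y := by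
  rw [Matrix.dotProduct_mulVec, ← Matrix.mulVec_transpose, hZ.eq]

theorem isAbelian_lat {g : ℕ} {τ : Matrix (Fin g) (Fin g) ℂ} (h : τ ∈ Siegel g) :
    IsAbelian (lat τ) := by
  have hdet := det_unit h
  have hXs : (τ.map Complex.re).IsSymm := by
    have := h.1
    rw [Matrix.IsSymm, ← Matrix.transpose_map, this.eq]
  have hYs : (τ.map Complex.im).IsSymm := by
    have := h.1
    rw [Matrix.IsSymm, ← Matrix.transpose_map, this.eq]
  have hZs : ((τ.map Complex.im)⁻¹).IsSymm := by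
    rw [Matrix.IsSymm, Matrix.transpose_nonsing_inv, hYs.eq]
  have hZp : ((τ.map Complex.im)⁻¹).PosDef := h.2.inv
  refine ⟨discrete_lat h, span_lat h, ef ((τ.map Complex.im)⁻¹), ?_, ?_, ?_, ?_⟩
  · intro v
    rw [ef_apply, sym_dot hZs, dotProduct_comm]
    ring
  · intro v w
    rw [ef_apply, ef_apply, imv_I, rev_I, rev_I, imv_I, Matrix.mulVec_neg, dotProduct_neg,
      neg_dotProduct]
    ring
  · intro v hv
    rw [ef_apply, imv_I, rev_I, neg_dotProduct, sub_neg_eq_add]
    have hx : 0 ≤ rev v ⬝ᵥ ((τ.map Complex.im)⁻¹).mulVec (rev v) := by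
      simpa using hZp.posSemidef.dotProduct_mulVec_nonneg (rev v)
    have hy : 0 ≤ imv v ⬝ᵥ ((τ.map Complex.im)⁻¹).mulVec (imv v) := by
      simpa using hZp.posSemidef.dotProduct_mulVec_nonneg (imv v)
    by_cases h1 : rev v = 0
    · have h2 : imv v ≠ 0 := by
        intro h2
        apply hv
        apply ext_v
        · rw [h1]; ext i; simp [rev]
        · rw [h2]; ext i; simp [imv]
      have : 0 < imv v ⬝ᵥ ((τ.map Complex.im)⁻¹).mulVec (imv v) := by
        simpa using hZp.dotProduct_mulVec_pos h2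
      linarith
    · have : 0 < rev v ⬝ᵥ ((τ.map Complex.im)⁻¹).mulVec (rev v) := by
        simpa using hZp.dotProduct_mulVec_pos h1
      linarith
  · intro v hv w hw
    obtain ⟨a, b, _, _, rfl⟩ := int_coord h hv
    obtain ⟨a', b', _, _, rfl⟩ := int_coord h hw
    refine ⟨b ⬝ᵥ a' - a ⬝ᵥ b', ?_⟩
    have e1 : ∀ x : Fin g → ℝ, ((τ.map Complex.im)⁻¹).mulVec ((τ.map Complex.im).mulVec x) = x := by
      intro x
      rw [Matrix.mulVec_mulVec, Matrix.nonsing_inv_mul _ hdet, Matrix.one_mulVec]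
    rw [ef_apply, imv_add, imv_add, rev_add, rev_add,
      imv_real (fun i => (a i : ℝ)), imv_real (fun i => (a' i : ℝ)),
      rev_real (fun i => (a i : ℝ)), rev_real (fun i => (a' i : ℝ)),
      imv_mulVec τ (fun i => (b i : ℝ)), imv_mulVec τ (fun i => (b' i : ℝ)),
      rev_mulVec τ (fun i => (b i : ℝ)), rev_mulVec τ (fun i => (b' i : ℝ)),
      zero_add, zero_add, sym_dot hZs, e1, e1, dotProduct_add, add_dotProduct,
      sym_dot hXs]
    push_cast
    simp only [dotProduct, Int.cast_sum, Int.cast_mul]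
    ring

end MP_c1bd5a_ag
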