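import Pool.Agent.Work.MP_c1bd5a_ag.Push

/-!
# Mono (M) : from dimension `g + 1` to dimension `g`

`isAbelian_prod`: `Λ' = {v | (∃ a b : ℤ, v 0 = a + b * I) ∧ Fin.tail v ∈ Λ}`.  Discrete: there is `ε > 0` such that `0` is the only element of `Λ` of norm
`< ε`, and the same for the Gaussian integers with `ε = 1`.  (A subgroup of a normed group is discrete iff `0` is isolated:
`discreteTopology_of_isOpen_singleton_zero`.)  Span: `span ℝ` contains `Fin.cons 0 w` for `w ∈ Λ`, so for all `w`, and `Fin.cons 1 0`, `Fin.cons I 0`.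
Riemann form `E' v w = Im (v 0 * conj (w 0)) + E (tail v) (tail w)`.
`allOf_mono`: apply the hypothesis to `Λ'` and `isQuotient_map` with `T = ` tail (`LinearMap.funLeft ℂ ℂ Fin.succ`), surjective.
-/

set_option autoImplicit false

namespace MP_c1bd5a_ag

open MvPolynomial

private noncomputable def prodLat {g : ℕ} (Λ : Submodule ℤ (Fin g → ℂ)) :
    Submodule ℤ (Fin (g + 1) → ℂ) where
  carrier := {v | (∃ a b : ℤ, v 0 = a + b * Complex.I) ∧ Fin.tail v ∈ Λ}
  add_mem' := by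
    rintro v w ⟨⟨a, b, h1⟩, h2⟩ ⟨⟨a', b', h3⟩, h4⟩
    refine ⟨⟨a + a', b + b', ?_⟩, Λ.add_mem h2 h4⟩
    rw [Pi.add_apply, h1, h3]
    push_cast
    ring
  zero_mem' := ⟨⟨0, 0, by simp⟩, Λ.zero_mem⟩
  smul_mem' := by
    rintro n v ⟨⟨a, b, h1⟩, h2⟩
    refine ⟨⟨n * a, n * b, ?_⟩, Λ.smul_mem n h2⟩
    rw [Pi.smul_apply, h1, zsmul_eq_mul]
    push_cast
    ring

private theorem mem_prodLat {g : ℕ} {Λ : Submodule ℤ (Fin g → ℂ)} {v : Fin (g + 1) → ℂ} :
    v ∈ prodLat Λ ↔ (∃ a b : ℤ, v 0 = a + b * Complex.I) ∧ Fin.tail v ∈ Λ := Iff.rfl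

private theorem prod_discrete {g : ℕ} {Λ : Submodule ℤ (Fin g → ℂ)} (h : DiscreteTopology Λ) :
    DiscreteTopology (prodLat Λ) := by
  have h1 : IsOpen ({0} : Set Λ) := isOpen_discrete _
  obtain ⟨ε, hε, hb⟩ := Metric.isOpen_singleton_iff.1 h1
  have h2 : IsOpen ({0} : Set (prodLat Λ)) := by
    rw [Metric.isOpen_singleton_iff]
    refine ⟨min ε 1, lt_min hε one_pos, ?_⟩
    rintro ⟨v, ⟨⟨a, b, hv0⟩, hv⟩⟩ hd
    have hn : ‖v‖ < min ε 1 := by
      rw [dist_zero_right] at hd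
      exact hd
    have hn1 : ‖v 0‖ < 1 := (norm_le_pi_norm v 0).trans_lt (hn.trans_le (min_le_right _ _))
    have hre : (v 0).re = a := by rw [hv0]; simp
    have him : (v 0).im = b := by rw [hv0]; simp
    have ha : a = 0 := by
      have h3 : |(a : ℝ)| < 1 := by
        rw [← hre]
        exact (Complex.abs_re_le_norm _).trans_lt hn1
      have h4 : |a| < 1 := by exact_mod_cast h3
      exact Int.abs_lt_one_iff.1 h4
    have hb' : b = 0 := by
      have h3 : |(b : ℝ)| < 1 := by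
        rw [← him]
        exact (Complex.abs_im_le_norm _).trans_lt hn1
      have h4 : |b| < 1 := by exact_mod_cast h3
      exact Int.abs_lt_one_iff.1 h4
    have ht : (⟨Fin.tail v, hv⟩ : Λ) = 0 := by
      apply hb
      rw [dist_zero_right]
      show ‖Fin.tail v‖ < ε
      rw [pi_norm_lt_iff hε]
      intro i
      exact (norm_le_pi_norm v i.succ).trans_lt (hn.trans_le (min_le_left _ _))
    have ht' : Fin.tail v = 0 := congrArg Subtype.val ht
    have hv' : v = 0 := by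
      funext i
      refine Fin.cases ?_ (fun j => ?_) i
      · rw [hv0, ha, hb']
        simp
      · exact congrFun ht' j
    exact Subtype.ext hv'
  exact discreteTopology_of_isOpen_singleton_zero h2

private theorem prod_span {g : ℕ} {Λ : Submodule ℤ (Fin g → ℂ)}
    (h : Submodule.span ℝ (Λ : Set (Fin g → ℂ)) = ⊤) :
    Submodule.span ℝ (prodLat Λ : Set (Fin (g + 1) → ℂ)) = ⊤ := by
  let L : (Fin g → ℂ) →ₗ[ℝ] (Fin (g + 1) → ℂ) :=
    { toFun := fun w => Fin.cons 0 w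
      map_add' := by
        intro w w'
        funext i
        refine Fin.cases ?_ (fun j => ?_) i <;> simp
      map_smul' := by
        intro a w
        funext i
        refine Fin.cases ?_ (fun j => ?_) i <;> simp }
  have hL : ∀ w, L w ∈ Submodule.span ℝ (prodLat Λ : Set (Fin (g + 1) → ℂ)) := by
    intro w
    have h1 : w ∈ Submodule.span ℝ (Λ : Set (Fin g → ℂ)) := by rw [h]; trivial
    have h2 : L w ∈ (Submodule.span ℝ (Λ : Set (Fin g → ℂ))).map L :=
      Submodule.mem_map_of_mem h1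
    rw [Submodule.map_span] at h2
    refine Submodule.span_mono ?_ h2
    rintro _ ⟨w', hw', rfl⟩
    refine mem_prodLat.2 ⟨⟨0, 0, ?_⟩, ?_⟩
    · show (Fin.cons 0 w' : Fin (g + 1) → ℂ) 0 = _
      simp
    · show Fin.tail (Fin.cons 0 w' : Fin (g + 1) → ℂ) ∈ Λ
      rw [Fin.tail_cons]
      exact hw'
  rw [eq_top_iff]
  rintro v -
  have e1 : (Fin.cons 1 0 : Fin (g + 1) → ℂ) ∈ (prodLat Λ : Set (Fin (g + 1) → ℂ)) := by
    refine mem_prodLat.2 ⟨⟨1, 0, by simp⟩, ?_⟩
    rw [Fin.tail_cons]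
    exact Λ.zero_mem
  have e2 : (Fin.cons Complex.I 0 : Fin (g + 1) → ℂ) ∈
      (prodLat Λ : Set (Fin (g + 1) → ℂ)) := by
    refine mem_prodLat.2 ⟨⟨0, 1, by simp⟩, ?_⟩
    rw [Fin.tail_cons]
    exact Λ.zero_mem
  have e : v = (v 0).re • (Fin.cons 1 0 : Fin (g + 1) → ℂ) +
      (v 0).im • (Fin.cons Complex.I 0 : Fin (g + 1) → ℂ) + L (Fin.tail v) := by
    funext i
    refine Fin.cases ?_ (fun j => ?_) i
    · show v 0 = (v 0).re • (1 : ℂ) + (v 0).im • Complex.I + 0
      rw [Complex.real_smul, Complex.real_smul, mul_one, add_zero, Complex.re_add_im]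
    · show v j.succ = (v 0).re • (0 : ℂ) + (v 0).im • (0 : ℂ) + v j.succ
      rw [smul_zero, smul_zero, zero_add, zero_add]
  rw [e]
  exact Submodule.add_mem _ (Submodule.add_mem _
    (Submodule.smul_mem _ _ (Submodule.subset_span e1))
    (Submodule.smul_mem _ _ (Submodule.subset_span e2))) (hL _)

theorem isAbelian_prod {g : ℕ} {Λ : Submodule ℤ (Fin g → ℂ)} (h : IsAbelian Λ) :
    ∃ Λ' : Submodule ℤ (Fin (g + 1) → ℂ), IsAbelian Λ' ∧ ∀ v ∈ Λ', Fin.tail v ∈ Λ := by
  refine ⟨prodLat Λ, ⟨prod_discrete h.discrete, prod_span h.span, ?_⟩, fun v hv => hv.2⟩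
  obtain ⟨E, h1, h2, h3, h4⟩ := h.riemann
  refine ⟨LinearMap.mk₂ ℝ (fun v w : Fin (g + 1) → ℂ =>
    (v 0 * (starRingEnd ℂ) (w 0)).im + E (Fin.tail v) (Fin.tail w)) ?_ ?_ ?_ ?_, ?_, ?_, ?_, ?_⟩
  · intro v v' w
    have e : Fin.tail (v + v') = Fin.tail v + Fin.tail v' := rfl
    rw [e, map_add, LinearMap.add_apply, Pi.add_apply, add_mul, Complex.add_im]
    ring
  · intro c v w
    have e : Fin.tail (c • v) = c • Fin.tail v := rfl
    rw [e, map_smul, LinearMap.smul_apply, Pi.smul_apply, Complex.real_smul, mul_assoc,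
      Complex.im_ofReal_mul, smul_eq_mul, smul_eq_mul]
    ring
  · intro v w w'
    have e : Fin.tail (w + w') = Fin.tail w + Fin.tail w' := rfl
    rw [e, map_add, Pi.add_apply, map_add, mul_add, Complex.add_im]
    ring
  · intro c v w
    have e : Fin.tail (c • w) = c • Fin.tail w := rfl
    rw [e, map_smul, Pi.smul_apply, Complex.real_smul, map_mul, Complex.conj_ofReal,
      mul_left_comm, Complex.im_ofReal_mul, smul_eq_mul, smul_eq_mul]
    ring
  · intro v
    rw [LinearMap.mk₂_apply, h1, add_zero, Complex.mul_conj, Complex.ofReal_im]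
  · intro v w
    have e : ∀ u : Fin (g + 1) → ℂ, Fin.tail (Complex.I • u) = Complex.I • Fin.tail u :=
      fun _ => rfl
    rw [LinearMap.mk₂_apply, LinearMap.mk₂_apply, e, e, h2]
    congr 2
    simp only [Pi.smul_apply, smul_eq_mul, map_mul, Complex.conj_I]
    ring_nf
    rw [Complex.I_sq]
    ring
  · intro v hv
    have e : Fin.tail (Complex.I • v) = Complex.I • Fin.tail v := rfl
    rw [LinearMap.mk₂_apply, e]
    have e1 : ((Complex.I • v) 0 * (starRingEnd ℂ) (v 0)).im = Complex.normSq (v 0) := by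
      rw [Pi.smul_apply, smul_eq_mul, mul_assoc, Complex.mul_conj, Complex.I_mul_im,
        Complex.ofReal_re]
    rw [e1]
    by_cases ht : Fin.tail v = 0
    · rw [ht, map_zero, add_zero, Complex.normSq_pos]
      intro h0
      apply hv
      funext i
      refine Fin.cases h0 (fun j => congrFun ht j) i
    · exact add_pos_of_nonneg_of_pos (Complex.normSq_nonneg _) (h3 _ ht)
  · rintro v ⟨⟨a, b, hv0⟩, hv⟩ w ⟨⟨a', b', hw0⟩, hw⟩
    obtain ⟨n, hn⟩ := h4 _ hv _ hw
    refine ⟨b * a' - a * b' + n, ?_⟩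
    rw [LinearMap.mk₂_apply, hn, hv0, hw0]
    push_cast
    simp
    ring

theorem allOf_mono {d g : ℕ} (h : AllOf d (g + 1)) : AllOf d g := by
  intro Λ hΛ
  obtain ⟨Λ', h1, h2⟩ := isAbelian_prod hΛ
  obtain ⟨F, hF⟩ := h Λ' h1
  exact ⟨F, isQuotient_map (LinearMap.funLeft ℂ ℂ Fin.succ)
    (LinearMap.funLeft_surjective_of_injective ℂ ℂ _ (Fin.succ_injective g)) h2 hF⟩

end MP_c1bd5a_ag
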