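import Pool.Agent.Work.MP_c1bd5a_ag.Bair
import Pool.Agent.Work.MP_c1bd5a_ag.Fill
import Pool.Agent.Work.MP_c1bd5a_ag.Cov
import Pool.Agent.Work.MP_c1bd5a_ag.LatAb
import Pool.Agent.Work.MP_c1bd5a_ag.Mono
import Pool.Agent.Work.MP_c1bd5a_ag.CmAb
import Pool.Agent.Work.MP_c1bd5a_ag.CmQ
import Pool.Agent.Work.MP_c1bd5a_ag.CmPer

/-!
# Final : assembly
-/

set_option autoImplicit false

namespace MP_c1bd5a_ag

open MvPolynomial

theorem allOf_of_univ {d g : ℕ} (h : Loc d g = Set.univ) : AllOf d g := by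
  intro Λ hΛ
  obtain ⟨τ, hτ, T, hT⟩ := exists_cover hΛ
  have h1 : (⟨τ, hτ⟩ : Siegel g) ∈ Loc d g := by
    rw [h]
    exact Set.mem_univ _
  obtain ⟨F, hF⟩ := h1
  exact ⟨F, isQuotient_map T.toLinearMap T.surjective hT hF⟩

theorem univ_of_allOf {d g : ℕ} (h : AllOf d g) : Loc d g = Set.univ := by
  rw [Set.eq_univ_iff_forall]
  intro τ
  exact h _ (isAbelian_lat τ.2)

theorem not_meagre_of_univ {g : ℕ} (h : ⋃ d, Loc d g = Set.univ) :
    ¬ IsMeagre (⋃ d, Loc d g) := by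
  intro hm
  rw [h] at hm
  have h1 := locallyCompact_siegel g
  have h2 := nonempty_siegel g
  exact not_isMeagre_of_isOpen isOpen_univ Set.univ_nonempty hm

/-- The dichotomy degree by degree. -/
theorem allOf_or_meagre (d g : ℕ) : AllOf d g ∨ IsMeagre (Loc d g) := by
  by_cases hd : (interior (Loc d g)).Nonempty
  · exact Or.inl (allOf_of_univ (loc_eq_univ hd))
  · right
    rw [Set.not_nonempty_iff_eq_empty] at hd
    obtain ⟨K, hK, hKu⟩ := isSigmaCompact_loc d g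
    rw [← hKu]
    refine isMeagre_iUnion fun j => ?_
    apply IsNowhereDense.isMeagre
    rw [(hK j).isClosed.isNowhereDense_iff]
    have h1 : interior (K j) ⊆ interior (Loc d g) := by
      apply interior_mono
      rw [← hKu]
      exact Set.subset_iUnion K j
    rw [hd] at h1
    exact Set.subset_empty_iff.1 h1

theorem all_or_meagre (g : ℕ) : (∃ d, AllOf d g) ∨ IsMeagre (⋃ d, Loc d g) := by
  by_cases h : ∃ d, AllOf d g
  · exact Or.inl h
  · push Not at h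
    exact Or.inr (isMeagre_iUnion fun d => (allOf_or_meagre d g).resolve_left (h d))

theorem not_both (g : ℕ) : ¬ ((∃ d, AllOf d g) ∧ IsMeagre (⋃ d, Loc d g)) := by
  rintro ⟨⟨d, hd⟩, hm⟩
  refine not_meagre_of_univ ?_ hm
  rw [Set.eq_univ_iff_forall]
  intro τ
  rw [Set.mem_iUnion]
  exact ⟨d, by rw [univ_of_allOf hd]; exact Set.mem_univ _⟩

theorem allOf_le {d g g' : ℕ} (hg : g' ≤ g) (h : AllOf d g) : AllOf d g' := by
  induction g, hg using Nat.le_induction with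
  | base => exact h
  | succ n _ ih => exact ih (allOf_mono h)

theorem dense_fermat {g : ℕ} (hg : 1 ≤ g) : Dense (Loc (2 * g + 2) g) := by
  obtain ⟨c, hc, h⟩ := exists_periods hg
  have h1 := isQuotient_fer hg c hc h
  obtain ⟨τ, hτ, T, hT⟩ := exists_cocover (isAbelian_cmLat g)
  exact dense_loc ⟨⟨τ, hτ⟩, fer (2 * g + 2), isQuotient_map T.toLinearMap T.surjective hT h1⟩

theorem q1_iff : Q1 ↔ ∀ g, ∃ d, AllOf d g := by
  constructor
  · intro h g
    by_contra hcon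
    rcases all_or_meagre g with h1 | h1
    · exact hcon h1
    · refine not_meagre_of_univ ?_ h1
      rw [Set.eq_univ_iff_forall]
      intro τ
      obtain ⟨d, F, hF⟩ := h g (lat τ.1) (isAbelian_lat τ.2)
      rw [Set.mem_iUnion]
      exact ⟨d, F, hF⟩
  · intro h g Λ hΛ
    obtain ⟨d, hd⟩ := h g
    obtain ⟨F, hF⟩ := hd Λ hΛ
    exact ⟨d, F, hF⟩

theorem not_q1_iff : ¬ Q1 ↔ ∃ g₀, ∀ g, g₀ ≤ g → IsMeagre (⋃ d, Loc d g) := by
  constructor
  · intro h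
    rw [q1_iff] at h
    push Not at h
    obtain ⟨g₀, hg₀⟩ := h
    refine ⟨g₀, fun g hg => ?_⟩
    rcases all_or_meagre g with ⟨d, hd⟩ | h1
    · exact absurd (allOf_le hg hd) (hg₀ d)
    · exact h1
  · rintro ⟨g₀, h⟩ hq
    exact not_both g₀ ⟨q1_iff.1 hq g₀, h g₀ le_rfl⟩

theorem main :
    (∀ d g, AllOf d g ∨ IsMeagre (Loc d g)) ∧
    (∀ g, ¬ ((∃ d, AllOf d g) ∧ IsMeagre (⋃ d, Loc d g))) ∧
    (∀ g d, AllOf d (g + 1) → AllOf d g) ∧
    (∀ g, 1 ≤ g → Dense (Loc (2 * g + 2) g)) ∧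
    (Q1 ↔ ∀ g, ∃ d, AllOf d g) ∧
    (¬ Q1 ↔ ∃ g₀, ∀ g, g₀ ≤ g → IsMeagre (⋃ d, Loc d g)) :=
  ⟨allOf_or_meagre, not_both, fun _ _ h => allOf_mono h, fun _ hg => dense_fermat hg, q1_iff,
    not_q1_iff⟩

end MP_c1bd5a_ag
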