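import Pool.Agent.Work.MP_c1bd5a_ag.Defs

/-!
# LatLim (S-M) : the lattices depend continuously on `τ`

Let `(τ_n, v_n) → (τ, v)` with `v_n = a_n + τ_n b_n`, `a_n, b_n` integral.  `Im v_n = (Im τ_n) b_n`, `Im τ_n` is invertible
(positive definite), `b_n = (Im τ_n)⁻¹ Im v_n → (Im τ)⁻¹ Im v` (the inverse is continuous: `Matrix.inv_def`, `Ring.inverse`,
continuity of `det` and `adjugate`), `a_n = Re v_n - (Re τ_n) b_n` converges too.  The integral vectors are closed in
`Fin g → ℝ` (`Int.isClosedEmbedding_coe_real`, product), so the limits are integral.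
Alternatively: the set is the preimage of the closed set of pairs of integral vectors under the continuous map
`(τ, v) ↦ ((Im τ)⁻¹ Im v, Re v - (Re τ) (Im τ)⁻¹ Im v)`.
-/

set_option autoImplicit false

namespace MP_c1bd5a_ag

open MvPolynomial

/-- the coordinates of `v` for the real basis `1, τ` -/
private noncomputable def bet {g : ℕ} (τ : Matrix (Fin g) (Fin g) ℂ) (v : Fin g → ℂ) : Fin g → ℝ :=
  ((τ.map Complex.im)⁻¹).mulVec (fun i => (v i).im)

private noncomputable def alp {g : ℕ} (τ : Matrix (Fin g) (Fin g) ℂ) (v : Fin g → ℂ) : Fin g → ℝ :=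
  (fun i => (v i).re) - (τ.map Complex.re).mulVec (bet τ v)

private theorem im_mulVec_real {g : ℕ} (τ : Matrix (Fin g) (Fin g) ℂ) (b : Fin g → ℝ) (i : Fin g) :
    (τ.mulVec (fun j => (b j : ℂ)) i).im = (τ.map Complex.im).mulVec b i := by
  simp [Matrix.mulVec, dotProduct, Complex.im_sum]

private theorem re_mulVec_real {g : ℕ} (τ : Matrix (Fin g) (Fin g) ℂ) (b : Fin g → ℝ) (i : Fin g) :
    (τ.mulVec (fun j => (b j : ℂ)) i).re = (τ.map Complex.re).mulVec b i := by
  simp [Matrix.mulVec, dotProduct, Complex.re_sum]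

private theorem mem_iff {g : ℕ} {τ : Matrix (Fin g) (Fin g) ℂ} (h : τ ∈ Siegel g)
    (v : Fin g → ℂ) : v ∈ lat τ ↔
      (∀ i, bet τ v i ∈ Set.range ((↑) : ℤ → ℝ)) ∧ (∀ i, alp τ v i ∈ Set.range ((↑) : ℤ → ℝ)) := by
  have hdet : IsUnit (τ.map Complex.im).det := (h.2.det_pos).ne'.isUnit
  constructor
  · rintro ⟨a, b, rfl⟩
    have hb : bet τ ((fun i => (a i : ℂ)) + τ.mulVec fun i => (b i : ℂ)) = fun i => (b i : ℝ) := by
      have h1 : (fun i => (((fun i => (a i : ℂ)) + τ.mulVec fun i => (b i : ℂ)) i).im) =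
          (τ.map Complex.im).mulVec (fun i => (b i : ℝ)) := by
        ext i
        rw [← im_mulVec_real]
        simp
      rw [bet, h1, Matrix.mulVec_mulVec, Matrix.nonsing_inv_mul _ hdet, Matrix.one_mulVec]
    refine ⟨fun i => ⟨b i, by rw [hb]⟩, fun i => ⟨a i, ?_⟩⟩
    rw [alp, hb, Pi.sub_apply, ← re_mulVec_real]
    simp
  · rintro ⟨hb, ha⟩
    choose b hb using hb
    choose a ha using ha
    refine ⟨a, b, ?_⟩
    have hb' : bet τ v = fun i => (b i : ℝ) := funext fun i => (hb i).symm
    ext i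
    apply Complex.ext
    · have h1 := ha i
      rw [alp, Pi.sub_apply, hb', ← re_mulVec_real] at h1
      simp only [Pi.add_apply, Complex.add_re, Complex.intCast_re]
      simp only [Complex.ofReal_intCast] at h1
      linarith
    · have h2 : (τ.map Complex.im).mulVec (bet τ v) = fun i => (v i).im := by
        rw [bet, Matrix.mulVec_mulVec, Matrix.mul_nonsing_inv _ hdet, Matrix.one_mulVec]
      have h3 := congrFun h2 i
      rw [hb', ← im_mulVec_real] at h3
      simp only [Complex.ofReal_intCast] at h3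
      simp only [Pi.add_apply, Complex.add_im, Complex.intCast_im, zero_add]
      exact h3.symm

theorem isClosed_lat (g : ℕ) : IsClosed {q : (Siegel g) × (Fin g → ℂ) | q.2 ∈ lat q.1.1} := by
  have him : Continuous fun q : (Siegel g) × (Fin g → ℂ) => q.1.1.map Complex.im :=
    (continuous_subtype_val.comp continuous_fst).matrix_map Complex.continuous_im
  have hre : Continuous fun q : (Siegel g) × (Fin g → ℂ) => q.1.1.map Complex.re :=
    (continuous_subtype_val.comp continuous_fst).matrix_map Complex.continuous_re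
  have hinv : Continuous fun q : (Siegel g) × (Fin g → ℂ) => (q.1.1.map Complex.im)⁻¹ := by
    simp only [Matrix.inv_def, Ring.inverse_eq_inv']
    exact (him.matrix_det.inv₀ fun q => (q.1.2.2.det_pos).ne').smul him.matrix_adjugate
  have hvim : Continuous fun q : (Siegel g) × (Fin g → ℂ) => fun i => (q.2 i).im :=
    continuous_pi fun i => Complex.continuous_im.comp ((continuous_apply i).comp continuous_snd)
  have hvre : Continuous fun q : (Siegel g) × (Fin g → ℂ) => fun i => (q.2 i).re :=
    continuous_pi fun i => Complex.continuous_re.comp ((continuous_apply i).comp continuous_snd)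
  have hbet : Continuous fun q : (Siegel g) × (Fin g → ℂ) => bet q.1.1 q.2 :=
    hinv.matrix_mulVec hvim
  have halp : Continuous fun q : (Siegel g) × (Fin g → ℂ) => alp q.1.1 q.2 :=
    hvre.sub (hre.matrix_mulVec hbet)
  have hZ : IsClosed (Set.range ((↑) : ℤ → ℝ)) := Int.isClosedEmbedding_coe_real.isClosed_range
  have hset : {q : (Siegel g) × (Fin g → ℂ) | q.2 ∈ lat q.1.1} =
      (⋂ i, {q : (Siegel g) × (Fin g → ℂ) | bet q.1.1 q.2 i ∈ Set.range ((↑) : ℤ → ℝ)}) ∩
      ⋂ i, {q : (Siegel g) × (Fin g → ℂ) | alp q.1.1 q.2 i ∈ Set.range ((↑) : ℤ → ℝ)} := by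
    ext q
    simp only [Set.mem_ofPred_eq, Set.mem_inter_iff, Set.mem_iInter]
    exact mem_iff q.1.2 q.2
  rw [hset]
  exact (isClosed_iInter fun i => hZ.preimage ((continuous_apply i).comp hbet)).inter
    (isClosed_iInter fun i => hZ.preimage ((continuous_apply i).comp halp))

end MP_c1bd5a_ag
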