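import Pool.Agent.Work.MP_c1bd5a_ag.Coef

/-!
# PerLim (M) : periods depend continuously on the curve, the form and the path

The function `(q, t, s) ↦ eval ![x t, y t + s, 1] (pol n q.2) / eval ![x t, y t + s, 1] (pderiv 1 (pol d q.1))` is continuous at all points
`((c, p), t, 0)` with `t ∈ [0, 1]` (the denominator does not vanish there).  By compactness of `[0, 1]`, for every `ε' > 0` there is `δ > 0` such
that, for `q` close to `(c, p)`, `t ∈ [0, 1]` and `‖s‖ ≤ δ`, it differs from its value at `((c, p), t, 0)` by at most `ε'`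
(`IsCompact.eventually_forall_of_forall_eventually` for the filter `𝓝 (c, p) ×ˢ 𝓝 0`, then split the product neighbourhood).
With `M` a bound for `‖deriv x‖` on `[0, 1]` (`γ.hx.continuous_deriv le_rfl`) the difference of the periods is at most `ε' M`
(`intervalIntegral.norm_integral_le_of_norm_le_const` for the difference; both integrands are continuous on `[0, 1]`, so interval
integrable, `intervalIntegral.integral_sub`).  Take `ε' = ε / (M + 1) / 2`-like.  (`s = γ'.y t - γ.y t`, `γ'.x = γ.x`.)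
-/

set_option autoImplicit false

namespace MP_c1bd5a_ag

open MvPolynomial Filter Topology

private theorem perLim_vec {X : Type*} [TopologicalSpace X] {a b : X → ℂ} (ha : Continuous a)
    (hb : Continuous b) : Continuous fun t => (![a t, b t, 1] : Fin 3 → ℂ) := by
  refine continuous_pi fun i => ?_
  fin_cases i
  · exact ha
  · exact hb
  · exact continuous_const

private theorem perLim_N (d n : ℕ) : Continuous fun z : ((Idx d → ℂ) × (Idx n → ℂ)) × (Fin 3 → ℂ) =>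
    eval z.2 (pol n z.1.2) := by
  have h : Continuous fun z : ((Idx d → ℂ) × (Idx n → ℂ)) × (Fin 3 → ℂ) =>
      ((z.1.2, z.2) : (Idx n → ℂ) × (Fin 3 → ℂ)) :=
    (continuous_snd.comp continuous_fst).prodMk continuous_snd
  have h2 := (continuous_ev n).comp h
  exact h2

private theorem perLim_D (d n : ℕ) : Continuous fun z : ((Idx d → ℂ) × (Idx n → ℂ)) × (Fin 3 → ℂ) =>
    eval z.2 (pderiv 1 (pol d z.1.1)) := by
  have h : Continuous fun z : ((Idx d → ℂ) × (Idx n → ℂ)) × (Fin 3 → ℂ) =>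
      ((z.1.1, z.2) : (Idx d → ℂ) × (Fin 3 → ℂ)) :=
    (continuous_fst.comp continuous_fst).prodMk continuous_snd
  have h2 := (continuous_evd d 1).comp h
  exact h2

private theorem perLim_int {F : MvPolynomial (Fin 3) ℂ} (P : MvPolynomial (Fin 3) ℂ) (γ : Loop F) :
    IntervalIntegrable (fun t => eval ![γ.x t, γ.y t, 1] P /
      eval ![γ.x t, γ.y t, 1] (pderiv 1 F) * deriv γ.x t) MeasureTheory.volume 0 1 := by
  refine ContinuousOn.intervalIntegrable ?_
  rw [Set.uIcc_of_le zero_le_one]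
  have h1 := perLim_vec γ.hx.continuous γ.hy
  have h2 : Continuous fun t => eval ![γ.x t, γ.y t, 1] P := (MvPolynomial.continuous_eval P).comp h1
  have h3 : Continuous fun t => eval ![γ.x t, γ.y t, 1] (pderiv 1 F) :=
    (MvPolynomial.continuous_eval (pderiv 1 F)).comp h1
  exact (h2.continuousOn.div h3.continuousOn γ.ne).mul (γ.hx.continuous_deriv le_rfl).continuousOn

private theorem perLim_abs {X : Type*} [TopologicalSpace X] (x0 : X) {N D : X × (Fin 3 → ℂ) → ℂ}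
    (hN : Continuous N) (hD : Continuous D) {x y : ℝ → ℂ} (hx : Continuous x) (hy : Continuous y)
    (hne : ∀ t ∈ Set.Icc (0 : ℝ) 1, D (x0, ![x t, y t, 1]) ≠ 0) {ε : ℝ} (hε : 0 < ε) :
    ∃ δ : ℝ, 0 < δ ∧ ∀ᶠ q in 𝓝 x0, ∀ t ∈ Set.Icc (0 : ℝ) 1, ∀ s : ℂ, ‖s - y t‖ ≤ δ →
      ‖N (q, ![x t, s, 1]) / D (q, ![x t, s, 1]) -
        N (x0, ![x t, y t, 1]) / D (x0, ![x t, y t, 1])‖ < ε := by
  have hv : Continuous fun z : (X × ℂ) × ℝ => (![x z.2, y z.2 + z.1.2, 1] : Fin 3 → ℂ) :=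
    perLim_vec (hx.comp continuous_snd)
      ((hy.comp continuous_snd).add (continuous_snd.comp continuous_fst))
  have hw : Continuous fun z : (X × ℂ) × ℝ => ((z.1.1, ![x z.2, y z.2 + z.1.2, 1]) : X × (Fin 3 → ℂ)) :=
    (continuous_fst.comp continuous_fst).prodMk hv
  have hv0 : Continuous fun z : (X × ℂ) × ℝ => (![x z.2, y z.2, 1] : Fin 3 → ℂ) :=
    perLim_vec (hx.comp continuous_snd) (hy.comp continuous_snd)
  have hw0 : Continuous fun z : (X × ℂ) × ℝ => ((x0, ![x z.2, y z.2, 1]) : X × (Fin 3 → ℂ)) :=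
    continuous_const.prodMk hv0
  have key : ∀ᶠ z : X × ℂ in 𝓝 (x0, (0 : ℂ)), ∀ t ∈ Set.Icc (0 : ℝ) 1,
      ‖N (z.1, ![x t, y t + z.2, 1]) / D (z.1, ![x t, y t + z.2, 1]) -
        N (x0, ![x t, y t, 1]) / D (x0, ![x t, y t, 1])‖ < ε := by
    refine isCompact_Icc.eventually_forall_of_forall_eventually (P := fun (z : X × ℂ) (t : ℝ) =>
      ‖N (z.1, ![x t, y t + z.2, 1]) / D (z.1, ![x t, y t + z.2, 1]) -
        N (x0, ![x t, y t, 1]) / D (x0, ![x t, y t, 1])‖ < ε) fun t ht => ?_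
    have c1 : ContinuousAt (fun z : (X × ℂ) × ℝ => N (z.1.1, ![x z.2, y z.2 + z.1.2, 1]) /
        D (z.1.1, ![x z.2, y z.2 + z.1.2, 1])) ((x0, (0 : ℂ)), t) := by
      refine (hN.comp hw).continuousAt.div (hD.comp hw).continuousAt ?_
      have := hne t ht
      simpa only [Function.comp_apply, add_zero] using this
    have c2 : ContinuousAt (fun z : (X × ℂ) × ℝ => N (x0, ![x z.2, y z.2, 1]) /
        D (x0, ![x z.2, y z.2, 1])) ((x0, (0 : ℂ)), t) :=
      (hN.comp hw0).continuousAt.div (hD.comp hw0).continuousAt (hne t ht)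
    refine (c1.sub c2).norm.eventually_lt continuousAt_const ?_
    simp only [Pi.sub_apply, add_zero, sub_self, norm_zero]
    exact hε
  obtain ⟨U, hU, V, hV, hUV⟩ := mem_nhds_prod_iff.1 key
  obtain ⟨δ, hδ, hball⟩ := Metric.mem_nhds_iff.1 hV
  refine ⟨δ / 2, by positivity, ?_⟩
  filter_upwards [hU] with q hq t ht s hs
  have h1 : (q, s - y t) ∈ U ×ˢ V := by
    refine ⟨hq, hball ?_⟩
    rw [Metric.mem_ball, dist_zero_right]
    linarith
  have h3 := hUV h1 t ht
  simp only [add_sub_cancel] at h3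
  exact h3

theorem period_close {d n : ℕ} {c : Idx d → ℂ} (p : Idx n → ℂ) (γ : Loop (pol d c)) {ε : ℝ}
    (hε : 0 < ε) : ∃ δ : ℝ, 0 < δ ∧ ∀ᶠ q : (Idx d → ℂ) × (Idx n → ℂ) in 𝓝 (c, p),
      ∀ γ' : Loop (pol d q.1), γ'.x = γ.x → (∀ t ∈ Set.Icc (0 : ℝ) 1, ‖γ'.y t - γ.y t‖ ≤ δ) →
        ‖period (pol n q.2) γ' - period (pol n p) γ‖ < ε := by
  obtain ⟨M, hM⟩ : ∃ M : ℝ, ∀ t ∈ Set.Icc (0 : ℝ) 1, ‖deriv γ.x t‖ ≤ M :=
    isCompact_Icc.exists_bound_of_continuousOn (γ.hx.continuous_deriv le_rfl).continuousOn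
  have hM0 : 0 ≤ M := (norm_nonneg _).trans (hM 0 ⟨le_rfl, zero_le_one⟩)
  obtain ⟨ε', hε', hεM⟩ : ∃ ε' : ℝ, 0 < ε' ∧ ε' * M < ε := by
    refine ⟨ε / (M + 1) / 2, by positivity, ?_⟩
    have h1 : ε / (M + 1) / 2 * M ≤ ε / (M + 1) / 2 * (M + 1) := by
      apply mul_le_mul_of_nonneg_left _ (by positivity)
      linarith
    have h2 : ε / (M + 1) / 2 * (M + 1) = ε / 2 := by
      have : M + 1 ≠ 0 := by positivity
      field_simp
    linarith
  have hN : Continuous fun z : ((Idx d → ℂ) × (Idx n → ℂ)) × (Fin 3 → ℂ) =>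
      eval z.2 (pol n z.1.2) := perLim_N d n
  have hD : Continuous fun z : ((Idx d → ℂ) × (Idx n → ℂ)) × (Fin 3 → ℂ) =>
      eval z.2 (pderiv 1 (pol d z.1.1)) := perLim_D d n
  obtain ⟨δ, hδ, hall⟩ := perLim_abs (c, p) hN hD γ.hx.continuous γ.hy γ.ne hε'
  refine ⟨δ, hδ, ?_⟩
  filter_upwards [hall] with q hq γ' hx hy
  have i1 := perLim_int (pol n q.2) γ'
  have i2 := perLim_int (pol n p) γ
  unfold period
  rw [← intervalIntegral.integral_sub i1 i2]
  refine lt_of_le_of_lt ((intervalIntegral.norm_integral_le_of_norm_le_const (C := ε' * M) ?_).trans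
    (le_of_eq (by simp))) hεM
  intro t ht
  rw [Set.uIoc_of_le zero_le_one] at ht
  have ht' : t ∈ Set.Icc (0 : ℝ) 1 := ⟨ht.1.le, ht.2⟩
  have h3 := hq t ht' (γ'.y t) (hy t ht')
  rw [hx, ← sub_mul, norm_mul]
  exact mul_le_mul h3.le (hM t ht') (norm_nonneg _) hε'.le

end MP_c1bd5a_ag
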