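import Pool.Agent.Work.MP_c1bd5a_ag.Defs

/-!
# Push (M) : quotients of quotients

`P' i = ∑ j, (T (Pi.single j 1)) i • P j`: homogeneous of degree `n`; period vectors: `(fun i => period (P' i) γ) = T (fun j => period (P j) γ)`
because `period` is linear in `P` (the integrand is continuous on `[0, 1]`: `Loop.ne`; `intervalIntegral.integral_add`, `integral_const_mul`,
`integral_finset_sum`), and `T v = ∑ j, v j • T (Pi.single j 1)` (`LinearMap.pi_apply_eq_sum_univ`).  Linear independence: let `∑ i, a i • P' i = 0`; then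
`∑ i, a i * (T (Pi.single j 1)) i = 0` for all `j` (independence of `P`), so the functional `w ↦ ∑ i, a i * w i` vanishes on the
range of `T`, which is everything; so `a = 0`.
-/

set_option autoImplicit false

namespace MP_c1bd5a_ag

open MvPolynomial

private theorem push_T {g h : ℕ} (T : (Fin g → ℂ) →ₗ[ℂ] (Fin h → ℂ)) (v : Fin g → ℂ) :
    T v = ∑ j, v j • T (Pi.single j 1) := by
  conv_lhs => rw [pi_eq_sum_univ' v]
  rw [map_sum]
  refine Finset.sum_congr rfl fun j _ => ?_
  rw [map_smul]

private theorem push_int {F : MvPolynomial (Fin 3) ℂ} (P : MvPolynomial (Fin 3) ℂ) (γ : Loop F) :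
    IntervalIntegrable (fun t => eval ![γ.x t, γ.y t, 1] P /
      eval ![γ.x t, γ.y t, 1] (pderiv 1 F) * deriv γ.x t) MeasureTheory.volume 0 1 := by
  apply ContinuousOn.intervalIntegrable
  rw [Set.uIcc_of_le zero_le_one]
  have hv : Continuous fun t : ℝ => (![γ.x t, γ.y t, 1] : Fin 3 → ℂ) := by
    have hx := γ.hx.continuous
    have hy := γ.hy
    rw [continuous_pi_iff]
    intro i
    fin_cases i
    · exact hx
    · exact hy
    · exact continuous_const
  have h1 : Continuous fun t : ℝ => eval ![γ.x t, γ.y t, 1] P :=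
    (MvPolynomial.continuous_eval P).comp hv
  have h2 : Continuous fun t : ℝ => eval ![γ.x t, γ.y t, 1] (pderiv 1 F) :=
    (MvPolynomial.continuous_eval (pderiv 1 F)).comp hv
  exact (h1.continuousOn.div h2.continuousOn γ.ne).mul
    (γ.hx.continuous_deriv le_rfl).continuousOn

private theorem push_period {g : ℕ} {F : MvPolynomial (Fin 3) ℂ} (a : Fin g → ℂ)
    (P : Fin g → MvPolynomial (Fin 3) ℂ) (γ : Loop F) :
    period (∑ j, a j • P j) γ = ∑ j, a j * period (P j) γ := by
  unfold period
  have h1 : ∀ t : ℝ, eval ![γ.x t, γ.y t, 1] (∑ j, a j • P j) /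
      eval ![γ.x t, γ.y t, 1] (pderiv 1 F) * deriv γ.x t =
      ∑ j, a j * (eval ![γ.x t, γ.y t, 1] (P j) /
        eval ![γ.x t, γ.y t, 1] (pderiv 1 F) * deriv γ.x t) := by
    intro t
    rw [map_sum, Finset.sum_div, Finset.sum_mul]
    refine Finset.sum_congr rfl fun j _ => ?_
    rw [MvPolynomial.smul_eval]
    ring
  simp only [h1]
  rw [intervalIntegral.integral_finsetSum]
  · refine Finset.sum_congr rfl fun j _ => ?_
    rw [intervalIntegral.integral_const_mul]
  · intro j _
    exact (push_int (P j) γ).const_mul (a j)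

theorem isQuotient_map {g h d : ℕ} {F : MvPolynomial (Fin 3) ℂ} {Λ : Submodule ℤ (Fin g → ℂ)}
    {Λ' : Submodule ℤ (Fin h → ℂ)} (T : (Fin g → ℂ) →ₗ[ℂ] (Fin h → ℂ))
    (hT : Function.Surjective T) (hΛ : ∀ v ∈ Λ, T v ∈ Λ') (hq : IsQuotient d F Λ) :
    IsQuotient d F Λ' := by
  classical
  obtain ⟨hs, n, hn, P, hP, hli, hper⟩ := hq
  refine ⟨hs, n, hn, fun i => ∑ j, T (Pi.single j 1) i • P j, ?_, ?_, ?_⟩
  · intro i
    refine MvPolynomial.IsHomogeneous.sum _ _ _ fun j _ => ?_
    rw [MvPolynomial.smul_eq_C_mul]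
    exact (hP j).C_mul _
  · rw [Fintype.linearIndependent_iff] at hli ⊢
    intro a ha i
    have h1 : ∀ j, ∑ i, a i * T (Pi.single j 1) i = 0 := by
      apply hli
      rw [← ha]
      simp only [Finset.smul_sum, Finset.sum_smul, smul_smul]
      rw [Finset.sum_comm]
    have h2 : ∀ v : Fin g → ℂ, ∑ i, a i * T v i = 0 := by
      intro v
      rw [push_T T v]
      simp only [Finset.sum_apply, Pi.smul_apply, smul_eq_mul, Finset.mul_sum]
      rw [Finset.sum_comm]
      refine Finset.sum_eq_zero fun j _ => ?_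
      have h3 := h1 j
      calc ∑ i, a i * (v j * T (Pi.single j 1) i) = v j * ∑ i, a i * T (Pi.single j 1) i := by
            rw [Finset.mul_sum]
            refine Finset.sum_congr rfl fun i _ => ?_
            ring
        _ = 0 := by rw [h3, mul_zero]
    obtain ⟨v, hv⟩ := hT (Pi.single i 1)
    have h4 := h2 v
    rw [hv, Finset.sum_eq_single i] at h4
    · simpa using h4
    · intro j _ hj
      rw [Pi.single_eq_of_ne hj, mul_zero]
    · intro hi
      exact absurd (Finset.mem_univ i) hi
  · intro γ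
    have h1 : (fun i => period (∑ j, T (Pi.single j 1) i • P j) γ) =
        T (fun j => period (P j) γ) := by
      funext i
      rw [push_period, push_T T]
      simp only [Finset.sum_apply, Pi.smul_apply, smul_eq_mul]
      refine Finset.sum_congr rfl fun j _ => ?_
      ring
    rw [h1]
    exact hΛ _ (hper γ)

end MP_c1bd5a_ag
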