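import Pool.Agent.Work.MP_c1bd5a_ag.Trans
import Pool.Agent.Work.MP_c1bd5a_ag.PerLim
import Pool.Agent.Work.MP_c1bd5a_ag.LatLim

/-!
# RelC (M) : the relation `Rel` is closed

Let `q = (c, P, τ) ∉ Rel`: there is `γ` on `pol d c` with period vector `v ∉ lat τ`.  By `isClosed_lat` there are `ε > 0` and a
neighbourhood of `τ` such that `v' ∉ lat τ'` for `τ'` in it and `‖v' i - v i‖ < ε` for all `i`.  `period_close` for every `i : Fin g` gives
`δ_i`; `transport` with `δ = min_i δ_i` (for `g = 0` take `1`) gives for `c'` near `c` a path `γ'`; its period vector for `(c', P')` near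
`(c, P)` is not in `lat τ'`.  So the complement is open (`isOpen_iff_eventually` / `isOpen_iff_mem_nhds`).
-/

set_option autoImplicit false

namespace MP_c1bd5a_ag

open MvPolynomial Filter Topology

theorem isClosed_rel (d n g : ℕ) : IsClosed (Rel d n g) := by
  rw [← isOpen_compl_iff, isOpen_iff_mem_nhds]
  rintro ⟨c, P, τ⟩ hq
  have hq' : ¬ ∀ γ : Loop (pol d c), (fun i => period (pol n (P i)) γ) ∈ lat τ.1 := hq
  push Not at hq'
  obtain ⟨γ, hγ⟩ := hq'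
  have h1 : {q : (Siegel g) × (Fin g → ℂ) | q.2 ∈ lat q.1.1}ᶜ ∈
      𝓝 ((τ, fun i => period (pol n (P i)) γ) : (Siegel g) × (Fin g → ℂ)) :=
    (isClosed_lat g).isOpen_compl.mem_nhds hγ
  obtain ⟨U, hU, W, hW, hUW⟩ := mem_nhds_prod_iff.1 h1
  obtain ⟨ε, hε, hball⟩ := Metric.mem_nhds_iff.1 hW
  choose δ hδ hper using fun i => period_close (P i) γ hε
  obtain ⟨δ0, hδ0, hle⟩ : ∃ δ0 : ℝ, 0 < δ0 ∧ ∀ i, δ0 ≤ δ i := by
    have h2 : ∀ᶠ t in 𝓝[>] (0 : ℝ), 0 < t ∧ ∀ i, t ≤ δ i := by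
      refine (eventually_mem_nhdsWithin).and (eventually_all.2 fun i => ?_)
      exact nhdsWithin_le_nhds (Iic_mem_nhds (hδ i))
    exact h2.exists
  have h3 := transport γ hδ0
  have t1 : ∀ᶠ q : (Idx d → ℂ) × (Fin g → Idx n → ℂ) × Siegel g in 𝓝 (c, P, τ),
      ∃ γ' : Loop (pol d q.1), γ'.x = γ.x ∧ ∀ t ∈ Set.Icc (0 : ℝ) 1, ‖γ'.y t - γ.y t‖ ≤ δ0 :=
    (continuous_fst.tendsto (c, P, τ)).eventually h3
  have t2 : ∀ i, ∀ᶠ q : (Idx d → ℂ) × (Fin g → Idx n → ℂ) × Siegel g in 𝓝 (c, P, τ),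
      ∀ γ' : Loop (pol d q.1), γ'.x = γ.x → (∀ t ∈ Set.Icc (0 : ℝ) 1, ‖γ'.y t - γ.y t‖ ≤ δ i) →
        ‖period (pol n (q.2.1 i)) γ' - period (pol n (P i)) γ‖ < ε := by
    intro i
    have hc : Continuous fun q : (Idx d → ℂ) × (Fin g → Idx n → ℂ) × Siegel g =>
        (q.1, q.2.1 i) := by fun_prop
    exact (hc.tendsto (c, P, τ)).eventually (hper i)
  have t3 : ∀ᶠ q : (Idx d → ℂ) × (Fin g → Idx n → ℂ) × Siegel g in 𝓝 (c, P, τ), q.2.2 ∈ U := by
    have hc : Continuous fun q : (Idx d → ℂ) × (Fin g → Idx n → ℂ) × Siegel g => q.2.2 := by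
      fun_prop
    exact (hc.tendsto (c, P, τ)).eventually hU
  filter_upwards [t1, eventually_all.2 t2, t3] with q k1 k2 k3 hmem
  obtain ⟨γ', hx, hy⟩ := k1
  have h4 : (fun i => period (pol n (q.2.1 i)) γ') ∈ lat q.2.2.1 := hmem γ'
  have h5 : (fun i => period (pol n (q.2.1 i)) γ') ∈ W := by
    apply hball
    rw [Metric.mem_ball, dist_pi_lt_iff hε]
    intro i
    rw [dist_eq_norm]
    exact k2 i γ' hx fun t ht => (hy t ht).trans (hle i)
  exact hUW (Set.mk_mem_prod k3 h5) h4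

end MP_c1bd5a_ag
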