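import Pool.Agent.Work.MP_c1bd5a_ag.Defs

/-!
# Sieg (M) : Siegel's upper half space is locally compact

`{τ | τ.IsSymm}` is closed.  For symmetric `τ` the matrix `Im τ` is symmetric, and it is positive definite iff
`x ⬝ Im τ x > 0` for all real `x` with `‖x‖ = 1` (scaling); the set of the `τ` with this property is open: the complement is the
projection of a closed set along the compact sphere (`isClosedMap_fst_of_compactSpace`), or the minimum over the sphere is
continuous.  So `Siegel g` is the intersection of a closed and an open set, hence locally compact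
(`IsLocallyClosed` / `IsClosed.locallyCompactSpace`, `IsOpen.locallyCompactSpace`; matrices `Fin g → Fin g → ℂ` are locally compact).
`nonempty_siegel`: `τ = I • 1`.
-/

set_option autoImplicit false

namespace MP_c1bd5a_ag

open MvPolynomial

private theorem isOpen_pos (g : ℕ) : IsOpen {τ : Matrix (Fin g) (Fin g) ℂ |
    ∀ x ∈ Metric.sphere (0 : Fin g → ℝ) 1, 0 < dotProduct x ((τ.map Complex.im).mulVec x)} := by
  rw [isOpen_iff_mem_nhds]
  intro τ hτ
  refine (isCompact_sphere (0 : Fin g → ℝ) 1).eventually_forall_of_forall_eventually ?_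
  intro x hx
  have hc : Continuous fun z : Matrix (Fin g) (Fin g) ℂ × (Fin g → ℝ) =>
      dotProduct z.2 ((z.1.map Complex.im).mulVec z.2) :=
    continuous_snd.dotProduct
      ((continuous_fst.matrix_map Complex.continuous_im).matrix_mulVec continuous_snd)
  exact hc.continuousAt.eventually (lt_mem_nhds (hτ x hx))

private theorem siegel_eq (g : ℕ) : Siegel g = {τ : Matrix (Fin g) (Fin g) ℂ |
    ∀ x ∈ Metric.sphere (0 : Fin g → ℝ) 1, 0 < dotProduct x ((τ.map Complex.im).mulVec x)} ∩
      {τ | τ.transpose = τ} := by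
  ext τ
  constructor
  · rintro ⟨h1, h2⟩
    refine ⟨fun x hx => ?_, h1⟩
    have hx0 : x ≠ 0 := by
      rintro rfl
      simp at hx
    have h3 := h2.dotProduct_mulVec_pos hx0
    rwa [star_trivial] at h3
  · rintro ⟨h1, h2⟩
    refine ⟨h2, Matrix.PosDef.of_dotProduct_mulVec_pos ?_ fun x hx => ?_⟩
    · rw [Matrix.IsHermitian, Matrix.conjTranspose_eq_transpose_of_trivial, ← Matrix.transpose_map,
        show τ.transpose = τ from h2]
    · rw [star_trivial]
      have hn : 0 < ‖x‖ := norm_pos_iff.2 hx
      have h3 := h1 (‖x‖⁻¹ • x) (by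
        rw [mem_sphere_zero_iff_norm, norm_smul, norm_inv, norm_norm, inv_mul_cancel₀ hn.ne'])
      rw [Matrix.mulVec_smul, smul_dotProduct, dotProduct_smul, smul_eq_mul, smul_eq_mul] at h3
      have h4 : 0 < ‖x‖ * (‖x‖ * (‖x‖⁻¹ * (‖x‖⁻¹ *
          dotProduct x ((τ.map Complex.im).mulVec x)))) := mul_pos hn (mul_pos hn h3)
      have h5 : ‖x‖ * (‖x‖ * (‖x‖⁻¹ * (‖x‖⁻¹ *
          dotProduct x ((τ.map Complex.im).mulVec x)))) =
          dotProduct x ((τ.map Complex.im).mulVec x) := by
        field_simp
      rwa [h5] at h4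

theorem locallyCompact_siegel (g : ℕ) : LocallyCompactSpace (Siegel g) := by
  have : LocallyCompactSpace (Matrix (Fin g) (Fin g) ℂ) :=
    inferInstanceAs (LocallyCompactSpace (Fin g → Fin g → ℂ))
  apply IsLocallyClosed.locallyCompactSpace
  rw [siegel_eq]
  refine (isOpen_pos g).isLocallyClosed.inter (IsClosed.isLocallyClosed ?_)
  exact isClosed_eq continuous_id.matrix_transpose continuous_id

theorem nonempty_siegel (g : ℕ) : Nonempty (Siegel g) := by
  refine ⟨⟨Complex.I • (1 : Matrix (Fin g) (Fin g) ℂ), ?_, ?_⟩⟩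
  · rw [Matrix.IsSymm, Matrix.transpose_smul, Matrix.transpose_one]
  · have h1 : (Complex.I • (1 : Matrix (Fin g) (Fin g) ℂ)).map Complex.im = 1 := by
      ext i j
      rw [Matrix.map_apply, Matrix.smul_apply, Matrix.one_apply, Matrix.one_apply]
      split_ifs <;> simp
    rw [h1]
    exact Matrix.PosDef.one

end MP_c1bd5a_ag
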