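import Pool.Agent.Work.MP_c1bd5a_ag.UOpen
import Pool.Agent.Work.MP_c1bd5a_ag.RelC
import Pool.Agent.Work.MP_c1bd5a_ag.Sieg

/-!
# Sig (M) : the set `Loc d g` is a countable union of compact sets

`Loc d g` is empty if `d < 3`.  Let `d = n + 3` and `X = (Idx d → ℂ) × (Fin g → Idx n → ℂ) × Siegel g`, locally compact
(`locallyCompact_siegel`) and second countable.  `O = {q | SmoothPlane d (pol d q.1) ∧ LinearIndependent ℂ q.2.1}` is open
(`isOpen_smooth`, `isOpen_setOf_linearIndependent`), so it is a countable union of compact sets (an open subset of a locally compact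
second countable space: `isSigmaCompact_iff_sigmaCompactSpace`, `IsOpen.locallyCompactSpace`).  Intersect these with the closed set
`Rel d n g` (`isClosed_rel`): `O ∩ Rel` is sigma-compact, and `Loc d g` is its image under `q ↦ q.2.2` (`IsSigmaCompact.image`; `exists_pol`, `pol_li`,
`pol_hom` translate between forms and coefficients).
-/

set_option autoImplicit false

namespace MP_c1bd5a_ag

open MvPolynomial

theorem isSigmaCompact_loc (d g : ℕ) : IsSigmaCompact (Loc d g) := by
  classical
  by_cases hd : ∃ n, n + 3 = d
  · obtain ⟨n, rfl⟩ := hd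
    have hlc := locallyCompact_siegel g
    have hsc : SecondCountableTopology (Matrix (Fin g) (Fin g) ℂ) :=
      inferInstanceAs (SecondCountableTopology (Fin g → Fin g → ℂ))
    set O : Set ((Idx (n + 3) → ℂ) × (Fin g → Idx n → ℂ) × Siegel g) :=
      {q | SmoothPlane (n + 3) (pol (n + 3) q.1) ∧ LinearIndependent ℂ q.2.1} with hOd
    have hO : IsOpen O := by
      have h1 : IsOpen {q : (Idx (n + 3) → ℂ) × (Fin g → Idx n → ℂ) × Siegel g |
          SmoothPlane (n + 3) (pol (n + 3) q.1)} :=
        (isOpen_smooth (n + 3)).preimage continuous_fst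
      have h2 : IsOpen {q : (Idx (n + 3) → ℂ) × (Fin g → Idx n → ℂ) × Siegel g |
          LinearIndependent ℂ q.2.1} :=
        (isOpen_setOfPred_linearIndependent (𝕜 := ℂ) (ι := Fin g) (E := Idx n → ℂ)).preimage
          (continuous_fst.comp continuous_snd)
      exact h1.inter h2
    have hOs : IsSigmaCompact O := by
      rw [isSigmaCompact_iff_sigmaCompactSpace]
      have := hO.locallyCompactSpace
      infer_instance
    obtain ⟨K, hK, hKu⟩ := hOs
    have hR : IsSigmaCompact (O ∩ Rel (n + 3) n g) := by
      refine ⟨fun j => K j ∩ Rel (n + 3) n g, fun j => (hK j).inter_right (isClosed_rel _ _ _), ?_⟩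
      rw [← Set.iUnion_inter, hKu]
    have himg : Loc (n + 3) g = (fun q : (Idx (n + 3) → ℂ) × (Fin g → Idx n → ℂ) × Siegel g =>
        q.2.2) '' (O ∩ Rel (n + 3) n g) := by
      ext τ
      constructor
      · rintro ⟨F, hF, n', hn', P, hP, hli, hper⟩
        obtain rfl : n' = n := by omega
        obtain ⟨c, rfl⟩ := exists_pol hF.hom
        choose p hp using fun i => exists_pol (hP i)
        refine ⟨(c, p, τ), ⟨⟨hF, ?_⟩, ?_⟩, rfl⟩
        · rw [← pol_li]
          have : (fun i => pol n' (p i)) = P := funext hp
          rw [this]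
          exact hli
        · intro γ
          have h1 := hper γ
          have h2 : (fun i => period (pol n' (p i)) γ) = fun i => period (P i) γ := by
            funext i
            rw [hp i]
          show (fun i => period (pol n' (p i)) γ) ∈ lat τ.1
          rw [h2]
          exact h1
      · rintro ⟨⟨c, p, τ'⟩, ⟨⟨h1, h2⟩, h3⟩, rfl⟩
        exact ⟨pol (n + 3) c, h1, n, rfl, fun i => pol n (p i), fun i => pol_hom n (p i),
          (pol_li p).2 h2, h3⟩
    rw [himg]
    exact hR.image (continuous_snd.comp continuous_snd)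
  · have h0 : Loc d g = ∅ := by
      rw [Set.eq_empty_iff_forall_notMem]
      rintro τ ⟨F, _, n, hn, _⟩
      exact hd ⟨n, hn⟩
    rw [h0]
    exact isSigmaCompact_empty

end MP_c1bd5a_ag
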