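import Pool.Agent.Work.MP_c1bd5a_ag.Coef

/-!
# Trans (M-L) : transport of closed paths to nearby curves

Write `G c' t s = eval ![x t, y t + s, 1] (pol d c')`, `G' c' t s = eval ![x t, y t + s, 1] (pderiv 1 (pol d c'))`, `D t = G' c t 0 ≠ 0`
for `t ∈ I = [0, 1]`; all three are jointly continuous (`continuous_ev`, `continuous_evd`, `γ.hx.continuous`, `γ.hy`), and `G'` is the derivative
of `G` in `s` (`hasDerivAt_ev`).  `G c t 0 = 0` for `t ∈ I`.
(1) By compactness of `I` (the function `(c', t, s) ↦ ‖G' c' t s - D t‖ - ‖D t‖ / 2` is negative at `(c, t, 0)`) there are `r` with `0 < r ≤ ε` and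
a neighbourhood of `c` such that `‖G' c' t s - D t‖ ≤ ‖D t‖ / 2` for `t ∈ I`, `‖s‖ ≤ r`; then, shrinking the neighbourhood,
`‖G c' t 0‖ ≤ ‖D t‖ r / 2` for `t ∈ I` (continuity at `(c, t)`, compactness, `‖D t‖ > 0`).  (Tube lemma: `IsCompact.eventually_forall_of_forall_eventually`.)
(2) For such `c'` and `t ∈ I` the map `N_t s = s - G c' t s / D t` has derivative of norm at most `1 / 2` on the disc `‖s‖ ≤ r`, so it is
Lipschitz with constant `1 / 2` there (`Convex.norm_image_sub_le_of_norm_hasDerivWithin_le`), and `‖N_t 0‖ ≤ r / 2`, so it maps the disc to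
itself: there is a unique fixed point `s t` in the disc (`ContractingWith.exists_fixedPoint'` or `LipschitzOnWith` / `ContractingWith` on the
complete set `Metric.closedBall 0 r`), i.e. a unique zero of `G c' t`.
(3) `s` is continuous on `I`: `‖s t - s t'‖ = ‖N_t (s t) - N_t' (s t')‖ ≤ ‖s t - s t'‖ / 2 + ‖N_t (s t') - N_t' (s t')‖`, so
`‖s t - s t'‖ ≤ 2 ‖N_t (s t') - N_t' (s t')‖`, which tends to `0` for `t → t'`.
(4) `s 0 = s 1`, because `x 0 = x 1`, `y 0 = y 1` and the zero is unique.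
`γ'`: the same `x`, `y' t = y t + s (projIcc t)` (`Set.IccExtend`, continuous on `ℝ`), `F_Y = G' c' t (s t) ≠ 0` because its distance from
`D t` is at most `‖D t‖ / 2`.
-/

set_option autoImplicit false

namespace MP_c1bd5a_ag

open MvPolynomial Filter Topology

private theorem tr_vec {x y : ℝ → ℂ} (hx : Continuous x) (hy : Continuous y) :
    Continuous fun q : ℝ × ℂ => (![x q.1, y q.1 + q.2, 1] : Fin 3 → ℂ) := by
  refine continuous_pi fun i => ?_
  fin_cases i
  · exact hx.comp continuous_fst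
  · exact (hy.comp continuous_fst).add continuous_snd
  · exact continuous_const

private theorem tr_cont (d : ℕ) {x y : ℝ → ℂ} (hx : Continuous x) (hy : Continuous y) :
    Continuous fun q : (Idx d → ℂ) × ℝ × ℂ => eval ![x q.2.1, y q.2.1 + q.2.2, 1] (pol d q.1) := by
  have h0 : Continuous fun q : (Idx d → ℂ) × ℝ × ℂ =>
      (![x q.2.1, y q.2.1 + q.2.2, 1] : Fin 3 → ℂ) := (tr_vec hx hy).comp continuous_snd
  have h1 : Continuous fun q : (Idx d → ℂ) × ℝ × ℂ =>
      ((q.1, (![x q.2.1, y q.2.1 + q.2.2, 1] : Fin 3 → ℂ)) : (Idx d → ℂ) × (Fin 3 → ℂ)) :=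
    continuous_fst.prodMk h0
  have h2 := (continuous_ev d).comp h1
  simpa only [Function.comp_def] using h2

private theorem tr_contd (d : ℕ) {x y : ℝ → ℂ} (hx : Continuous x) (hy : Continuous y) :
    Continuous fun q : (Idx d → ℂ) × ℝ × ℂ =>
      eval ![x q.2.1, y q.2.1 + q.2.2, 1] (pderiv 1 (pol d q.1)) := by
  have h0 : Continuous fun q : (Idx d → ℂ) × ℝ × ℂ =>
      (![x q.2.1, y q.2.1 + q.2.2, 1] : Fin 3 → ℂ) := (tr_vec hx hy).comp continuous_snd
  have h1 : Continuous fun q : (Idx d → ℂ) × ℝ × ℂ =>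
      ((q.1, (![x q.2.1, y q.2.1 + q.2.2, 1] : Fin 3 → ℂ)) : (Idx d → ℂ) × (Fin 3 → ℂ)) :=
    continuous_fst.prodMk h0
  have h2 := (continuous_evd d 1).comp h1
  simpa only [Function.comp_def] using h2

private theorem tr_lip {Q : MvPolynomial (Fin 3) ℂ} {a b D : ℂ} {r : ℝ} (hD : D ≠ 0)
    (h : ∀ s : ℂ, ‖s‖ ≤ r → ‖eval ![a, b + s, 1] (pderiv 1 Q) - D‖ ≤ ‖D‖ / 2) {s s' : ℂ}
    (hs : ‖s‖ ≤ r) (hs' : ‖s'‖ ≤ r) :
    ‖(s - eval ![a, b + s, 1] Q / D) - (s' - eval ![a, b + s', 1] Q / D)‖ ≤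
      1 / 2 * ‖s - s'‖ := by
  have hd : ∀ u ∈ Metric.closedBall (0 : ℂ) r,
      HasDerivWithinAt (fun u : ℂ => u - eval ![a, b + u, 1] Q / D)
        (1 - eval ![a, b + u, 1] (pderiv 1 Q) / D) (Metric.closedBall (0 : ℂ) r) u := by
    intro u _
    have h1 := (hasDerivAt_ev Q a (b + u)).comp_const_add b u
    exact ((hasDerivAt_id u).sub (h1.div_const D)).hasDerivWithinAt
  have hb : ∀ u ∈ Metric.closedBall (0 : ℂ) r,
      ‖1 - eval ![a, b + u, 1] (pderiv 1 Q) / D‖ ≤ 1 / 2 := by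
    intro u hu
    have h1 := h u (by simpa using hu)
    have h2 : 1 - eval ![a, b + u, 1] (pderiv 1 Q) / D =
        -((eval ![a, b + u, 1] (pderiv 1 Q) - D) / D) := by
      field_simp
      ring
    rw [h2, norm_neg, norm_div, div_le_iff₀ (norm_pos_iff.2 hD)]
    linarith
  exact Convex.norm_image_sub_le_of_norm_hasDerivWithin_le hd hb (convex_closedBall 0 r)
    (by simpa using hs') (by simpa using hs)

theorem transport {d : ℕ} {c : Idx d → ℂ} (γ : Loop (pol d c)) {ε : ℝ} (hε : 0 < ε) :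
    ∀ᶠ c' in 𝓝 c, ∃ γ' : Loop (pol d c'), γ'.x = γ.x ∧
      ∀ t ∈ Set.Icc (0 : ℝ) 1, ‖γ'.y t - γ.y t‖ ≤ ε := by
  classical
  have hxc : Continuous γ.x := γ.hx.continuous
  have hyc : Continuous γ.y := γ.hy
  set D : ℝ → ℂ := fun t => eval ![γ.x t, γ.y t, 1] (pderiv 1 (pol d c)) with hDdef
  have hDc : Continuous D := by
    have h1 := (tr_contd d hxc hyc).comp
      (continuous_const.prodMk (continuous_id.prodMk continuous_const) :
        Continuous fun t : ℝ => ((c, t, (0 : ℂ)) : (Idx d → ℂ) × ℝ × ℂ))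
    simpa [Function.comp_def, hDdef] using h1
  have hD0 : ∀ t ∈ Set.Icc (0 : ℝ) 1, D t ≠ 0 := γ.ne
  -- the neighbourhoods
  have h1 : ∀ᶠ z : (Idx d → ℂ) × ℂ in 𝓝 (c, 0), ∀ t ∈ Set.Icc (0 : ℝ) 1,
      ‖eval ![γ.x t, γ.y t + z.2, 1] (pderiv 1 (pol d z.1)) - D t‖ < ‖D t‖ / 2 := by
    apply IsCompact.eventually_forall_of_forall_eventually isCompact_Icc
      (P := fun (z : (Idx d → ℂ) × ℂ) (t : ℝ) =>
        ‖eval ![γ.x t, γ.y t + z.2, 1] (pderiv 1 (pol d z.1)) - D t‖ < ‖D t‖ / 2)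
    intro t ht
    have hc1 : Continuous fun q : ((Idx d → ℂ) × ℂ) × ℝ =>
        ‖eval ![γ.x q.2, γ.y q.2 + q.1.2, 1] (pderiv 1 (pol d q.1.1)) - D q.2‖ := by
      have h2 := (tr_contd d hxc hyc).comp
        ((continuous_fst.comp continuous_fst).prodMk
          (continuous_snd.prodMk (continuous_snd.comp continuous_fst)) :
          Continuous fun q : ((Idx d → ℂ) × ℂ) × ℝ =>
            ((q.1.1, q.2, q.1.2) : (Idx d → ℂ) × ℝ × ℂ))
      have h3 := (h2.sub (hDc.comp continuous_snd)).norm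
      simpa only [Function.comp_def, Pi.sub_apply] using h3
    have hc2 : Continuous fun q : ((Idx d → ℂ) × ℂ) × ℝ => ‖D q.2‖ / 2 := by
      have h3 := ((hDc.comp (continuous_snd (X := (Idx d → ℂ) × ℂ))).norm).div_const 2
      simpa only [Function.comp_def] using h3
    have h3 := (isOpen_lt hc1 hc2).mem_nhds (x := ((c, (0 : ℂ)), t)) (by
      show ‖eval ![γ.x t, γ.y t + 0, 1] (pderiv 1 (pol d c)) - D t‖ < ‖D t‖ / 2
      rw [add_zero, hDdef]
      simp only [sub_self, norm_zero]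
      have := norm_pos_iff.2 (hD0 t ht)
      simp only [hDdef] at this
      positivity)
    exact h3
  rw [nhds_prod_eq, Filter.eventually_prod_iff] at h1
  obtain ⟨pa, hpa, pb, hpb, hab⟩ := h1
  obtain ⟨r0, hr0, hball⟩ := Metric.eventually_nhds_iff_ball.1 hpb
  set r : ℝ := min (r0 / 2) ε with hr
  have hrpos : 0 < r := lt_min (by positivity) hε
  have hrε : r ≤ ε := min_le_right _ _
  have hrr0 : r < r0 := lt_of_le_of_lt (min_le_left _ _) (by linarith)
  have h2 : ∀ᶠ c' in 𝓝 c, ∀ t ∈ Set.Icc (0 : ℝ) 1,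
      ‖eval ![γ.x t, γ.y t + 0, 1] (pol d c')‖ < ‖D t‖ * (r / 2) := by
    apply IsCompact.eventually_forall_of_forall_eventually isCompact_Icc
      (P := fun (c' : Idx d → ℂ) (t : ℝ) =>
        ‖eval ![γ.x t, γ.y t + 0, 1] (pol d c')‖ < ‖D t‖ * (r / 2))
    intro t ht
    have hc1 : Continuous fun q : (Idx d → ℂ) × ℝ =>
        ‖eval ![γ.x q.2, γ.y q.2 + 0, 1] (pol d q.1)‖ := by
      have h2 := (tr_cont d hxc hyc).comp
        (continuous_fst.prodMk (continuous_snd.prodMk continuous_const) :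
          Continuous fun q : (Idx d → ℂ) × ℝ => ((q.1, q.2, (0 : ℂ)) : (Idx d → ℂ) × ℝ × ℂ))
      have h3 := h2.norm
      simpa only [Function.comp_def] using h3
    have hc2 : Continuous fun q : (Idx d → ℂ) × ℝ => ‖D q.2‖ * (r / 2) := by
      have h3 := ((hDc.comp (continuous_snd (X := Idx d → ℂ))).norm).mul_const (r / 2)
      simpa only [Function.comp_def] using h3
    have h3 := (isOpen_lt hc1 hc2).mem_nhds (x := (c, t)) (by
      show ‖eval ![γ.x t, γ.y t + 0, 1] (pol d c)‖ < ‖D t‖ * (r / 2)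
      rw [add_zero, γ.mem t ht, norm_zero]
      have := norm_pos_iff.2 (hD0 t ht)
      positivity)
    exact h3
  filter_upwards [hpa, h2] with c' hc'a hc'0
  have hder : ∀ t ∈ Set.Icc (0 : ℝ) 1, ∀ s : ℂ, ‖s‖ ≤ r →
      ‖eval ![γ.x t, γ.y t + s, 1] (pderiv 1 (pol d c')) - D t‖ < ‖D t‖ / 2 := by
    intro t ht s hs
    exact hab hc'a (hball s (by rw [mem_ball_zero_iff]; exact hs.trans_lt hrr0)) t ht
  have hlip : ∀ t ∈ Set.Icc (0 : ℝ) 1, ∀ s s' : ℂ, ‖s‖ ≤ r → ‖s'‖ ≤ r →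
      ‖(s - eval ![γ.x t, γ.y t + s, 1] (pol d c') / D t) -
        (s' - eval ![γ.x t, γ.y t + s', 1] (pol d c') / D t)‖ ≤ 1 / 2 * ‖s - s'‖ :=
    fun t ht s s' hs hs' => tr_lip (hD0 t ht) (fun u hu => (hder t ht u hu).le) hs hs'
  have hzero : ∀ t ∈ Set.Icc (0 : ℝ) 1,
      ‖(0 : ℂ) - eval ![γ.x t, γ.y t + 0, 1] (pol d c') / D t‖ ≤ r / 2 := by
    intro t ht
    rw [zero_sub, norm_neg, norm_div, div_le_iff₀ (norm_pos_iff.2 (hD0 t ht))]
    linarith [hc'0 t ht]
  -- the operator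
  let N : C(Set.Icc (0 : ℝ) 1, ℂ) → C(Set.Icc (0 : ℝ) 1, ℂ) := fun s =>
    ⟨fun t => s t - eval ![γ.x t, γ.y t + s t, 1] (pol d c') / D t, by
      have h3 := (tr_cont d hxc hyc).comp
        (continuous_const.prodMk (continuous_subtype_val.prodMk s.continuous) :
          Continuous fun t : Set.Icc (0 : ℝ) 1 => ((c', t.1, s t) : (Idx d → ℂ) × ℝ × ℂ))
      have h4 := s.continuous.sub (h3.div (hDc.comp continuous_subtype_val) fun t => hD0 t.1 t.2)
      simpa only [Function.comp_def, Pi.sub_def, Pi.div_def] using h4⟩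
  have hNap : ∀ s t, N s t = s t - eval ![γ.x t, γ.y t + s t, 1] (pol d c') / D t :=
    fun s t => rfl
  have hNmaps : Set.MapsTo N (Metric.closedBall 0 r) (Metric.closedBall 0 r) := by
    intro s hs
    rw [mem_closedBall_zero_iff] at hs ⊢
    rw [ContinuousMap.norm_le _ hrpos.le] at hs ⊢
    intro t
    have h3 := hlip t.1 t.2 (s t) 0 (hs t) (by simpa using hrpos.le)
    have h4 := hzero t.1 t.2
    rw [hNap]
    have h5 : s t - eval ![γ.x t, γ.y t + s t, 1] (pol d c') / D t =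
        ((s t - eval ![γ.x t, γ.y t + s t, 1] (pol d c') / D t) -
          ((0 : ℂ) - eval ![γ.x t, γ.y t + 0, 1] (pol d c') / D t)) +
          ((0 : ℂ) - eval ![γ.x t, γ.y t + 0, 1] (pol d c') / D t) := by ring
    rw [h5]
    refine (norm_add_le _ _).trans ?_
    have h6 := hs t
    rw [sub_zero] at h3
    linarith
  have hNlip : ContractingWith (1 / 2) (hNmaps.restrict N _ _) := by
    refine ⟨?_, ?_⟩
    · rw [← NNReal.coe_lt_coe]
      norm_num
    · refine LipschitzWith.of_dist_le_mul fun s s' => ?_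
      have hs := s.2
      have hs' := s'.2
      rw [mem_closedBall_zero_iff, ContinuousMap.norm_le _ hrpos.le] at hs hs'
      have hC : (0 : ℝ) ≤ ((1 / 2 : NNReal) : ℝ) * dist s s' := by positivity
      show dist (N s.1) (N s'.1) ≤ _
      rw [ContinuousMap.dist_le hC]
      intro t
      rw [dist_eq_norm, hNap, hNap]
      refine (hlip t.1 t.2 (s.1 t) (s'.1 t) (hs t) (hs' t)).trans ?_
      have h3 : ‖s.1 t - s'.1 t‖ ≤ dist s.1 s'.1 := by
        rw [← dist_eq_norm]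
        exact ContinuousMap.dist_apply_le_dist t
      have h4 : dist s s' = dist s.1 s'.1 := rfl
      rw [h4]
      push_cast
      linarith
  obtain ⟨s, hs, hfix, -⟩ := ContractingWith.exists_fixedPoint'
    (Metric.isClosed_closedBall.isComplete) hNmaps hNlip
    (x := 0) (by simpa using hrpos.le) (edist_ne_top _ _)
  rw [mem_closedBall_zero_iff, ContinuousMap.norm_le _ hrpos.le] at hs
  have hsz : ∀ t : Set.Icc (0 : ℝ) 1, eval ![γ.x t, γ.y t + s t, 1] (pol d c') = 0 := by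
    intro t
    have h3 : N s t = s t := by rw [hfix]
    rw [hNap] at h3
    have h4 : eval ![γ.x t, γ.y t + s t, 1] (pol d c') / D t = 0 := by
      linear_combination -h3
    rcases div_eq_zero_iff.1 h4 with h5 | h5
    · exact h5
    · exact absurd h5 (hD0 t.1 t.2)
  have m0 : (0 : ℝ) ∈ Set.Icc (0 : ℝ) 1 := by simp
  have m1 : (1 : ℝ) ∈ Set.Icc (0 : ℝ) 1 := by simp
  have hs01 : s ⟨0, m0⟩ = s ⟨1, m1⟩ := by
    have h3 := hlip 0 m0 (s ⟨0, m0⟩) (s ⟨1, m1⟩) (hs _) (hs _)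
    have h4 := hsz ⟨0, m0⟩
    have h5 := hsz ⟨1, m1⟩
    simp only at h4 h5
    rw [← γ.closed.1, ← γ.closed.2] at h5
    rw [h4, h5, zero_div, sub_zero, sub_zero] at h3
    have h6 : ‖s ⟨0, m0⟩ - s ⟨1, m1⟩‖ ≤ 0 := by linarith
    exact sub_eq_zero.1 (norm_le_zero_iff.1 h6)
  have hproj : ∀ t (ht : t ∈ Set.Icc (0 : ℝ) 1),
      Set.projIcc (0 : ℝ) 1 zero_le_one t = ⟨t, ht⟩ := fun t ht => Set.projIcc_of_mem _ ht
  refine ⟨⟨γ.x, fun t => γ.y t + s (Set.projIcc (0 : ℝ) 1 zero_le_one t), γ.hx,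
    hyc.add (s.continuous.comp continuous_projIcc), ?_, ?_, ?_⟩, rfl, ?_⟩
  · intro t ht
    simp only [hproj t ht]
    exact hsz ⟨t, ht⟩
  · intro t ht h0
    simp only [hproj t ht] at h0
    have h3 := hder t ht (s ⟨t, ht⟩) (hs _)
    rw [h0, zero_sub, norm_neg] at h3
    have := norm_nonneg (D t)
    linarith
  · refine ⟨γ.closed.1, ?_⟩
    simp only [hproj 0 m0, hproj 1 m1, hs01, γ.closed.2]
  · intro t ht
    simp only [hproj t ht, add_sub_cancel_left]
    exact (hs _).trans hrε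

end MP_c1bd5a_ag
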