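import Pool.Agent.Work.MP_c1bd5a_ag.Defs

/-!
# Trn (M) : the real Siegel parabolic subgroup acts transitively

Let `Y = Im τ`, `Y' = Im τ'`, both positive definite.  There are invertible real matrices `S`, `S'` with `Y = S Sᵀ`, `Y' = S' S'ᵀ` (square root
of a positive definite matrix: `CFC.sqrt` / `Matrix.PosSemidef` square root, or `Matrix.posDef_iff_eq_conjTranspose_mul_self`-type lemma; over `ℝ` the
conjugate transpose is the transpose).  `A = S' S⁻¹`: `A Y Aᵀ = Y'`.  `B = Re τ' - A (Re τ) Aᵀ`, symmetric.  `act A B τ = τ'`: compare real and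
imaginary parts of the entries (`τ = Re τ + I Im τ`).
-/

set_option autoImplicit false

namespace MP_c1bd5a_ag

open MvPolynomial

open scoped MatrixOrder ComplexOrder in
private theorem exists_root {g : ℕ} {Y : Matrix (Fin g) (Fin g) ℝ} (hY : Y.PosDef) :
    ∃ S : Matrix (Fin g) (Fin g) ℝ, S * S.transpose = Y ∧ S.det ≠ 0 := by
  have h0 : (0 : Matrix (Fin g) (Fin g) ℝ) ≤ Y := Matrix.nonneg_iff_posSemidef.2 hY.posSemidef
  have h1 : CFC.sqrt Y * CFC.sqrt Y = Y := CFC.sqrt_mul_sqrt_self Y h0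
  have h2 : star (CFC.sqrt Y) = CFC.sqrt Y := (CFC.sqrt_nonneg Y).isSelfAdjoint
  have h3 : (CFC.sqrt Y).transpose = CFC.sqrt Y := by
    rw [Matrix.star_eq_conjTranspose] at h2
    rw [← Matrix.conjTranspose_eq_transpose_of_trivial]
    exact h2
  refine ⟨CFC.sqrt Y, ?_, ?_⟩
  · rw [h3, h1]
  · intro h
    have h4 : Y.det = 0 := by
      rw [← h1, Matrix.det_mul, h, mul_zero]
    exact hY.det_pos.ne' h4

theorem exists_act {g : ℕ} {τ τ' : Matrix (Fin g) (Fin g) ℂ} (hτ : τ ∈ Siegel g)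
    (hτ' : τ' ∈ Siegel g) : ∃ A B : Matrix (Fin g) (Fin g) ℝ, A.det ≠ 0 ∧ B.IsSymm ∧
      act A B τ = τ' := by
  obtain ⟨hs, hp⟩ := hτ
  obtain ⟨hs', hp'⟩ := hτ'
  obtain ⟨S, hS, hSd⟩ := exists_root hp
  obtain ⟨S', hS', hSd'⟩ := exists_root hp'
  have hSu : IsUnit S.det := isUnit_iff_ne_zero.2 hSd
  set X := τ.map Complex.re with hX
  set X' := τ'.map Complex.re with hX'
  set Y := τ.map Complex.im with hY
  set Y' := τ'.map Complex.im with hY'
  have hXs : X.transpose = X := by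
    rw [hX, ← Matrix.transpose_map, hs.eq]
  have hXs' : X'.transpose = X' := by
    rw [hX', ← Matrix.transpose_map, hs'.eq]
  have hA : (S' * S⁻¹) * Y * (S' * S⁻¹).transpose = Y' := by
    rw [← hS, ← hS', Matrix.transpose_mul]
    have h1 : S' * S⁻¹ * (S * S.transpose) * (S⁻¹.transpose * S'.transpose) =
      S' * (S⁻¹ * S) * (S.transpose * S⁻¹.transpose) * S'.transpose := by
      simp only [Matrix.mul_assoc]
    rw [h1, Matrix.nonsing_inv_mul _ hSu, ← Matrix.transpose_mul, Matrix.nonsing_inv_mul _ hSu,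
      Matrix.transpose_one, Matrix.mul_one, Matrix.mul_one]
  refine ⟨S' * S⁻¹, X' - (S' * S⁻¹) * X * (S' * S⁻¹).transpose, ?_, ?_, ?_⟩
  · rw [Matrix.det_mul]
    exact mul_ne_zero hSd' (Matrix.isUnit_nonsing_inv_det S hSu).ne_zero
  · have hsym : ∀ A : Matrix (Fin g) (Fin g) ℝ,
        (A * X * A.transpose).transpose = A * X * A.transpose := fun A => by
      rw [Matrix.transpose_mul, Matrix.transpose_mul, Matrix.transpose_transpose, hXs,
        Matrix.mul_assoc]
    unfold Matrix.IsSymm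
    rw [Matrix.transpose_sub, hXs', hsym]
  · set A := S' * S⁻¹ with hAdef
    have hτe : τ = X.map (fun x : ℝ => (x : ℂ)) + Complex.I • Y.map (fun x : ℝ => (x : ℂ)) := by
      ext i j
      simp only [hX, hY, Matrix.add_apply, Matrix.map_apply, Matrix.smul_apply, smul_eq_mul]
      rw [mul_comm, Complex.re_add_im]
    have hτe' : τ' = X'.map (fun x : ℝ => (x : ℂ)) + Complex.I • Y'.map (fun x : ℝ => (x : ℂ)) := by
      ext i j
      simp only [hX', hY', Matrix.add_apply, Matrix.map_apply, Matrix.smul_apply, smul_eq_mul]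
      rw [mul_comm, Complex.re_add_im]
    have hmm : ∀ P Q : Matrix (Fin g) (Fin g) ℝ, (P * Q).map (fun x : ℝ => (x : ℂ)) =
        P.map (fun x : ℝ => (x : ℂ)) * Q.map (fun x : ℝ => (x : ℂ)) := fun P Q =>
      Matrix.map_mul (f := Complex.ofRealHom)
    have hms : ∀ P Q : Matrix (Fin g) (Fin g) ℝ, (P - Q).map (fun x : ℝ => (x : ℂ)) =
        P.map (fun x : ℝ => (x : ℂ)) - Q.map (fun x : ℝ => (x : ℂ)) := fun P Q => by
      ext i j
      simp
    clear_value A
    have hAZ : ∀ Z : Matrix (Fin g) (Fin g) ℝ, (A * Z * A.transpose).map (fun x : ℝ => (x : ℂ)) =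
        A.map (fun x : ℝ => (x : ℂ)) * Z.map (fun x : ℝ => (x : ℂ)) *
          (A.map (fun x : ℝ => (x : ℂ))).transpose := fun Z => by
      rw [hmm, hmm, Matrix.transpose_map]
    unfold act
    rw [hτe', ← hA, hms, hAZ, hAZ]
    conv_lhs => rw [hτe]
    rw [Matrix.mul_add, Matrix.add_mul, Matrix.mul_smul, Matrix.smul_mul]
    abel

end MP_c1bd5a_ag
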