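import Pool.Agent.Work.MP_c1bd5a_ag.Coef

/-!
# UOpen (M) : smoothness is an open condition

The complement is `{c | ∃ v ≠ 0, ∀ i, eval v (pderiv i (pol d c)) = 0}` (`pol_hom` gives the field `hom`).  The partial derivatives
are homogeneous (`IsHomogeneous.pderiv`), so one may take `‖v‖ = 1`: `eval (r • v) Q = r ^ k * eval v Q` for `Q` homogeneous of
degree `k` (prove it by expanding `Q` as a sum of monomials, or by `MvPolynomial.IsHomogeneous.eval₂`-type lemmas; for
`d = 0` all partial derivatives are zero).  The set `{(c, v) | ‖v‖ = 1, all partial derivatives vanish}` is closed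
(`continuous_evd`), and its projection along the compact sphere is closed: `isClosedMap_fst_of_compactSpace` with the compact space
`Metric.sphere (0 : Fin 3 → ℂ) 1` (a subtype), or a sequence argument.
-/

set_option autoImplicit false

namespace MP_c1bd5a_ag

open MvPolynomial


private theorem eval_hom {k : ℕ} {Q : MvPolynomial (Fin 3) ℂ} (hQ : Q.IsHomogeneous k) (r : ℂ)
    (v : Fin 3 → ℂ) : eval (r • v) Q = r ^ k * eval v Q := by
  rw [eval_eq', eval_eq', Finset.mul_sum]
  refine Finset.sum_congr rfl fun m hm => ?_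
  have h1 : Finset.univ.sum (fun i => m i) = k := by
    have h2 := hQ (mem_support_iff.1 hm)
    rw [← h2, Finsupp.weight_apply, Finsupp.sum_fintype _ _ (by simp)]
    simp
  have h3 : ∏ i, (r • v) i ^ m i = r ^ k * ∏ i, v i ^ m i := by
    rw [← h1, ← Finset.prod_pow_eq_pow_sum, ← Finset.prod_mul_distrib]
    refine Finset.prod_congr rfl fun i _ => ?_
    rw [Pi.smul_apply, smul_eq_mul, mul_pow]
  rw [h3]
  ring

theorem isOpen_smooth (d : ℕ) : IsOpen {c : Idx d → ℂ | SmoothPlane d (pol d c)} := by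
  have : CompactSpace (Metric.sphere (0 : Fin 3 → ℂ) 1) :=
    isCompact_iff_compactSpace.1 (isCompact_sphere 0 1)
  let S : Set ((Idx d → ℂ) × Metric.sphere (0 : Fin 3 → ℂ) 1) :=
    {p | ∀ i, eval (p.2 : Fin 3 → ℂ) (pderiv i (pol d p.1)) = 0}
  have hS : IsClosed S := by
    have h1 : S = ⋂ i, {p : (Idx d → ℂ) × Metric.sphere (0 : Fin 3 → ℂ) 1 |
        eval (p.2 : Fin 3 → ℂ) (pderiv i (pol d p.1)) = 0} := by
      ext p
      simp [S]
    rw [h1]
    refine isClosed_iInter fun i => isClosed_eq ?_ continuous_const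
    have h2 : Continuous fun p : (Idx d → ℂ) × Metric.sphere (0 : Fin 3 → ℂ) 1 =>
        (p.1, (p.2 : Fin 3 → ℂ)) :=
      continuous_fst.prodMk (continuous_subtype_val.comp continuous_snd)
    have h3 : Continuous ((fun p : (Idx d → ℂ) × (Fin 3 → ℂ) => eval p.2 (pderiv i (pol d p.1))) ∘
        (fun p : (Idx d → ℂ) × Metric.sphere (0 : Fin 3 → ℂ) 1 => (p.1, (p.2 : Fin 3 → ℂ)))) :=
      Continuous.comp (continuous_evd d i) h2
    simpa only [Function.comp_def] using h3
  have hC : IsClosed (Prod.fst '' S) := isClosedMap_fst_of_compactSpace S hS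
  have hE : {c : Idx d → ℂ | SmoothPlane d (pol d c)} = (Prod.fst '' S)ᶜ := by
    ext c
    rw [Set.mem_setOf_eq, Set.mem_compl_iff, Set.mem_image]
    constructor
    · rintro h ⟨p, hp, rfl⟩
      have h0 : (p.2 : Fin 3 → ℂ) ≠ 0 := by
        intro h1
        have h2 : ‖(p.2 : Fin 3 → ℂ)‖ = 1 := mem_sphere_zero_iff_norm.1 p.2.2
        rw [h1, norm_zero] at h2
        exact zero_ne_one h2
      obtain ⟨i, hi⟩ := h.smooth _ h0
      exact hi (hp i)
    · intro h
      refine ⟨pol_hom d c, fun v hv => ?_⟩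
      by_contra hcon
      push Not at hcon
      apply h
      have hv' : ‖v‖ ≠ 0 := norm_ne_zero_iff.2 hv
      have hs : ((‖v‖ : ℂ)⁻¹ • v) ∈ Metric.sphere (0 : Fin 3 → ℂ) 1 := by
        rw [mem_sphere_zero_iff_norm, norm_smul, norm_inv, Complex.norm_real, norm_norm,
          inv_mul_cancel₀ hv']
      refine ⟨(c, ⟨_, hs⟩), fun i => ?_, rfl⟩
      change eval ((‖v‖ : ℂ)⁻¹ • v) (pderiv i (pol d c)) = 0
      rw [eval_hom (pol_hom d c).pderiv, hcon i, mul_zero]
  rw [hE]
  exact hC.isOpen_compl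


end MP_c1bd5a_ag
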